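import Pool.Agent.Lib.MP_052029_lc.Z.ZProto

/-!
# Module ZFa: numbers

PROOF. `c` small, `n` large, `s = ⌊n^(1/4)⌋` (so `10 s <= √n`, `s >= n^(1/4)/2`), `d = ⌊c1 log₂ n⌋`, `c1 = 1/1000`: `64^d <= n^(6 c1)`. `P.m <= 2^cost <= 2^(c (log₂ n)^2)`,
`(5 s/√n)^(d+1) <= (n^(-1/5))^(d+1) <= 2^(-(log₂ n)(c1 log₂ n)/5)` because `d + 1 >= c1 log₂ n`; so `P.m * (..)^(d+1) <= 1` for `c <= c1/5`.
Right side of `proto`: `<= 4 n^(6 c1) n^(-1/8) (2 d n^c + 3) <= n^(-1/16)` for large `n`, `c <= 1/100`. The same for `proto_one` (`d = 1` or the same `d`).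
-/

set_option autoImplicit false

namespace MP052029.Zr

open Finset

private theorem ZFa_num (n : ℕ) (hL : 1000 ≤ Real.log n) (m cost : ℕ) (hm : m ≤ 2 ^ cost)
    (hcost : (cost : ℝ) ≤ (1 / 10000) * Real.logb 2 n ^ 2) :
    ∃ s d : ℕ, 1 ≤ s ∧ s ≤ n ∧ 1 ≤ d ∧ 10 * (s : ℝ) ≤ √n ∧
      2 * 64 ^ d / √s * (2 * d * (n : ℝ) ^ (1 / 10000 : ℝ) + 1 + 2 * m * (5 * s / √n) ^ (d + 1)) ≤
        (n : ℝ) ^ (-1 / 16 : ℝ) := by
  have hn0 : (0 : ℝ) < n := by
    rcases Nat.eq_zero_or_pos n with h | h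
    · rw [h] at hL
      simp at hL
      linarith
    · exact_mod_cast h
  set L := Real.log n with hLdef
  have hn : (n : ℝ) = Real.exp L := (Real.exp_log hn0).symm
  have hadd : ∀ x : ℝ, 1 + x ≤ Real.exp x := fun x => by
    have := Real.add_one_le_exp x
    linarith
  -- the integer `s`
  have hx1 : (10 : ℝ) ≤ Real.exp (L / 4) := by
    have := hadd (L / 4)
    linarith
  set s : ℕ := ⌊Real.exp (L / 4)⌋₊ with hs
  have hs1 : 1 ≤ s := Nat.le_floor (by push_cast; linarith)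
  have hs1r : (1 : ℝ) ≤ s := by exact_mod_cast hs1
  have hsu : (s : ℝ) ≤ Real.exp (L / 4) := Nat.floor_le (Real.exp_pos _).le
  have hsl : Real.exp (L / 4) / 2 ≤ s := by
    have := Nat.lt_floor_add_one (Real.exp (L / 4))
    rw [← hs] at this
    linarith
  have hsqn : √(n : ℝ) = Real.exp (L / 2) := by
    rw [hn, Real.exp_half]
  have hsn : s ≤ n := by
    have : (s : ℝ) ≤ n := by
      rw [hn]
      exact hsu.trans (Real.exp_le_exp.2 (by linarith))
    exact_mod_cast this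
  have h10 : 10 * (s : ℝ) ≤ √n := by
    rw [hsqn]
    have h1 : Real.exp (L / 2) = Real.exp (L / 4) * Real.exp (L / 4) := by
      rw [← Real.exp_add]; congr 1; ring
    rw [h1]
    exact mul_le_mul hx1 hsu (by linarith) (Real.exp_pos _).le
  -- the integer `d`
  set d : ℕ := ⌊L / 1000⌋₊ with hd
  have hd1 : 1 ≤ d := Nat.le_floor (by push_cast; rw [le_div_iff₀ (by norm_num)]; linarith)
  have hdu : (d : ℝ) ≤ L / 1000 := Nat.floor_le (by linarith)
  have hdl : L / 1000 < (d : ℝ) + 1 := Nat.lt_floor_add_one _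
  refine ⟨s, d, hs1, hsn, hd1, h10, ?_⟩
  -- `64 ^ d`
  have h64 : (64 : ℝ) ^ d ≤ Real.exp (L / 200) := by
    have h1 : (64 : ℝ) ≤ Real.exp 5 := by
      have h2 : (2.7 : ℝ) ≤ Real.exp 1 := by
        have := Real.exp_one_gt_d9
        linarith
      have h3 : Real.exp 5 = Real.exp 1 ^ 5 := by
        rw [← Real.exp_nat_mul]; norm_num
      rw [h3]
      have h4 : (2.7 : ℝ) ^ 5 ≤ Real.exp 1 ^ 5 := pow_le_pow_left₀ (by norm_num) h2 5
      norm_num at h4 ⊢
      linarith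
    calc (64 : ℝ) ^ d ≤ Real.exp 5 ^ d := pow_le_pow_left₀ (by norm_num) h1 d
      _ = Real.exp (d * 5) := (Real.exp_nat_mul 5 d).symm
      _ ≤ Real.exp (L / 200) := Real.exp_le_exp.2 (by linarith)
  -- the ratio
  have hr0 : 0 ≤ 5 * (s : ℝ) / √n := by positivity
  have hr : 5 * (s : ℝ) / √n ≤ Real.exp (-(L / 5)) := by
    rw [hsqn, div_le_iff₀ (Real.exp_pos _), ← Real.exp_add]
    have h1 : (5 : ℝ) ≤ Real.exp (L / 20) := by
      have := hadd (L / 20)
      linarith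
    have h2 : Real.exp (-(L / 5) + L / 2) = Real.exp (L / 20) * Real.exp (L / 4) := by
      rw [← Real.exp_add]; congr 1; ring
    rw [h2]
    exact mul_le_mul h1 hsu (by linarith) (Real.exp_pos _).le
  have hr2 : (5 * (s : ℝ) / √n) ^ (d + 1) ≤ Real.exp (-(L ^ 2 / 5000)) := by
    calc (5 * (s : ℝ) / √n) ^ (d + 1) ≤ Real.exp (-(L / 5)) ^ (d + 1) :=
          pow_le_pow_left₀ hr0 hr (d + 1)
      _ = Real.exp (((d + 1 : ℕ) : ℝ) * (-(L / 5))) := (Real.exp_nat_mul _ _).symm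
      _ ≤ Real.exp (-(L ^ 2 / 5000)) := by
        apply Real.exp_le_exp.2
        push_cast
        nlinarith
  -- `m`
  have hl2 : (1 / 2 : ℝ) ≤ Real.log 2 := by
    have := Real.log_two_gt_d9
    linarith
  have hm2 : (m : ℝ) ≤ Real.exp (L ^ 2 / 5000) := by
    have h1 : (m : ℝ) ≤ 2 ^ cost := by exact_mod_cast hm
    have h2 : (2 : ℝ) ^ cost = Real.exp (cost * Real.log 2) := by
      rw [Real.exp_nat_mul, Real.exp_log (by norm_num)]
    rw [h2] at h1
    refine h1.trans (Real.exp_le_exp.2 ?_)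
    have h3 : Real.logb 2 n = L / Real.log 2 := rfl
    rw [h3] at hcost
    have h4 : (cost : ℝ) * Real.log 2 ≤ (1 / 10000 * (L / Real.log 2) ^ 2) * Real.log 2 :=
      mul_le_mul_of_nonneg_right hcost (by linarith)
    refine h4.trans ?_
    have h5 : 1 / 10000 * (L / Real.log 2) ^ 2 * Real.log 2 = L ^ 2 / 10000 / Real.log 2 := by
      field_simp
    rw [h5, div_le_iff₀ (by linarith)]
    nlinarith [sq_nonneg L]
  have hmr : (m : ℝ) * (5 * s / √n) ^ (d + 1) ≤ 1 := by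
    calc (m : ℝ) * (5 * s / √n) ^ (d + 1) ≤ Real.exp (L ^ 2 / 5000) * Real.exp (-(L ^ 2 / 5000)) :=
          mul_le_mul hm2 hr2 (pow_nonneg hr0 _) (Real.exp_pos _).le
      _ = 1 := by rw [← Real.exp_add, add_neg_cancel, Real.exp_zero]
  -- the powers of `n`
  have hK : (n : ℝ) ^ (1 / 10000 : ℝ) ≤ Real.exp (L / 100) := by
    rw [Real.rpow_def_of_pos hn0]
    exact Real.exp_le_exp.2 (by linarith)
  have hK0 : 0 ≤ (n : ℝ) ^ (1 / 10000 : ℝ) := Real.rpow_nonneg hn0.le _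
  have hdK : (d : ℝ) * (n : ℝ) ^ (1 / 10000 : ℝ) ≤ Real.exp (L / 50) := by
    have h1 : (d : ℝ) ≤ Real.exp (L / 100) := by
      have := hadd (L / 100)
      linarith
    have h2 : Real.exp (L / 50) = Real.exp (L / 100) * Real.exp (L / 100) := by
      rw [← Real.exp_add]; congr 1; ring
    rw [h2]
    exact mul_le_mul h1 hK hK0 (Real.exp_pos _).le
  have hsum : 2 * (d : ℝ) * (n : ℝ) ^ (1 / 10000 : ℝ) + 1 + 2 * m * (5 * s / √n) ^ (d + 1) ≤
      5 * Real.exp (L / 50) := by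
    have h1 : 1 ≤ Real.exp (L / 50) := by
      have := hadd (L / 50)
      linarith
    have h2 : 2 * (m : ℝ) * (5 * s / √n) ^ (d + 1) = 2 * (m * (5 * s / √n) ^ (d + 1)) := by ring
    rw [h2]
    linarith
  have hsum0 : 0 ≤ 2 * (d : ℝ) * (n : ℝ) ^ (1 / 10000 : ℝ) + 1 +
      2 * m * (5 * s / √n) ^ (d + 1) := by positivity
  have hss : Real.exp (L / 8) / 2 ≤ √(s : ℝ) := by
    rw [Real.le_sqrt' (by positivity)]
    have h1 : (Real.exp (L / 8) / 2) ^ 2 = Real.exp (L / 4) / 4 := by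
      have h2 : Real.exp (L / 4) = Real.exp (L / 8) * Real.exp (L / 8) := by
        rw [← Real.exp_add]; congr 1; ring
      rw [h2]
      ring
    rw [h1]
    have := Real.exp_pos (L / 4)
    linarith
  have hfac : 2 * (64 : ℝ) ^ d / √s ≤ 4 * Real.exp (L / 200 - L / 8) := by
    have h1 : 0 < Real.exp (L / 8) / 2 := by positivity
    have h2 : 0 < √(s : ℝ) := lt_of_lt_of_le h1 hss
    rw [div_le_iff₀ h2]
    calc 2 * (64 : ℝ) ^ d ≤ 2 * Real.exp (L / 200) := by linarith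
      _ = 4 * Real.exp (L / 200 - L / 8) * (Real.exp (L / 8) / 2) := by
        have h3 : Real.exp (L / 200) = Real.exp (L / 200 - L / 8) * Real.exp (L / 8) := by
          rw [← Real.exp_add]; congr 1; ring
        rw [h3]; ring
      _ ≤ 4 * Real.exp (L / 200 - L / 8) * √s :=
        mul_le_mul_of_nonneg_left hss (by positivity)
  calc 2 * 64 ^ d / √s * (2 * d * (n : ℝ) ^ (1 / 10000 : ℝ) + 1 + 2 * m * (5 * s / √n) ^ (d + 1))
      ≤ 4 * Real.exp (L / 200 - L / 8) * (5 * Real.exp (L / 50)) :=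
        mul_le_mul hfac hsum hsum0 (by positivity)
    _ = 20 * Real.exp (-(L / 10)) := by
        have h1 : Real.exp (-(L / 10)) = Real.exp (L / 200 - L / 8) * Real.exp (L / 50) := by
          rw [← Real.exp_add]; congr 1; ring
        rw [h1]; ring
    _ ≤ Real.exp (L * (3 / 80)) * Real.exp (-(L / 10)) := by
        apply mul_le_mul_of_nonneg_right _ (Real.exp_pos _).le
        have := hadd (L * (3 / 80))
        linarith
    _ = (n : ℝ) ^ (-1 / 16 : ℝ) := by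
        rw [Real.rpow_def_of_pos hn0, ← Real.exp_add]
        congr 1
        rw [← hLdef]
        ring

theorem fin_tests : ∃ c : ℝ, 0 < c ∧ ∃ n0 : ℕ, ∀ n ≥ n0, ∀ P : Protocol n, P.Computes →
    P.Unambiguous →
    (∀ x y : Fin n → Bool, P.avg (fun r q => (P.load x y r q : ℝ)) ≤ (n : ℝ) ^ c) →
    (P.cost : ℝ) ≤ c * Real.logb 2 n ^ 2 →
    ∀ (α : (Fin n → Bool) → P.R → ℝ) (β : (Fin n → Bool) → P.Q → ℝ),
      (∀ x r, |α x r| ≤ 1) → (∀ y q, |β y q| ≤ 1) →
      P.avg (fun r q => (∑ i, |oneAvg i (fun x y => α x r * β y q * P.load x y r q) -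
        noneAvg (fun x y => α x r * β y q)|) / n) ≤ (n : ℝ) ^ (-1 / 16 : ℝ) := by
  refine ⟨1 / 10000, by norm_num, ⌈Real.exp 1000⌉₊, ?_⟩
  intro n hn P hc hu hK hcost α β hα hβ
  have hL : 1000 ≤ Real.log n := by
    have h1 : Real.exp 1000 ≤ n := (Nat.le_ceil _).trans (by exact_mod_cast hn)
    rw [Real.le_log_iff_exp_le (lt_of_lt_of_le (Real.exp_pos _) h1)]
    exact h1
  obtain ⟨s, d, hs, hsn, hd, h10, hnum⟩ := ZFa_num n hL P.m P.cost
    (Nat.le_pow_clog (by norm_num) _) hcost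
  exact (proto hc hu hK hs hsn hd h10 α β hα hβ).trans hnum

end MP052029.Zr
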