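import Pool.Agent.Lib.MP_052029_lc.Z.ZProto

/-!
# Module ZFb: numbers

PROOF. `proto_one` with `d = 1`, `s = ⌊n^(1/4)⌋` (`10 s <= √n` and `√s >= n^(1/8)/2` for large `n`): the right side is `<= 128/√s * 5 <= 1280 n^(-1/8) <= n^(-1/16)`
for large `n`.
-/

set_option autoImplicit false

namespace MP052029.Zr

open Finset

theorem fin_one : ∃ n0 : ℕ, ∀ n ≥ n0, ∀ (α β : (Fin n → Bool) → ℝ), (∀ x, |α x| ≤ 1) →
    (∀ y, |β y| ≤ 1) →
    (∑ i, |oneAvg i (fun x y => α x * β y) - noneAvg (fun x y => α x * β y)|) / n ≤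
      (n : ℝ) ^ (-1 / 16 : ℝ) := by
  refine ⟨1280 ^ 16, fun n hn α β hα hβ => ?_⟩
  have hn0 : (0 : ℝ) ≤ n := Nat.cast_nonneg n
  set y : ℝ := (n : ℝ) ^ (1 / 16 : ℝ) with hy
  have hy16 : y ^ 16 = n := by
    rw [hy, ← Real.rpow_natCast, ← Real.rpow_mul hn0]
    norm_num
  have hy0 : 0 ≤ y := Real.rpow_nonneg hn0 _
  have hy1 : (1280 : ℝ) ≤ y := by
    by_contra hc
    push Not at hc
    have h1 : y ^ 16 < 1280 ^ 16 := pow_lt_pow_left₀ hc hy0 (by norm_num)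
    rw [hy16] at h1
    have h2 : (1280 : ℝ) ^ 16 ≤ n := by exact_mod_cast hn
    linarith
  have hypos : 0 < y := by linarith
  have hsqrt : √(n : ℝ) = y ^ 8 := by
    rw [← hy16]
    have : y ^ 16 = (y ^ 8) ^ 2 := by ring
    rw [this, Real.sqrt_sq (by positivity)]
  set s : ℕ := ⌊y ^ 4⌋₊ with hs
  have hy4 : (1 : ℝ) ≤ y ^ 4 := one_le_pow₀ (by linarith)
  have hs1 : 1 ≤ s := Nat.le_floor (by exact_mod_cast hy4)
  have hsle : (s : ℝ) ≤ y ^ 4 := Nat.floor_le (by positivity)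
  have hsge : y ^ 4 ≤ 2 * s := by
    have h1 := Nat.lt_floor_add_one (y ^ 4)
    have h2 : (1 : ℝ) ≤ s := by exact_mod_cast hs1
    rw [← hs] at h1
    linarith
  have hy4' : y ^ 4 ≤ y ^ 16 := pow_le_pow_right₀ (by linarith) (by norm_num)
  have hsn : s ≤ n := by
    have : (s : ℝ) ≤ n := by
      rw [← hy16]
      linarith
    exact_mod_cast this
  have hbig : (10 : ℝ) ≤ y ^ 4 := by
    have : y ≤ y ^ 4 := le_self_pow₀ (by linarith) (by norm_num)
    linarith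
  have h10 : 10 * (s : ℝ) ≤ √(n : ℝ) := by
    rw [hsqrt]
    have : y ^ 8 = y ^ 4 * y ^ 4 := by ring
    rw [this]
    have h3 : 10 * (s : ℝ) ≤ 10 * y ^ 4 := by linarith
    refine h3.trans ?_
    exact mul_le_mul_of_nonneg_right hbig (by positivity)
  refine (proto_one (d := 1) hs1 hsn le_rfl h10 α β hα hβ).trans ?_
  have hsqs : y ^ 2 / 2 ≤ √(s : ℝ) := by
    apply Real.le_sqrt_of_sq_le
    have : (y ^ 2 / 2) ^ 2 = y ^ 4 / 4 := by ring
    rw [this]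
    linarith
  have hspos : 0 < √(s : ℝ) := lt_of_lt_of_le (by positivity) hsqs
  have hfrac : 5 * (s : ℝ) / √(n : ℝ) ≤ 1 := by
    have h4 : 0 < √(n : ℝ) := by rw [hsqrt]; positivity
    rw [div_le_one h4]
    linarith [(Nat.cast_nonneg s : (0 : ℝ) ≤ s)]
  have hfrac0 : 0 ≤ 5 * (s : ℝ) / √(n : ℝ) := by positivity
  have hpow : (5 * (s : ℝ) / √(n : ℝ)) ^ (1 + 1) ≤ 1 := pow_le_one₀ hfrac0 hfrac
  have hrhs : (n : ℝ) ^ (-1 / 16 : ℝ) = 1 / y := by
    rw [show (-1 / 16 : ℝ) = -(1 / 16) by norm_num, Real.rpow_neg hn0, ← hy, one_div]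
  rw [hrhs]
  calc 2 * 64 ^ 1 / √(s : ℝ) * (2 * ((1 : ℕ) : ℝ) + 1 + 2 * (5 * (s : ℝ) / √(n : ℝ)) ^ (1 + 1))
      ≤ 2 * 64 ^ 1 / √(s : ℝ) * 5 := by
        apply mul_le_mul_of_nonneg_left _ (by positivity)
        push_cast
        linarith
    _ = 640 / √(s : ℝ) := by ring
    _ ≤ 640 / (y ^ 2 / 2) := by
        apply div_le_div_of_nonneg_left (by norm_num) (by positivity) hsqs
    _ = (1280 / y) * (1 / y) := by
        field_simp
        norm_num
    _ ≤ 1 * (1 / y) := by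
        apply mul_le_mul_of_nonneg_right _ (by positivity)
        rw [div_le_one hypos]
        exact hy1
    _ = 1 / y := one_mul _

end MP052029.Zr
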