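import Pool.Agent.Lib.MP_052029_lc.Z.ZMsg
import Pool.Agent.Lib.MP_052029_lc.Z.ZFa
import Pool.Agent.Lib.MP_052029_lc.Z.ZFb

/-!
# Module ZFin: the final theorem
-/

set_option autoImplicit false

namespace MP052029.Zr

open Finset

/-- The final theorem: rectangle tests, and the lower bound for decided protocols. -/
theorem final : ∃ c : ℝ, 0 < c ∧ ∃ n0 : ℕ, ∀ n ≥ n0, ∀ P : Protocol n, P.Computes →
    P.Unambiguous →
    (∀ x y : Fin n → Bool, P.avg (fun r q => (P.load x y r q : ℝ)) ≤ (n : ℝ) ^ c) →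
    ((P.cost : ℝ) ≤ c * Real.logb 2 n ^ 2 →
      ∀ (α : (Fin n → Bool) → P.R → ℝ) (β : (Fin n → Bool) → P.Q → ℝ),
        (∀ x r, |α x r| ≤ 1) → (∀ y q, |β y q| ≤ 1) →
        P.avg (fun r q => (∑ i, |oneAvg i (fun x y => α x r * β y q * P.load x y r q) -
          noneAvg (fun x y => α x r * β y q)|) / n) ≤ (n : ℝ) ^ (-1 / 16 : ℝ)) ∧
    ∀ (k : ℕ) (u : (Fin n → Bool) → P.R → Fin k) (v : (Fin n → Bool) → P.Q → Fin k),
      (k : ℝ) ≤ (n : ℝ) ^ c → Decided P k u v → c * Real.logb 2 n ^ 2 < (P.cost : ℝ) := by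
  -- `c` = the constant of `fin_tests` or 1/40, whichever is smaller (both hypotheses are monotone in `c`
  -- for n >= 1); second part: `msg` with E1 = E2 = n^(-1/16), k^2 <= n^(1/20)
  obtain ⟨c1, hc1, n1, H1⟩ := fin_tests
  obtain ⟨n2, H2⟩ := fin_one
  refine ⟨min c1 (1 / 40), lt_min hc1 (by norm_num), max (max n1 n2) (4 ^ 81), ?_⟩
  intro n hn P hc hu hK
  have hn1 : n1 ≤ n := le_trans (le_trans (le_max_left _ _) (le_max_left _ _)) hn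
  have hn2 : n2 ≤ n := le_trans (le_trans (le_max_right _ _) (le_max_left _ _)) hn
  have hn3 : 4 ^ 81 ≤ n := le_trans (le_max_right _ _) hn
  have hn3R : (4 : ℝ) ^ 81 ≤ (n : ℝ) := by exact_mod_cast hn3
  have hnpos : 1 ≤ n := le_trans (by norm_num) hn3
  have hnR : (1 : ℝ) ≤ (n : ℝ) := by exact_mod_cast hnpos
  have hn0 : (0 : ℝ) < (n : ℝ) := by linarith
  have hK1 : ∀ x y : Fin n → Bool, P.avg (fun r q => (P.load x y r q : ℝ)) ≤ (n : ℝ) ^ c1 :=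
    fun x y => (hK x y).trans (Real.rpow_le_rpow_of_exponent_le hnR (min_le_left _ _))
  have hL : 0 ≤ Real.logb 2 n ^ 2 := sq_nonneg _
  have hT : (P.cost : ℝ) ≤ min c1 (1 / 40) * Real.logb 2 n ^ 2 →
      ∀ (α : (Fin n → Bool) → P.R → ℝ) (β : (Fin n → Bool) → P.Q → ℝ),
        (∀ x r, |α x r| ≤ 1) → (∀ y q, |β y q| ≤ 1) →
        P.avg (fun r q => (∑ i, |oneAvg i (fun x y => α x r * β y q * P.load x y r q) -
          noneAvg (fun x y => α x r * β y q)|) / n) ≤ (n : ℝ) ^ (-1 / 16 : ℝ) := by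
    intro hcost α β hα hβ
    exact H1 n hn1 P hc hu hK1
      (hcost.trans (mul_le_mul_of_nonneg_right (min_le_left _ _) hL)) α β hα hβ
  refine ⟨hT, ?_⟩
  intro k u v hk hD
  by_contra hcost
  push Not at hcost
  have hm := msg (E1 := (n : ℝ) ^ (-1 / 16 : ℝ)) (E2 := (n : ℝ) ^ (-1 / 16 : ℝ)) hnpos hc hD
    (hT hcost) (H2 n hn2)
  have hk0 : (0 : ℝ) ≤ (k : ℝ) := Nat.cast_nonneg k
  have hk2 : (k : ℝ) ^ 2 ≤ (n : ℝ) ^ (1 / 20 : ℝ) := by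
    have h1 : (k : ℝ) ≤ (n : ℝ) ^ (1 / 40 : ℝ) :=
      hk.trans (Real.rpow_le_rpow_of_exponent_le hnR (min_le_right _ _))
    calc (k : ℝ) ^ 2 ≤ ((n : ℝ) ^ (1 / 40 : ℝ)) ^ 2 := pow_le_pow_left₀ hk0 h1 2
      _ = (n : ℝ) ^ (1 / 20 : ℝ) := by
          rw [← Real.rpow_natCast, ← Real.rpow_mul hn0.le]
          norm_num
  have hx0 : (0 : ℝ) ≤ (n : ℝ) ^ (-1 / 16 : ℝ) := Real.rpow_nonneg hn0.le _
  have h3 : (k : ℝ) ^ 2 * ((n : ℝ) ^ (-1 / 16 : ℝ) + (n : ℝ) ^ (-1 / 16 : ℝ)) ≤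
      (n : ℝ) ^ (1 / 20 : ℝ) * ((n : ℝ) ^ (-1 / 16 : ℝ) + (n : ℝ) ^ (-1 / 16 : ℝ)) :=
    mul_le_mul_of_nonneg_right hk2 (by linarith)
  have h4 : (n : ℝ) ^ (1 / 20 : ℝ) * ((n : ℝ) ^ (-1 / 16 : ℝ) + (n : ℝ) ^ (-1 / 16 : ℝ)) =
      2 * (n : ℝ) ^ (-1 / 80 : ℝ) := by
    rw [← two_mul, mul_left_comm, ← Real.rpow_add hn0]
    norm_num
  have h5 : (n : ℝ) ^ (-1 / 80 : ℝ) < 1 / 4 := by
    have h6 : ((4 : ℝ) ^ (81 : ℕ)) ^ (1 / 80 : ℝ) ≤ (n : ℝ) ^ (1 / 80 : ℝ) :=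
      Real.rpow_le_rpow (by positivity) hn3R (by norm_num)
    have h7 : (4 : ℝ) < ((4 : ℝ) ^ (81 : ℕ)) ^ (1 / 80 : ℝ) := by
      rw [← Real.rpow_natCast, ← Real.rpow_mul (by norm_num)]
      calc (4 : ℝ) = (4 : ℝ) ^ (1 : ℝ) := (Real.rpow_one _).symm
        _ < (4 : ℝ) ^ (((81 : ℕ) : ℝ) * (1 / 80 : ℝ)) :=
            Real.rpow_lt_rpow_of_exponent_lt (by norm_num) (by norm_num)
    have h8 : (4 : ℝ) < (n : ℝ) ^ (1 / 80 : ℝ) := lt_of_lt_of_le h7 h6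
    have h9 : (n : ℝ) ^ (-1 / 80 : ℝ) = ((n : ℝ) ^ (1 / 80 : ℝ))⁻¹ := by
      rw [← Real.rpow_neg hn0.le]
      norm_num
    rw [h9, inv_lt_comm₀ (by linarith) (by norm_num)]
    linarith
  linarith

end MP052029.Zr
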