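import Pool.Agent.Lib.MP_052029_lc.Z.ZE5

/-!
# Module ZE6: the load is pseudorandom against communication protocols

PROOF. Fix coins `r, q`, `z_t = oneAvg i (load 1_t) - noneAvg 1_t = ∑ j (oneAvg i (a_jt b_jt) - noneAvg (a_jt b_jt))` (`fib`, `load_sum`, `load_one` on disjoint pairs).
`|z_t| = z_t + 2 max 0 (-z_t)`, `max 0 (-z_t) <= ∑ j max 0 (noneAvg (a_jt b_jt) - oneAvg i (a_jt b_jt))`; `∑ t z_t = oneAvg i load - 1`;
sum over `i` (`famp`), divide by `n`, average over the coins: `avg (oneAvg i load) <= K` (exchange the averages, `oneAvg_mono`, `oneAvg_const`).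
-/

set_option autoImplicit false

namespace MP052029.Zr

open Finset

variable {n : ℕ} {P : Protocol n}

private theorem ZE6_noneAvg_sum {κ : Type*} (T : Finset κ)
    (f : κ → (Fin n → Bool) → (Fin n → Bool) → ℝ) :
    noneAvg (fun x y => ∑ k ∈ T, f k x y) = ∑ k ∈ T, noneAvg (f k) := by
  rw [← pr_noneAvg, pr_sum]
  refine sum_congr rfl fun k _ => ?_
  rw [← pr_noneAvg]

private theorem ZE6_noneAvg_const (c : ℝ) : noneAvg (n := n) (fun _ _ => c) = c := by
  rw [← pr_noneAvg]
  exact pr_const (subset_univ _) c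

private theorem ZE6_noneAvg_congr {f g : (Fin n → Bool) → (Fin n → Bool) → ℝ}
    (h : ∀ x y, Disj x y → f x y = g x y) : noneAvg f = noneAvg g := by
  unfold noneAvg
  congr 1
  refine sum_congr rfl fun x _ => sum_congr rfl fun y _ => ?_
  by_cases hd : Disj x y
  · rw [if_pos hd, if_pos hd, h x y hd]
  · rw [if_neg hd, if_neg hd]

private theorem ZE6_fib {k : ℕ} {leaf : (Fin n → Bool) → (Fin n → Bool) → Fin k}
    (hl : IsRect leaf) (t : Fin k) (r : P.R) (q : P.Q) (x y : Fin n → Bool) :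
    (if leaf x y = t then (P.load x y r q : ℝ) else 0) =
      ∑ j, (fA leaf t x * uA P r j x) * (fB leaf t y * uB P q j y) := by
  have h1 : (if leaf x y = t then (P.load x y r q : ℝ) else 0) =
      (if leaf x y = t then (1 : ℝ) else 0) * P.load x y r q := by
    split_ifs <;> simp
  rw [h1, fib hl, load_sum, Finset.mul_sum]
  refine sum_congr rfl fun j _ => ?_
  ring

private theorem ZE6_fix (hn : 1 ≤ n) (hc : P.Computes) (hu : P.Unambiguous) {k : ℕ}
    {leaf : (Fin n → Bool) → (Fin n → Bool) → Fin k} (hl : IsRect leaf) {lam : ℝ}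
    (hlam : 0 < lam) (r : P.R) (q : P.Q) :
    (∑ i, ∑ t, |oneAvg i (fun x y => if leaf x y = t then (P.load x y r q : ℝ) else 0) -
        noneAvg (fun x y => if leaf x y = t then 1 else 0)|) / n ≤
      (∑ i, oneAvg i (fun x y => (P.load x y r q : ℝ))) / n +
        (2 * (9 * lam * Real.log (P.m * k) / n + 3 / lam) - 1) := by
  have hn0 : (0 : ℝ) < n := by exact_mod_cast hn
  obtain ⟨L, hL⟩ : ∃ L : Fin n → Fin k → ℝ, ∀ i t, L i t =
      oneAvg i (fun x y => if leaf x y = t then (P.load x y r q : ℝ) else 0) :=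
    ⟨_, fun _ _ => rfl⟩
  obtain ⟨M, hM⟩ : ∃ M : Fin k → ℝ, ∀ t, M t =
      noneAvg (fun x y => if leaf x y = t then 1 else 0) := ⟨_, fun _ => rfl⟩
  obtain ⟨D, hD⟩ : ∃ D : Fin n → Fin k → Fin P.m → ℝ, ∀ i t j, D i t j =
      max 0 (noneAvg (fun x y => (fA leaf t x * uA P r j x) * (fB leaf t y * uB P q j y)) -
        oneAvg i (fun x y => (fA leaf t x * uA P r j x) * (fB leaf t y * uB P q j y))) :=
    ⟨_, fun _ _ _ => rfl⟩
  have hL1 : ∀ i, ∑ t, L i t = oneAvg i (fun x y => (P.load x y r q : ℝ)) := by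
    intro i
    simp only [hL]
    rw [← oneAvg_sum]
    congr 1
    funext x y
    simp
  have hM1 : ∑ t, M t = 1 := by
    simp only [hM]
    rw [← ZE6_noneAvg_sum]
    have h1 : (fun x y : Fin n → Bool => ∑ t : Fin k, if leaf x y = t then (1 : ℝ) else 0) =
        fun _ _ => 1 := by
      funext x y
      simp
    rw [h1, ZE6_noneAvg_const]
  have hL2 : ∀ i t, L i t = ∑ j, oneAvg i (fun x y => (fA leaf t x * uA P r j x) *
      (fB leaf t y * uB P q j y)) := by
    intro i t
    rw [hL, ← oneAvg_sum]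
    congr 1
    funext x y
    exact ZE6_fib hl t r q x y
  have hM2 : ∀ t, M t = ∑ j, noneAvg (fun x y => (fA leaf t x * uA P r j x) *
      (fB leaf t y * uB P q j y)) := by
    intro t
    rw [hM, ← ZE6_noneAvg_sum]
    refine ZE6_noneAvg_congr fun x y hxy => ?_
    rw [← ZE6_fib hl t r q x y, load_one hc hu hxy r q, Nat.cast_one]
  have hneg : ∀ i t, |L i t - M t| ≤ (L i t - M t) + 2 * ∑ j, D i t j := by
    intro i t
    have h1 : M t - L i t ≤ ∑ j, D i t j := by
      rw [hL2, hM2, ← sum_sub_distrib]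
      refine sum_le_sum fun j _ => ?_
      rw [hD]
      exact le_max_right _ _
    have h0 : 0 ≤ ∑ j, D i t j := by
      refine sum_nonneg fun j _ => ?_
      rw [hD]
      exact le_max_left _ _
    rcases abs_cases (L i t - M t) with h | h
    · rw [h.1]
      linarith
    · rw [h.1]
      linarith
  have hfam : ∑ i, ∑ t, ∑ j, D i t j ≤ 9 * lam * Real.log (P.m * k) + 3 * n / lam := by
    simp only [hD]
    exact famp hc hu hl r q hlam
  have htot : ∑ i, ∑ t, |L i t - M t| ≤
      ∑ i, oneAvg i (fun x y => (P.load x y r q : ℝ)) - n +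
        2 * (9 * lam * Real.log (P.m * k) + 3 * n / lam) := by
    calc ∑ i, ∑ t, |L i t - M t|
        ≤ ∑ i, ∑ t, ((L i t - M t) + 2 * ∑ j, D i t j) :=
          sum_le_sum fun i _ => sum_le_sum fun t _ => hneg i t
      _ = ∑ i, (oneAvg i (fun x y => (P.load x y r q : ℝ)) - 1) +
          2 * ∑ i, ∑ t, ∑ j, D i t j := by
          rw [mul_sum, ← sum_add_distrib]
          refine sum_congr rfl fun i _ => ?_
          rw [sum_add_distrib, sum_sub_distrib, hL1, hM1, mul_sum]
      _ = ∑ i, oneAvg i (fun x y => (P.load x y r q : ℝ)) - n +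
          2 * ∑ i, ∑ t, ∑ j, D i t j := by
          rw [sum_sub_distrib, sum_const, card_univ, Fintype.card_fin, nsmul_eq_mul, mul_one]
      _ ≤ _ := by linarith
  simp only [hL, hM] at htot
  rw [div_le_iff₀ hn0]
  refine htot.trans (le_of_eq ?_)
  field_simp
  ring

theorem psr (hn : 1 ≤ n) (hc : P.Computes) (hu : P.Unambiguous) {K : ℝ}
    (hK : ∀ (i : Fin n) (x y : Fin n → Bool), (∀ j, (x j = true ∧ y j = true) ↔ j = i) →
      P.avg (fun r q => (P.load x y r q : ℝ)) ≤ K)
    {k : ℕ} (leaf : P.R → P.Q → (Fin n → Bool) → (Fin n → Bool) → Fin k)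
    (hl : ∀ r q, IsRect (leaf r q)) {lam : ℝ} (hlam : 0 < lam) :
    P.avg (fun r q => (∑ i, ∑ t, |oneAvg i (fun x y => if leaf r q x y = t then
        (P.load x y r q : ℝ) else 0) -
        noneAvg (fun x y => if leaf r q x y = t then 1 else 0)|) / n) ≤
      (K - 1) + 2 * (9 * lam * Real.log (P.m * k) / n + 3 / lam) := by
  have hn0 : (0 : ℝ) < n := by exact_mod_cast hn
  have hcard : (0 : ℝ) < Fintype.card (P.R × P.Q) := by
    have := P.card_pos
    rw [Fintype.card_prod]
    push_cast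
    exact this
  obtain ⟨C, hC⟩ : ∃ C : ℝ, C = 2 * (9 * lam * Real.log (P.m * k) / n + 3 / lam) - 1 := ⟨_, rfl⟩
  have h1 : P.avg (fun r q => (∑ i, ∑ t, |oneAvg i (fun x y => if leaf r q x y = t then
        (P.load x y r q : ℝ) else 0) -
        noneAvg (fun x y => if leaf r q x y = t then 1 else 0)|) / n) *
        Fintype.card (P.R × P.Q) ≤ (K + C) * Fintype.card (P.R × P.Q) := by
    rw [← P.sum_eq_avg]
    have h2 : ∀ ω : P.R × P.Q, (∑ i, ∑ t, |oneAvg i (fun x y => if leaf ω.1 ω.2 x y = t then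
        (P.load x y ω.1 ω.2 : ℝ) else 0) -
        noneAvg (fun x y => if leaf ω.1 ω.2 x y = t then 1 else 0)|) / n ≤
        (∑ i, oneAvg i (fun x y => (P.load x y ω.1 ω.2 : ℝ))) / n + C := by
      intro ω
      rw [hC]
      exact ZE6_fix hn hc hu (hl ω.1 ω.2) hlam ω.1 ω.2
    refine (sum_le_sum fun ω _ => h2 ω).trans ?_
    rw [sum_add_distrib, ← sum_div, sum_comm, sum_const, card_univ, nsmul_eq_mul]
    have h3 : ∀ i : Fin n, ∑ ω : P.R × P.Q, oneAvg i (fun x y => (P.load x y ω.1 ω.2 : ℝ)) ≤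
        K * Fintype.card (P.R × P.Q) := by
      intro i
      rw [← oneAvg_sum]
      have h4 := oneAvg_mono (i := i)
        (f := fun x y => ∑ ω : P.R × P.Q, (P.load x y ω.1 ω.2 : ℝ))
        (g := fun _ _ => K * Fintype.card (P.R × P.Q)) fun x y hxy => by
          rw [P.sum_eq_avg (fun r q => (P.load x y r q : ℝ))]
          exact mul_le_mul_of_nonneg_right (hK i x y hxy) (Nat.cast_nonneg _)
      rw [oneAvg_const] at h4
      exact h4
    have h5 : ∑ i : Fin n, ∑ ω : P.R × P.Q, oneAvg i (fun x y => (P.load x y ω.1 ω.2 : ℝ)) ≤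
        n * (K * Fintype.card (P.R × P.Q)) := by
      refine (sum_le_sum fun i _ => h3 i).trans (le_of_eq ?_)
      rw [sum_const, card_univ, Fintype.card_fin, nsmul_eq_mul]
    have h6 : (∑ i : Fin n, ∑ ω : P.R × P.Q, oneAvg i (fun x y => (P.load x y ω.1 ω.2 : ℝ))) / n ≤
        K * Fintype.card (P.R × P.Q) := by
      rw [div_le_iff₀ hn0]
      linarith
    linarith
  have h7 := le_of_mul_le_mul_right h1 hcard
  rw [hC] at h7
  linarith

end MP052029.Zr
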