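import Pool.Agent.Lib.MP_052029_lc.Z.ZDefs

/-!
# Module ZBasic

PROOF. `ex_insert`, `pr_insert_not`, `pr_insert_mem`, `mob_insert`: `sum_powerset_insert`. For `e ∉ S`, `x, y, Z ⊆ S`:
`insert e x ∩ y = x ∩ y`, `x ∩ insert e y = x ∩ y`, `insert e x ∩ insert e y = insert e (x ∩ y)` which is never `Z`, and
`x ∩ y`, `insert e x ∩ y`, `x ∩ insert e y` are never `insert e Z`.
`ex_ind`: `ex_insert` and induction. `sum_mob`: induction on `Z` with `mob_insert`.
`pr_one`: induction on `S` with the `pr_insert` lemmas (`Z` general).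
-/

set_option autoImplicit false

namespace MP052029.Zr

open Finset

variable {ι : Type*} [DecidableEq ι]

theorem ex_empty (q : ℝ) (f : Finset ι → ℝ) : ex q ∅ f = f ∅ := by
  simp [ex]

theorem ex_insert {e : ι} {S : Finset ι} (he : e ∉ S) (q : ℝ) (f : Finset ι → ℝ) :
    ex q (insert e S) f = (1 - q) * ex q S f + q * ex q S (fun Z => f (insert e Z)) := by
  unfold ex
  rw [sum_powerset_insert he, mul_sum, mul_sum]
  congr 1
  · apply sum_congr rfl
    intro Z hZ
    have hZS := mem_powerset.mp hZ
    have h1 : (insert e S).card - Z.card = (S.card - Z.card) + 1 := by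
      rw [card_insert_of_notMem he]
      have := card_le_card hZS
      omega
    rw [h1, pow_succ]
    ring
  · apply sum_congr rfl
    intro Z hZ
    have hZS := mem_powerset.mp hZ
    have heZ : e ∉ Z := fun h => he (hZS h)
    have h1 : (insert e S).card - (insert e Z).card = S.card - Z.card := by
      rw [card_insert_of_notMem he, card_insert_of_notMem heZ]
      omega
    rw [h1, card_insert_of_notMem heZ, pow_succ]
    ring

theorem ex_mono {q : ℝ} (h0 : 0 ≤ q) (h1 : q ≤ 1) {S : Finset ι} {f g : Finset ι → ℝ}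
    (h : ∀ Z ⊆ S, f Z ≤ g Z) : ex q S f ≤ ex q S g := by
  unfold ex
  apply sum_le_sum
  intro Z hZ
  apply mul_le_mul_of_nonneg_left (h Z (mem_powerset.mp hZ))
  exact mul_nonneg (pow_nonneg h0 _) (pow_nonneg (by linarith) _)

theorem ex_nonneg {q : ℝ} (h0 : 0 ≤ q) (h1 : q ≤ 1) {S : Finset ι} {f : Finset ι → ℝ}
    (h : ∀ Z ⊆ S, 0 ≤ f Z) : 0 ≤ ex q S f := by
  unfold ex
  apply sum_nonneg
  intro Z hZ
  exact mul_nonneg (mul_nonneg (pow_nonneg h0 _) (pow_nonneg (by linarith) _))
    (h Z (mem_powerset.mp hZ))

theorem ex_congr {q : ℝ} {S : Finset ι} {f g : Finset ι → ℝ} (h : ∀ Z ⊆ S, f Z = g Z) :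
    ex q S f = ex q S g := by
  unfold ex
  apply sum_congr rfl
  intro Z hZ
  rw [h Z (mem_powerset.mp hZ)]

theorem ex_add (q : ℝ) (S : Finset ι) (f g : Finset ι → ℝ) :
    ex q S (fun Z => f Z + g Z) = ex q S f + ex q S g := by
  unfold ex
  rw [← sum_add_distrib]
  apply sum_congr rfl
  intro Z _
  ring

theorem ex_mul (q c : ℝ) (S : Finset ι) (f : Finset ι → ℝ) :
    ex q S (fun Z => c * f Z) = c * ex q S f := by
  unfold ex
  rw [mul_sum]
  apply sum_congr rfl
  intro Z _
  ring

theorem ex_sum {κ : Type*} (q : ℝ) (S : Finset ι) (T : Finset κ) (f : κ → Finset ι → ℝ) :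
    ex q S (fun Z => ∑ k ∈ T, f k Z) = ∑ k ∈ T, ex q S (f k) := by
  unfold ex
  rw [sum_comm]
  apply sum_congr rfl
  intro Z _
  rw [mul_sum]

theorem ex_const (q c : ℝ) (S : Finset ι) : ex q S (fun _ => c) = c := by
  induction S using Finset.induction_on with
  | empty => rw [ex_empty]
  | insert e S he ih =>
    rw [ex_insert he, ih]
    ring

/-- `V ⊆ Z` has probability `q ^ |V|` -/
theorem ex_ind (q : ℝ) {S V : Finset ι} (hV : V ⊆ S) :
    ex q S (fun Z => if V ⊆ Z then 1 else 0) = q ^ V.card := by
  induction S using Finset.induction_on generalizing V with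
  | empty =>
    have : V = ∅ := subset_empty.mp hV
    subst this
    simp [ex_empty]
  | insert e S he ih =>
    rw [ex_insert he]
    by_cases heV : e ∈ V
    · have h1 : V.erase e ⊆ S := by
        intro z hz
        rw [mem_erase] at hz
        have := hV hz.2
        rw [mem_insert] at this
        tauto
      have h2 : ex q S (fun Z => if V ⊆ Z then (1 : ℝ) else 0) = 0 := by
        have : ex q S (fun Z => if V ⊆ Z then (1 : ℝ) else 0) = ex q S (fun _ => 0) := by
          apply ex_congr
          intro Z hZ
          rw [if_neg]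
          intro h
          exact he (hZ (h heV))
        rw [this, ex_const]
      have h3 : ex q S (fun Z => if V ⊆ insert e Z then (1 : ℝ) else 0) = q ^ (V.erase e).card := by
        rw [← ih h1]
        apply ex_congr
        intro Z hZ
        congr 1
        rw [subset_insert_iff]
      rw [h2, h3, card_erase_of_mem heV]
      have : 1 ≤ V.card := card_pos.mpr ⟨e, heV⟩
      obtain ⟨k, hk⟩ := Nat.exists_eq_add_of_le this
      rw [hk]
      simp [pow_add]
    · have h1 : V ⊆ S := by
        intro z hz
        have := hV hz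
        rw [mem_insert] at this
        rcases this with rfl | h
        · exact absurd hz heV
        · exact h
      have h3 : ex q S (fun Z => if V ⊆ insert e Z then (1 : ℝ) else 0) = q ^ V.card := by
        rw [← ih h1]
        apply ex_congr
        intro Z hZ
        congr 1
        rw [subset_insert_iff, erase_eq_of_notMem heV]
      rw [ih h1, h3]
      ring

theorem mob_empty (F : Finset ι → ℝ) : mob F ∅ = F ∅ := by
  simp [mob]

theorem mob_insert {e : ι} {W : Finset ι} (he : e ∉ W) (F : Finset ι → ℝ) :
    mob F (insert e W) = mob (fun Z => F (insert e Z)) W - mob F W := by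
  unfold mob
  rw [sum_powerset_insert he, add_comm, sub_eq_add_neg, ← sum_neg_distrib]
  congr 1
  · apply sum_congr rfl
    intro Z hZ
    have hZS := mem_powerset.mp hZ
    have heZ : e ∉ Z := fun h => he (hZS h)
    have h1 : (insert e W).card - (insert e Z).card = W.card - Z.card := by
      rw [card_insert_of_notMem he, card_insert_of_notMem heZ]
      omega
    rw [h1]
  · apply sum_congr rfl
    intro Z hZ
    have hZS := mem_powerset.mp hZ
    have h1 : (insert e W).card - Z.card = (W.card - Z.card) + 1 := by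
      rw [card_insert_of_notMem he]
      have := card_le_card hZS
      omega
    rw [h1, pow_succ]
    ring

theorem mob_congr {W : Finset ι} {F G : Finset ι → ℝ} (h : ∀ Z ⊆ W, F Z = G Z) :
    mob F W = mob G W := by
  unfold mob
  apply sum_congr rfl
  intro Z hZ
  rw [h Z (mem_powerset.mp hZ)]

theorem mob_singleton (F : Finset ι → ℝ) (i : ι) : mob F {i} = F {i} - F ∅ := by
  have : ({i} : Finset ι) = insert i ∅ := by simp
  rw [this, mob_insert (notMem_empty i), mob_empty, mob_empty]

theorem mob_add (F G : Finset ι → ℝ) (W : Finset ι) :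
    mob (fun Z => F Z + G Z) W = mob F W + mob G W := by
  unfold mob
  rw [← sum_add_distrib]
  apply sum_congr rfl
  intro Z _
  ring

theorem mob_mul (c : ℝ) (F : Finset ι → ℝ) (W : Finset ι) :
    mob (fun Z => c * F Z) W = c * mob F W := by
  unfold mob
  rw [mul_sum]
  apply sum_congr rfl
  intro Z _
  ring

theorem mob_sum {κ : Type*} (T : Finset κ) (F : κ → Finset ι → ℝ) (W : Finset ι) :
    mob (fun Z => ∑ k ∈ T, F k Z) W = ∑ k ∈ T, mob (F k) W := by
  unfold mob
  rw [sum_comm]
  apply sum_congr rfl
  intro Z _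
  rw [mul_sum]

theorem sum_mob (F : Finset ι → ℝ) (Z : Finset ι) : ∑ W ∈ Z.powerset, mob F W = F Z := by
  induction Z using Finset.induction_on generalizing F with
  | empty => simp [mob_empty]
  | insert e Z he ih =>
    rw [sum_powerset_insert he]
    have : ∑ W ∈ Z.powerset, mob F (insert e W) =
        ∑ W ∈ Z.powerset, (mob (fun Y => F (insert e Y)) W - mob F W) := by
      apply sum_congr rfl
      intro W hW
      rw [mob_insert]
      intro h
      exact he (mem_powerset.mp hW h)
    rw [this, sum_sub_distrib, ih, ih]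
    ring

private theorem pr_sum_insert {e : ι} {S : Finset ι} (he : e ∉ S)
    (g : Finset ι → Finset ι → ℝ) :
    ∑ x ∈ (insert e S).powerset, ∑ y ∈ (insert e S).powerset, g x y =
      ∑ x ∈ S.powerset, ∑ y ∈ S.powerset, g x y +
      ∑ x ∈ S.powerset, ∑ y ∈ S.powerset, g x (insert e y) +
      (∑ x ∈ S.powerset, ∑ y ∈ S.powerset, g (insert e x) y +
      ∑ x ∈ S.powerset, ∑ y ∈ S.powerset, g (insert e x) (insert e y)) := by
  rw [sum_powerset_insert he]
  simp_rw [sum_powerset_insert he, sum_add_distrib]

theorem pr_insert_not {e : ι} {S Z : Finset ι} (he : e ∉ S) (hZ : Z ⊆ S)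
    (f : Finset ι → Finset ι → ℝ) :
    pr (insert e S) f Z = (pr S f Z + pr S (fun x y => f (insert e x) y) Z +
      pr S (fun x y => f x (insert e y)) Z) / 3 := by
  have heZ : e ∉ Z := fun h => he (hZ h)
  unfold pr
  rw [pr_sum_insert he]
  have h1 : (insert e S).card - Z.card = (S.card - Z.card) + 1 := by
    rw [card_insert_of_notMem he]
    have := card_le_card hZ
    omega
  have h4 : ∑ x ∈ S.powerset, ∑ y ∈ S.powerset,
      (if insert e x ∩ insert e y = Z then f (insert e x) (insert e y) else 0) = 0 := by
    apply sum_eq_zero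
    intro x _
    apply sum_eq_zero
    intro y _
    rw [if_neg]
    intro h
    apply heZ
    rw [← h]
    simp
  have h2 : ∑ x ∈ S.powerset, ∑ y ∈ S.powerset,
      (if x ∩ insert e y = Z then f x (insert e y) else 0) =
      ∑ x ∈ S.powerset, ∑ y ∈ S.powerset, (if x ∩ y = Z then f x (insert e y) else 0) := by
    apply sum_congr rfl
    intro x hx
    apply sum_congr rfl
    intro y _
    rw [inter_insert_of_notMem (fun h => he (mem_powerset.mp hx h))]
  have h3 : ∑ x ∈ S.powerset, ∑ y ∈ S.powerset,
      (if insert e x ∩ y = Z then f (insert e x) y else 0) =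
      ∑ x ∈ S.powerset, ∑ y ∈ S.powerset, (if x ∩ y = Z then f (insert e x) y else 0) := by
    apply sum_congr rfl
    intro x _
    apply sum_congr rfl
    intro y hy
    rw [insert_inter_of_notMem (fun h => he (mem_powerset.mp hy h))]
  rw [h4, h2, h3, h1, pow_succ]
  field_simp
  ring

theorem pr_insert_mem {e : ι} {S Z : Finset ι} (he : e ∉ S) (hZ : Z ⊆ S)
    (f : Finset ι → Finset ι → ℝ) :
    pr (insert e S) f (insert e Z) = pr S (fun x y => f (insert e x) (insert e y)) Z := by
  have heZ : e ∉ Z := fun h => he (hZ h)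
  unfold pr
  rw [pr_sum_insert he]
  have h1 : (insert e S).card - (insert e Z).card = S.card - Z.card := by
    rw [card_insert_of_notMem he, card_insert_of_notMem heZ]
    omega
  have hn : ∀ x y : Finset ι, (x ⊆ S ∨ y ⊆ S) → x ∩ y ≠ insert e Z := by
    intro x y hxy h
    have : e ∈ x ∩ y := by rw [h]; simp
    rw [mem_inter] at this
    rcases hxy with h | h
    · exact he (h this.1)
    · exact he (h this.2)
  have h2 : ∑ x ∈ S.powerset, ∑ y ∈ S.powerset,
      (if x ∩ y = insert e Z then f x y else 0) = 0 := by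
    apply sum_eq_zero
    intro x hx
    apply sum_eq_zero
    intro y _
    rw [if_neg (hn _ _ (Or.inl (mem_powerset.mp hx)))]
  have h3 : ∑ x ∈ S.powerset, ∑ y ∈ S.powerset,
      (if x ∩ insert e y = insert e Z then f x (insert e y) else 0) = 0 := by
    apply sum_eq_zero
    intro x hx
    apply sum_eq_zero
    intro y _
    rw [if_neg (hn _ _ (Or.inl (mem_powerset.mp hx)))]
  have h4 : ∑ x ∈ S.powerset, ∑ y ∈ S.powerset,
      (if insert e x ∩ y = insert e Z then f (insert e x) y else 0) = 0 := by
    apply sum_eq_zero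
    intro x _
    apply sum_eq_zero
    intro y hy
    rw [if_neg (hn _ _ (Or.inr (mem_powerset.mp hy)))]
  have h5 : ∑ x ∈ S.powerset, ∑ y ∈ S.powerset,
      (if insert e x ∩ insert e y = insert e Z then f (insert e x) (insert e y) else 0) =
      ∑ x ∈ S.powerset, ∑ y ∈ S.powerset,
        (if x ∩ y = Z then f (insert e x) (insert e y) else 0) := by
    apply sum_congr rfl
    intro x hx
    apply sum_congr rfl
    intro y hy
    have hxe : e ∉ x ∩ y := fun h => he (mem_powerset.mp hx (mem_inter.mp h).1)
    have : (insert e x ∩ insert e y = insert e Z) ↔ (x ∩ y = Z) := by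
      rw [← insert_inter_distrib]
      constructor
      · intro h
        have := congrArg (fun t => t.erase e) h
        simpa [erase_insert hxe, erase_insert heZ] using this
      · intro h
        rw [h]
    simp only [this]
  rw [h2, h3, h4, h5, h1]
  ring

theorem pr_mono {S Z : Finset ι} {f g : Finset ι → Finset ι → ℝ}
    (h : ∀ x ⊆ S, ∀ y ⊆ S, x ∩ y = Z → f x y ≤ g x y) : pr S f Z ≤ pr S g Z := by
  unfold pr
  apply div_le_div_of_nonneg_right _ (by positivity)
  apply sum_le_sum
  intro x hx
  apply sum_le_sum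
  intro y hy
  split_ifs with hh
  · exact h x (mem_powerset.mp hx) y (mem_powerset.mp hy) hh
  · exact le_refl _

theorem pr_congr {S Z : Finset ι} {f g : Finset ι → Finset ι → ℝ}
    (h : ∀ x ⊆ S, ∀ y ⊆ S, x ∩ y = Z → f x y = g x y) : pr S f Z = pr S g Z := by
  apply le_antisymm
  · exact pr_mono (fun x hx y hy hh => (h x hx y hy hh).le)
  · exact pr_mono (fun x hx y hy hh => (h x hx y hy hh).ge)

theorem pr_sum {κ : Type*} (S Z : Finset ι) (T : Finset κ)
    (f : κ → Finset ι → Finset ι → ℝ) :
    pr S (fun x y => ∑ k ∈ T, f k x y) Z = ∑ k ∈ T, pr S (f k) Z := by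
  unfold pr
  rw [← sum_div]
  congr 1
  symm
  rw [sum_comm]
  apply sum_congr rfl
  intro x _
  rw [sum_comm]
  apply sum_congr rfl
  intro y _
  split_ifs
  · rfl
  · simp

theorem pr_mul (S Z : Finset ι) (c : ℝ) (f : Finset ι → Finset ι → ℝ) :
    pr S (fun x y => c * f x y) Z = c * pr S f Z := by
  unfold pr
  rw [mul_div_assoc', mul_sum]
  congr 1
  apply sum_congr rfl
  intro x _
  rw [mul_sum]
  apply sum_congr rfl
  intro y _
  split_ifs
  · rfl
  · simp

theorem pr_const {S Z : Finset ι} (hZ : Z ⊆ S) (c : ℝ) : pr S (fun _ _ => c) Z = c := by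
  induction S using Finset.induction_on generalizing Z with
  | empty =>
    have : Z = ∅ := subset_empty.mp hZ
    subst this
    simp [pr]
  | insert e S he ih =>
    by_cases heZ : e ∈ Z
    · have h1 : Z.erase e ⊆ S := by
        intro z hz
        rw [mem_erase] at hz
        have := hZ hz.2
        rw [mem_insert] at this
        tauto
      have h2 : Z = insert e (Z.erase e) := (insert_erase heZ).symm
      rw [h2, pr_insert_mem he h1]
      exact ih h1
    · have h1 : Z ⊆ S := by
        intro z hz
        have := hZ hz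
        rw [mem_insert] at this
        rcases this with rfl | h
        · exact absurd hz heZ
        · exact h
      rw [pr_insert_not he h1, ih h1]
      ring

theorem abs_pr_le {S Z : Finset ι} (f : Finset ι → Finset ι → ℝ) :
    |pr S f Z| ≤ pr S (fun x y => |f x y|) Z := by
  rw [abs_le]
  constructor
  · have h : -pr S (fun x y => |f x y|) Z = pr S (fun x y => (-1) * |f x y|) Z := by
      rw [pr_mul]; ring
    rw [h]
    apply pr_mono
    intro x _ y _ _
    have := neg_abs_le (f x y)
    linarith
  · apply pr_mono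
    intro x _ y _ _
    exact le_abs_self _

end MP052029.Zr
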