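import Pool.Agent.Lib.MP_052029_lc.Z.ZBasic

/-!
# Module ZBon: fourth moments of polynomials, first and second moments

PROOF of `bon`: induction on `S` (for all `d`, `c`). `S = ∅`: `f ∅ ^ 4 <= 16^d (f ∅ ^ 2)^2`. Step `insert e S`: with `f0 Z = f Z`, `f1 Z = f (insert e Z)`
(`Z ⊆ S`), `h = f1 - f0`, `g = f0 + q h` one has `h Z = ∑ W ⊆ Z, c (insert e W)` (degree `<= d - 1`; zero if `d = 0`), `g Z = ∑ W ⊆ Z, (c W + q c (insert e W))`.
With `v = q (1-q)`: `E f^2 = E g^2 + v E h^2`, and pointwise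
 `q (g + (1-q) h)^4 + (1-q) (g - q h)^4 = g^4 + 6 v g^2 h^2 + 4 v (1-2q) g h^3 + v (1-3v) h^4 <= g^4 + 7 v g^2 h^2 + v (2-3v) h^4`
(`2 |g h^3| <= g^2 h^2 + h^4`, `1 - 2q <= 1/2`). `d = 0`: `h = 0`, fine. `d >= 1`: `E g^4 <= 16^d (E g^2)^2`, `E h^4 <= 16^(d-1) (E h^2)^2`,
`E g^2 h^2 <= 4 * 16^(d-1) E g^2 E h^2` (Cauchy-Schwarz), so
`E f^4 <= 16^d ((E g^2)^2 + (7/4) v E g^2 E h^2 + (v (2-3v)/16) (E h^2)^2) <= 16^d (E g^2 + v E h^2)^2` as `3/16 <= v <= 1/4`.
-/

set_option autoImplicit false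

namespace MP052029.Zr

open Finset

variable {ι : Type*} [DecidableEq ι]

private theorem ex_cs {q : ℝ} (h0 : 0 ≤ q) (h1 : q ≤ 1) (S : Finset ι) (F G : Finset ι → ℝ) :
    (ex q S (fun Z => F Z * G Z)) ^ 2 ≤ ex q S (fun Z => F Z ^ 2) * ex q S (fun Z => G Z ^ 2) := by
  unfold ex
  apply Finset.sum_sq_le_sum_mul_sum_of_sq_eq_mul
  · intro Z _
    have : 0 ≤ 1 - q := by linarith
    positivity
  · intro Z _
    have : 0 ≤ 1 - q := by linarith
    positivity
  · intro Z _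
    ring

private theorem four_le {q : ℝ} (h0 : 1 / 4 ≤ q) (h1 : q ≤ 1 / 2) (g h : ℝ) :
    (1 - q) * (g - q * h) ^ 4 + q * (g + (1 - q) * h) ^ 4 ≤
      g ^ 4 + 7 * (q * (1 - q)) * (g ^ 2 * h ^ 2) + (q * (1 - q)) * (2 - 3 * (q * (1 - q))) * h ^ 4 := by
  have hv : 0 ≤ q * (1 - q) := mul_nonneg (by linarith) (by linarith)
  have e1 : (1 - q) * (g - q * h) ^ 4 + q * (g + (1 - q) * h) ^ 4 =
      g ^ 4 + 6 * (q * (1 - q)) * (g ^ 2 * h ^ 2) + 4 * (q * (1 - q)) * ((1 - 2 * q) * (g * h ^ 3)) +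
      (q * (1 - q)) * (1 - 3 * (q * (1 - q))) * h ^ 4 := by ring
  rw [e1]
  have e2 : 4 * ((1 - 2 * q) * (g * h ^ 3)) ≤ g ^ 2 * h ^ 2 + h ^ 4 := by
    have a1 : |g * h ^ 3| * 2 ≤ g ^ 2 * h ^ 2 + h ^ 4 := by
      have b1 := sq_nonneg (g * h - h ^ 2)
      have b2 := sq_nonneg (g * h + h ^ 2)
      rcases abs_cases (g * h ^ 3) with ⟨h3, _⟩ | ⟨h3, _⟩
      · rw [h3]; nlinarith
      · rw [h3]; nlinarith
    have a2 : (1 - 2 * q) * (g * h ^ 3) ≤ 1 / 2 * |g * h ^ 3| := by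
      calc (1 - 2 * q) * (g * h ^ 3) ≤ (1 - 2 * q) * |g * h ^ 3| :=
            mul_le_mul_of_nonneg_left (le_abs_self _) (by linarith)
        _ ≤ 1 / 2 * |g * h ^ 3| := mul_le_mul_of_nonneg_right (by linarith) (abs_nonneg _)
    linarith
  have e3 := mul_le_mul_of_nonneg_left e2 hv
  nlinarith

theorem bon {q : ℝ} (h0 : 1 / 4 ≤ q) (h1 : q ≤ 1 / 2) (S : Finset ι) (d : ℕ) (c : Finset ι → ℝ)
    (hc : ∀ W ⊆ S, d < W.card → c W = 0) :
    ex q S (fun Z => (∑ W ∈ Z.powerset, c W) ^ 4) ≤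
      16 ^ d * (ex q S (fun Z => (∑ W ∈ Z.powerset, c W) ^ 2)) ^ 2 := by
  have hq0 : 0 ≤ q := by linarith
  have hq1 : q ≤ 1 := by linarith
  induction S using Finset.induction_on generalizing d c with
  | empty =>
    rw [ex_empty, ex_empty, Finset.powerset_empty, Finset.sum_singleton]
    have h2 : (1 : ℝ) ≤ 16 ^ d := one_le_pow₀ (by norm_num)
    have h3 : 0 ≤ (c ∅) ^ 4 := by positivity
    have h4 : ((c ∅) ^ 2) ^ 2 = (c ∅) ^ 4 := by ring
    rw [h4]
    nlinarith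
  | insert e S he ih =>
    obtain ⟨v, hv⟩ : ∃ v, v = q * (1 - q) := ⟨_, rfl⟩
    have hv0 : 3 / 16 ≤ v := by rw [hv]; nlinarith
    obtain ⟨g, hg⟩ : ∃ g : Finset ι → ℝ, g = fun Z => ∑ W ∈ Z.powerset, (c W + q * c (insert e W)) := ⟨_, rfl⟩
    obtain ⟨h, hh⟩ : ∃ h : Finset ι → ℝ, h = fun Z => ∑ W ∈ Z.powerset, c (insert e W) := ⟨_, rfl⟩
    have f0 : ∀ Z ⊆ S, (∑ W ∈ Z.powerset, c W) = g Z - q * h Z := by
      intro Z _
      rw [hg, hh]
      simp only
      rw [Finset.sum_add_distrib, ← Finset.mul_sum]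
      ring
    have f1 : ∀ Z ⊆ S, (∑ W ∈ (insert e Z).powerset, c W) = g Z + (1 - q) * h Z := by
      intro Z hZ
      have heZ : e ∉ Z := fun h => he (hZ h)
      rw [Finset.sum_powerset_insert heZ, hg, hh]
      simp only
      rw [Finset.sum_add_distrib, ← Finset.mul_sum]
      ring
    -- the coefficients of `g` and `h`
    have hcg : ∀ W ⊆ S, d < W.card → c W + q * c (insert e W) = 0 := by
      intro W hW hd
      have heW : e ∉ W := fun h => he (hW h)
      rw [hc W (hW.trans (Finset.subset_insert _ _)) hd, hc (insert e W) (Finset.insert_subset_insert _ hW)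
        (by rw [Finset.card_insert_of_notMem heW]; omega)]
      ring
    have ig : ex q S (fun Z => g Z ^ 4) ≤ 16 ^ d * (ex q S (fun Z => g Z ^ 2)) ^ 2 := by
      have := ih d (fun W => c W + q * c (insert e W)) hcg
      rw [hg]
      exact this
    have ih' : 16 * ex q S (fun Z => h Z ^ 4) ≤ 16 ^ d * (ex q S (fun Z => h Z ^ 2)) ^ 2 := by
      rcases Nat.eq_zero_or_pos d with hd | hd
      · have h5 : ∀ Z ⊆ S, h Z ^ 4 = 0 := by
          intro Z hZ
          have : h Z = 0 := by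
            rw [hh]
            simp only
            apply Finset.sum_eq_zero
            intro W hW
            rw [Finset.mem_powerset] at hW
            have heW : e ∉ W := fun h => he (hZ (hW h))
            exact hc (insert e W) (Finset.insert_subset_insert _ (hW.trans hZ))
              (by rw [Finset.card_insert_of_notMem heW]; omega)
          rw [this]
          norm_num
        rw [ex_congr h5, ex_const]
        rw [mul_zero]
        positivity
      · have h5 := ih (d - 1) (fun W => c (insert e W)) (by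
          intro W hW hd'
          have heW : e ∉ W := fun h => he (hW h)
          exact hc (insert e W) (Finset.insert_subset_insert _ hW)
              (by rw [Finset.card_insert_of_notMem heW]; omega))
        have h6 : (16 : ℝ) ^ d = 16 * 16 ^ (d - 1) := by
          rw [← pow_succ', Nat.sub_add_cancel hd]
        rw [h6, mul_assoc]
        apply mul_le_mul_of_nonneg_left _ (by norm_num)
        rw [hh]
        exact h5
    obtain ⟨a, ha⟩ : ∃ a, a = ex q S (fun Z => g Z ^ 2) := ⟨_, rfl⟩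
    obtain ⟨b, hb⟩ : ∃ b, b = ex q S (fun Z => h Z ^ 2) := ⟨_, rfl⟩
    obtain ⟨a4, ha4⟩ : ∃ a4, a4 = ex q S (fun Z => g Z ^ 4) := ⟨_, rfl⟩
    obtain ⟨b4, hb4⟩ : ∃ b4, b4 = ex q S (fun Z => h Z ^ 4) := ⟨_, rfl⟩
    obtain ⟨m, hm⟩ : ∃ m, m = ex q S (fun Z => g Z ^ 2 * h Z ^ 2) := ⟨_, rfl⟩
    rw [← ha4, ← ha] at ig
    rw [← hb4, ← hb] at ih'
    have ha0 : 0 ≤ a := by rw [ha]; exact ex_nonneg hq0 hq1 (fun Z _ => sq_nonneg _)
    have hb0 : 0 ≤ b := by rw [hb]; exact ex_nonneg hq0 hq1 (fun Z _ => sq_nonneg _)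
    have hm0 : 0 ≤ m := by rw [hm]; exact ex_nonneg hq0 hq1 (fun Z _ => by positivity)
    have ha40 : 0 ≤ a4 := by rw [ha4]; exact ex_nonneg hq0 hq1 (fun Z _ => by positivity)
    have hb40 : 0 ≤ b4 := by rw [hb4]; exact ex_nonneg hq0 hq1 (fun Z _ => by positivity)
    have hK : (0 : ℝ) < 16 ^ d := by positivity
    obtain ⟨K, hKK⟩ : ∃ K : ℝ, K = 16 ^ d := ⟨_, rfl⟩
    rw [← hKK] at ig ih' hK ⊢
    have hcs : m ^ 2 ≤ a4 * b4 := by
      have h7 := ex_cs hq0 hq1 S (fun Z => g Z ^ 2) (fun Z => h Z ^ 2)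
      have h8 : ex q S (fun Z => (g Z ^ 2) ^ 2) = a4 := by
        rw [ha4]; exact ex_congr (fun Z _ => by ring)
      have h9 : ex q S (fun Z => (h Z ^ 2) ^ 2) = b4 := by
        rw [hb4]; exact ex_congr (fun Z _ => by ring)
      rw [h8, h9] at h7
      rw [hm]
      exact h7
    have hm1 : m ≤ K * a * b / 4 := by
      refine (pow_le_pow_iff_left₀ hm0 (by positivity) two_ne_zero).mp ?_
      calc m ^ 2 ≤ a4 * b4 := hcs
        _ ≤ (K * a ^ 2) * (K * b ^ 2 / 16) := by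
            apply mul_le_mul ig (by linarith) hb40 (by positivity)
        _ = (K * a * b / 4) ^ 2 := by ring
    -- second moment
    have e2 : ex q (insert e S) (fun Z => (∑ W ∈ Z.powerset, c W) ^ 2) = a + v * b := by
      rw [ex_insert he]
      rw [ex_congr (g := fun Z => (g Z - q * h Z) ^ 2) (fun Z hZ => by rw [f0 Z hZ]),
        ex_congr (f := fun Z => (∑ W ∈ (insert e Z).powerset, c W) ^ 2)
          (g := fun Z => (g Z + (1 - q) * h Z) ^ 2) (fun Z hZ => by rw [f1 Z hZ]),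
        ← ex_mul, ← ex_mul, ← ex_add, ha, hb, ← ex_mul, ← ex_add, hv]
      exact ex_congr (fun Z _ => by ring)
    have e4 : ex q (insert e S) (fun Z => (∑ W ∈ Z.powerset, c W) ^ 4) ≤
        a4 + 7 * v * m + v * (2 - 3 * v) * b4 := by
      rw [ex_insert he]
      rw [ex_congr (g := fun Z => (g Z - q * h Z) ^ 4) (fun Z hZ => by rw [f0 Z hZ]),
        ex_congr (f := fun Z => (∑ W ∈ (insert e Z).powerset, c W) ^ 4)
          (g := fun Z => (g Z + (1 - q) * h Z) ^ 4) (fun Z hZ => by rw [f1 Z hZ]),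
        ← ex_mul, ← ex_mul, ← ex_add, ha4, hm, hb4, ← ex_mul, ← ex_mul, ← ex_add, ← ex_add, hv]
      exact ex_mono hq0 hq1 (fun Z _ => four_le h0 h1 (g Z) (h Z))
    rw [e2]
    refine e4.trans ?_
    have hv1 : v ≤ 1 / 4 := by rw [hv]; nlinarith [sq_nonneg (q - 1 / 2)]
    have k1 : 7 * v * m ≤ 7 * v * (K * a * b / 4) := mul_le_mul_of_nonneg_left hm1 (by positivity)
    have k2 : v * (2 - 3 * v) * b4 ≤ v * (2 - 3 * v) * (K * b ^ 2 / 16) := by
      apply mul_le_mul_of_nonneg_left (by linarith)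
      apply mul_nonneg (by linarith) (by linarith)
    have k3 : v * (2 - 3 * v) * (K * b ^ 2 / 16) ≤ v ^ 2 * (K * b ^ 2) := by
      have : v * (2 - 3 * v) / 16 ≤ v ^ 2 := by nlinarith
      calc v * (2 - 3 * v) * (K * b ^ 2 / 16) = (v * (2 - 3 * v) / 16) * (K * b ^ 2) := by ring
        _ ≤ v ^ 2 * (K * b ^ 2) := mul_le_mul_of_nonneg_right this (by positivity)
    have k4 : 7 * v * (K * a * b / 4) ≤ 2 * v * (K * a * b) := by
      have : 0 ≤ v * (K * a * b) := by positivity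
      linarith
    calc a4 + 7 * v * m + v * (2 - 3 * v) * b4 ≤ K * a ^ 2 + 2 * v * (K * a * b) + v ^ 2 * (K * b ^ 2) := by
          linarith
      _ = K * (a + v * b) ^ 2 := by ring

end MP052029.Zr
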