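import Pool.Agent.Lib.MP_052029_lc.Z.ZDefs

/-!
# Module ZCnt: random subsets with `s` elements

PROOF. The number of `Z0` with `s` elements containing `W`, `|W| = k`, is `C(n-k, s-k)` (0 if `k > s`), and `C(n-k,s-k) n^k <= s^k C(n,s)` by induction on `k`:
`(n-k) C(n-k-1, s-k-1) = (s-k) C(n-k, s-k)` and `(s-k)/(n-k) <= s/n`. For `k = 1` equality.
`cnt_avg`: sum over `Z0` of `∑ W ⊆ Z0, |W| > d` = `∑ k > d, ∑ |W| = k, #{Z0 ⊇ W} w W`, geometric series with ratio `s r / n <= 1/2`.
-/

set_option autoImplicit false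

namespace MP052029.Zr

open Finset

/-- the average over the subsets with `s` elements -/
noncomputable def av {n : ℕ} (s : ℕ) (f : Finset (Fin n) → ℝ) : ℝ :=
  (∑ Z ∈ (univ : Finset (Fin n)).powersetCard s, f Z) / (n.choose s : ℝ)

theorem av_mono {n s : ℕ} {f g : Finset (Fin n) → ℝ} (h : ∀ Z, Z.card = s → f Z ≤ g Z) :
    av s f ≤ av s g := by
  unfold av
  apply div_le_div_of_nonneg_right _ (Nat.cast_nonneg _)
  exact Finset.sum_le_sum fun Z hZ => h Z (Finset.mem_powersetCard.1 hZ).2

theorem av_add {n : ℕ} (s : ℕ) (f g : Finset (Fin n) → ℝ) :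
    av s (fun Z => f Z + g Z) = av s f + av s g := by
  unfold av
  rw [Finset.sum_add_distrib, add_div]

theorem av_mul {n : ℕ} (s : ℕ) (c : ℝ) (f : Finset (Fin n) → ℝ) :
    av s (fun Z => c * f Z) = c * av s f := by
  unfold av
  rw [← Finset.mul_sum, mul_div_assoc]

private theorem ZCnt_choose_pos {n s : ℕ} (hs : s ≤ n) : (0 : ℝ) < (n.choose s : ℝ) := by
  exact_mod_cast Nat.choose_pos hs

theorem av_const {n s : ℕ} (hs : s ≤ n) (c : ℝ) : av s (fun _ : Finset (Fin n) => c) = c := by
  unfold av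
  rw [Finset.sum_const, Finset.card_powersetCard, Finset.card_univ, Fintype.card_fin,
    nsmul_eq_mul, mul_div_cancel_left₀ _ (ZCnt_choose_pos hs).ne']

/-- the number of supersets -/
private theorem ZCnt_card {n s : ℕ} (W : Finset (Fin n)) (hW : W.card ≤ s) :
    (((univ : Finset (Fin n)).powersetCard s).filter (fun Z => W ⊆ Z)).card =
      (n - W.card).choose (s - W.card) := by
  have h1 : (Finset.powersetCard (s - W.card) (univ \ W)).card =
      (n - W.card).choose (s - W.card) := by
    rw [Finset.card_powersetCard, Finset.card_sdiff_of_subset (Finset.subset_univ W),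
      Finset.card_univ, Fintype.card_fin]
  rw [← h1]
  apply Finset.card_nbij' (fun Z => Z \ W) (fun Y => Y ∪ W)
  · intro Z hZ
    simp only [Finset.coe_filter, Finset.mem_powersetCard, Finset.subset_univ, true_and,
      Set.mem_ofPred_eq] at hZ
    simp only [Finset.mem_coe, Finset.mem_powersetCard]
    refine ⟨Finset.sdiff_subset_sdiff (Finset.subset_univ _) subset_rfl, ?_⟩
    rw [Finset.card_sdiff_of_subset hZ.2, hZ.1]
  · intro Y hY
    simp only [Finset.mem_coe, Finset.mem_powersetCard] at hY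
    simp only [Finset.coe_filter, Finset.mem_powersetCard, Finset.subset_univ, true_and,
      Set.mem_ofPred_eq]
    have hd : Disjoint Y W := Finset.disjoint_of_subset_left hY.1 Finset.sdiff_disjoint
    refine ⟨?_, Finset.subset_union_right⟩
    rw [Finset.card_union_of_disjoint hd, hY.2]
    omega
  · intro Z hZ
    simp only [Finset.coe_filter, Finset.mem_powersetCard, Finset.subset_univ, true_and,
      Set.mem_ofPred_eq] at hZ
    exact Finset.sdiff_union_of_subset hZ.2
  · intro Y hY
    simp only [Finset.mem_coe, Finset.mem_powersetCard] at hY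
    have hd : Disjoint Y W := Finset.disjoint_of_subset_left hY.1 Finset.sdiff_disjoint
    change (Y ∪ W) \ W = Y
    rw [Finset.union_sdiff_right]
    exact Finset.sdiff_eq_self_of_disjoint hd

private theorem ZCnt_card_zero {n s : ℕ} (W : Finset (Fin n)) (hW : s < W.card) :
    (((univ : Finset (Fin n)).powersetCard s).filter (fun Z => W ⊆ Z)).card = 0 := by
  rw [Finset.card_eq_zero, Finset.filter_eq_empty_iff]
  intro Z hZ hWZ
  have := Finset.card_le_card hWZ
  rw [(Finset.mem_powersetCard.1 hZ).2] at this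
  omega

private theorem ZCnt_step {n s k : ℕ} (hs : s ≤ n) (hk : k < s) :
    ((n - (k + 1)).choose (s - (k + 1)) : ℝ) ≤ (s : ℝ) / n * ((n - k).choose (s - k) : ℝ) := by
  obtain ⟨b, hb⟩ : ∃ b, s = k + 1 + b := ⟨s - (k + 1), by omega⟩
  obtain ⟨a, ha⟩ : ∃ a, n = k + 1 + a := ⟨n - (k + 1), by omega⟩
  have e1 : n - (k + 1) = a := by omega
  have e2 : s - (k + 1) = b := by omega
  have e3 : n - k = a + 1 := by omega
  have e4 : s - k = b + 1 := by omega
  rw [e1, e2, e3, e4]
  have h := Nat.add_one_mul_choose_eq a b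
  have h' : ((a : ℝ) + 1) * (a.choose b : ℝ) = ((a + 1).choose (b + 1) : ℝ) * ((b : ℝ) + 1) := by
    exact_mod_cast h
  have hn : (0 : ℝ) < n := by
    have : 0 < n := by omega
    exact_mod_cast this
  have ha1 : (0 : ℝ) < (a : ℝ) + 1 := by positivity
  have hC : (0 : ℝ) ≤ ((a + 1).choose (b + 1) : ℝ) := Nat.cast_nonneg _
  have hx : (a.choose b : ℝ) = ((a + 1).choose (b + 1) : ℝ) * (((b : ℝ) + 1) / ((a : ℝ) + 1)) := by
    field_simp
    linarith
  rw [hx, mul_comm]
  apply mul_le_mul_of_nonneg_right _ hC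
  rw [div_le_div_iff₀ ha1 hn, ha, hb]
  push_cast
  have hab : (b : ℝ) ≤ a := by
    have : b ≤ a := by omega
    exact_mod_cast this
  have hk0 : (0 : ℝ) ≤ k := Nat.cast_nonneg _
  nlinarith

private theorem ZCnt_pow {n s k : ℕ} (hs : s ≤ n) (hk : k ≤ s) :
    ((n - k).choose (s - k) : ℝ) ≤ ((s : ℝ) / n) ^ k * (n.choose s : ℝ) := by
  induction k with
  | zero => simp
  | succ k ih =>
    have h1 := ZCnt_step hs (show k < s by omega)
    have h2 := ih (by omega)
    have h0 : (0 : ℝ) ≤ (s : ℝ) / n := by positivity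
    calc ((n - (k + 1)).choose (s - (k + 1)) : ℝ)
        ≤ (s : ℝ) / n * ((n - k).choose (s - k) : ℝ) := h1
      _ ≤ (s : ℝ) / n * (((s : ℝ) / n) ^ k * (n.choose s : ℝ)) :=
          mul_le_mul_of_nonneg_left h2 h0
      _ = _ := by ring

theorem cnt_super {n s : ℕ} (hs : s ≤ n) (W : Finset (Fin n)) :
    av s (fun Z => if W ⊆ Z then 1 else 0) ≤ ((s : ℝ) / n) ^ W.card := by
  unfold av
  rw [Finset.sum_boole, div_le_iff₀ (ZCnt_choose_pos hs)]
  by_cases hW : W.card ≤ s
  · rw [ZCnt_card W hW]
    exact ZCnt_pow hs hW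
  · rw [ZCnt_card_zero W (by omega), Nat.cast_zero]
    positivity

theorem cnt_single {n s : ℕ} (hn : 1 ≤ n) (hs : s ≤ n) (w : Fin n → ℝ) :
    av s (fun Z => ∑ i ∈ Z, w i) = (s : ℝ) / n * ∑ i, w i := by
  have hC := ZCnt_choose_pos hs
  have hn0 : (0 : ℝ) < n := by exact_mod_cast hn
  have h1 : ∀ i : Fin n, ((((univ : Finset (Fin n)).powersetCard s).filter
      (fun Z => {i} ⊆ Z)).card : ℝ) = (s : ℝ) / n * (n.choose s : ℝ) := by
    intro i
    rcases Nat.eq_zero_or_pos s with h0 | h0
    · rw [ZCnt_card_zero {i} (by rw [Finset.card_singleton]; omega), h0]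
      simp
    · rw [ZCnt_card {i} (by rw [Finset.card_singleton]; omega), Finset.card_singleton]
      obtain ⟨a, ha⟩ : ∃ a, n = a + 1 := ⟨n - 1, by omega⟩
      obtain ⟨b, hb⟩ : ∃ b, s = b + 1 := ⟨s - 1, by omega⟩
      have e1 : n - 1 = a := by omega
      have e2 : s - 1 = b := by omega
      rw [e1, e2]
      have h := Nat.add_one_mul_choose_eq a b
      rw [← ha, ← hb] at h
      have h' : (n : ℝ) * (a.choose b : ℝ) = (n.choose s : ℝ) * (s : ℝ) := by
        exact_mod_cast h
      field_simp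
      linarith
  unfold av
  rw [div_eq_iff hC.ne']
  have h2 : ∑ Z ∈ (univ : Finset (Fin n)).powersetCard s, ∑ i ∈ Z, w i =
      ∑ i, w i * ((((univ : Finset (Fin n)).powersetCard s).filter
      (fun Z => {i} ⊆ Z)).card : ℝ) := by
    have h3 : ∀ Z : Finset (Fin n), ∑ i ∈ Z, w i = ∑ i, if {i} ⊆ Z then w i else 0 := by
      intro Z
      rw [← Finset.sum_filter]
      apply Finset.sum_congr _ (fun _ _ => rfl)
      ext i
      simp
    rw [Finset.sum_congr rfl (fun Z _ => h3 Z), Finset.sum_comm]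
    apply Finset.sum_congr rfl
    intro i _
    rw [← Finset.sum_filter, Finset.sum_const, nsmul_eq_mul, mul_comm]
  rw [h2, Finset.sum_congr rfl (fun i _ => by rw [h1 i]), ← Finset.sum_mul]
  ring

theorem cnt_avg {n s d : ℕ} (hn : 1 ≤ n) (hs : s ≤ n) (w : Finset (Fin n) → ℝ)
    (hw : ∀ W, 0 ≤ w W) {m r : ℝ} (hm : 0 ≤ m) (hr0 : 0 ≤ r) (hr : s * r / n ≤ 1 / 2)
    (h : ∀ k, ∑ W ∈ (univ : Finset (Fin n)).powersetCard k, w W ≤ m * r ^ k) :
    av s (fun Z => ∑ W ∈ Z.powerset.filter (fun W => d < W.card), w W) ≤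
      2 * m * (s * r / n) ^ (d + 1) := by
  have hC := ZCnt_choose_pos hs
  have hn0 : (0 : ℝ) < n := by exact_mod_cast hn
  set x : ℝ := s * r / n with hx
  have hx0 : 0 ≤ x := by positivity
  -- exchange of the sums
  have h1 : av s (fun Z => ∑ W ∈ Z.powerset.filter (fun W => d < W.card), w W) =
      ∑ W ∈ (univ : Finset (Finset (Fin n))).filter (fun W => d < W.card),
        w W * av s (fun Z => if W ⊆ Z then 1 else 0) := by
    unfold av
    have h3 : ∀ Z : Finset (Fin n), ∑ W ∈ Z.powerset.filter (fun W => d < W.card), w W =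
        ∑ W ∈ (univ : Finset (Finset (Fin n))).filter (fun W => d < W.card),
          w W * (if W ⊆ Z then 1 else 0) := by
      intro Z
      simp only [mul_ite, mul_one, mul_zero]
      rw [← Finset.sum_filter, Finset.filter_filter]
      apply Finset.sum_congr _ (fun _ _ => rfl)
      ext W
      simp only [Finset.mem_filter, Finset.mem_powerset, Finset.mem_univ, true_and]
      tauto
    rw [Finset.sum_congr rfl (fun Z _ => h3 Z), Finset.sum_comm, Finset.sum_div]
    apply Finset.sum_congr rfl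
    intro W _
    rw [← Finset.mul_sum, mul_div_assoc]
  rw [h1]
  have h2 : ∑ W ∈ (univ : Finset (Finset (Fin n))).filter (fun W => d < W.card),
        w W * av s (fun Z => if W ⊆ Z then 1 else 0) ≤
      ∑ W ∈ (univ : Finset (Finset (Fin n))).filter (fun W => d < W.card),
        w W * ((s : ℝ) / n) ^ W.card :=
    Finset.sum_le_sum fun W _ => mul_le_mul_of_nonneg_left (cnt_super hs W) (hw W)
  refine h2.trans ?_
  -- grouping by cardinality
  have h3 : ∑ W ∈ (univ : Finset (Finset (Fin n))).filter (fun W => d < W.card),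
        w W * ((s : ℝ) / n) ^ W.card =
      ∑ k ∈ Finset.Icc (d + 1) n, ∑ W ∈ (univ : Finset (Fin n)).powersetCard k,
        w W * ((s : ℝ) / n) ^ k := by
    rw [← Finset.sum_fiberwise_of_maps_to (s := (univ : Finset (Finset (Fin n))).filter
      (fun W => d < W.card)) (t := Finset.Icc (d + 1) n) (g := fun W => W.card)]
    · apply Finset.sum_congr rfl
      intro k hk
      rw [Finset.mem_Icc] at hk
      rw [Finset.filter_filter]
      have e : (univ : Finset (Finset (Fin n))).filter (fun W => d < W.card ∧ W.card = k) =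
          (univ : Finset (Fin n)).powersetCard k := by
        ext W
        simp only [Finset.mem_filter, Finset.mem_univ, true_and, Finset.mem_powersetCard,
          Finset.subset_univ]
        constructor
        · rintro ⟨_, h⟩; exact h
        · intro h; exact ⟨by omega, h⟩
      rw [e]
      apply Finset.sum_congr rfl
      intro W hW
      rw [(Finset.mem_powersetCard.1 hW).2]
    · intro W hW
      simp only [Finset.mem_filter, Finset.mem_univ, true_and] at hW
      rw [Finset.mem_Icc]
      refine ⟨by omega, ?_⟩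
      have := Finset.card_le_univ W
      rwa [Fintype.card_fin] at this
  rw [h3]
  have h4 : ∀ k ∈ Finset.Icc (d + 1) n, ∑ W ∈ (univ : Finset (Fin n)).powersetCard k,
        w W * ((s : ℝ) / n) ^ k ≤ m * x ^ k := by
    intro k _
    rw [← Finset.sum_mul]
    have e : x ^ k = r ^ k * ((s : ℝ) / n) ^ k := by
      rw [← mul_pow, hx]; congr 1; ring
    rw [e, ← mul_assoc]
    exact mul_le_mul_of_nonneg_right (h k) (by positivity)
  refine (Finset.sum_le_sum h4).trans ?_
  rw [← Finset.mul_sum]
  have h5 : ∑ k ∈ Finset.Icc (d + 1) n, x ^ k ≤ 2 * x ^ (d + 1) := by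
    have h6 : ∀ N, ∑ k ∈ Finset.range N, x ^ (d + 1 + k) ≤ x ^ (d + 1) * (2 - 2 * x ^ N) := by
      intro N
      induction N with
      | zero => simp
      | succ N ih =>
        rw [Finset.sum_range_succ]
        have e : x ^ (d + 1 + N) = x ^ (d + 1) * x ^ N := pow_add _ _ _
        have hp1 : 0 ≤ x ^ (d + 1) := by positivity
        have hp2 : 0 ≤ x ^ N := by positivity
        have h7 : x ^ (d + 1) * (2 - 2 * x ^ N) + x ^ (d + 1) * x ^ N ≤
            x ^ (d + 1) * (2 - 2 * x ^ (N + 1)) := by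
          rw [← mul_add]
          apply mul_le_mul_of_nonneg_left _ hp1
          rw [pow_succ]
          nlinarith
        rw [e]
        linarith
    have h8 : ∑ k ∈ Finset.Icc (d + 1) n, x ^ k =
        ∑ k ∈ Finset.range (n + 1 - (d + 1)), x ^ (d + 1 + k) := by
      rw [← Finset.sum_Ico_eq_sum_range]
      rfl
    rw [h8]
    refine (h6 _).trans ?_
    have hp1 : 0 ≤ x ^ (d + 1) := by positivity
    have hp2 : 0 ≤ x ^ (n + 1 - (d + 1)) := by positivity
    nlinarith [mul_nonneg hp1 hp2]
  calc m * ∑ k ∈ Finset.Icc (d + 1) n, x ^ k ≤ m * (2 * x ^ (d + 1)) :=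
        mul_le_mul_of_nonneg_left h5 hm
    _ = _ := by ring

end MP052029.Zr
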