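import Pool.Agent.Lib.MP_052029_lc.Z.ZDefs

/-!
# Module ZInt: extrapolation of a polynomial from the nodes in `[1/4, 1/2]` to `0`

PROOF. `D = 2 d`, `x_j = node d j = (D + 1 + j)/(4 D)`, `j < D`. Lagrange: `g(0) = ∑ i < D, g(x_i) L_i`, `L_i = ∏ j ≠ i, (0 - x_j)/(x_i - x_j)`
(`Lagrange.eq_interpolate_of_eval_eq` or `Lagrange.sum_basis`..., degree < D), `|L_i| = ∏ j ≠ i, (D+1+j)/|i-j|
<= (∏ j < D, (D+1+j)) / (i! (D-1-i)!) = ((2D)!/D!) C(D-1,i)/(D-1)! = C(2D,D) D C(D-1,i) <= 4^D D 2^(D-1)`,
so `∑ |L_i| <= D^2 4^D 2^(D-1) <= 16^D = 256^d` (`D^2 <= 2^(D+1)`).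
-/

set_option autoImplicit false

namespace MP052029.Zr

open Finset Polynomial

private theorem prod_dist (D i : ℕ) (hi : i < D) :
    ∏ j ∈ (range D).erase i, |(i : ℝ) - j| = (i.factorial : ℝ) * ((D - 1 - i).factorial : ℝ) := by
  have h1 : (range D).erase i = range i ∪ Ico (i + 1) D := by
    ext j
    simp only [Finset.mem_erase, Finset.mem_range, Finset.mem_union, Finset.mem_Ico]
    omega
  rw [h1, Finset.prod_union]
  · congr 1
    · rw [← Finset.prod_range_reflect, ← Finset.prod_range_add_one_eq_factorial]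
      push_cast
      refine Finset.prod_congr rfl (fun j hj => ?_)
      rw [Finset.mem_range] at hj
      have : ((i - 1 - j : ℕ) : ℝ) = i - 1 - j := by
        rw [Nat.sub_sub, Nat.cast_sub (by omega)]
        push_cast
        ring
      rw [this, abs_of_nonneg]
      · ring
      · have : (0 : ℝ) ≤ j := Nat.cast_nonneg j
        linarith
    · rw [Finset.prod_Ico_eq_prod_range, ← Finset.prod_range_add_one_eq_factorial,
        show D - (i + 1) = D - 1 - i by omega]
      push_cast
      refine Finset.prod_congr rfl (fun j _ => ?_)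
      rw [abs_sub_comm, abs_of_nonneg]
      · ring
      · have : (0 : ℝ) ≤ j := Nat.cast_nonneg j
        linarith
  · rw [Finset.disjoint_left]
    intro j hj hj'
    rw [Finset.mem_range] at hj
    rw [Finset.mem_Ico] at hj'
    omega

private theorem prod_num (D i : ℕ) :
    ∏ j ∈ (range D).erase i, ((D : ℝ) + 1 + j) ≤ ((D + 1).ascFactorial D : ℝ) := by
  have h1 : ∏ j ∈ (range D).erase i, (D + 1 + j) ≤ ∏ j ∈ range D, (D + 1 + j) := by
    apply Finset.prod_le_prod_of_subset_of_one_le' (Finset.erase_subset _ _)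
    intro j _ _
    omega
  rw [Nat.ascFactorial_eq_prod_range]
  have h2 : ((∏ j ∈ (range D).erase i, (D + 1 + j) : ℕ) : ℝ) ≤ ((∏ j ∈ range D, (D + 1 + j) : ℕ) : ℝ) := by
    exact_mod_cast h1
  push_cast at h2 ⊢
  exact h2

private theorem asc_eq (D : ℕ) (hD : 1 ≤ D) :
    ((D + 1).ascFactorial D : ℝ) = D * ((2 * D).choose D : ℝ) * ((D - 1).factorial : ℝ) := by
  have h1 := Nat.factorial_mul_ascFactorial D D
  have h2 := Nat.choose_mul_factorial_mul_factorial (show D ≤ 2 * D by omega)
  rw [show 2 * D - D = D by omega] at h2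
  have h3 : D.factorial * (D + 1).ascFactorial D = D.factorial * ((2 * D).choose D * D.factorial) := by
    rw [h1, show D + D = 2 * D by ring, ← h2]
    ring
  have h4 := Nat.eq_of_mul_eq_mul_left (Nat.factorial_pos D) h3
  have h5 : D.factorial = D * (D - 1).factorial := (Nat.mul_factorial_pred (by omega)).symm
  rw [h4, h5]
  push_cast
  ring

theorem extrap {d : ℕ} (hd : 1 ≤ d) (g : ℝ[X]) (hg : g.natDegree < 2 * d) {M : ℝ}
    (hM : ∀ j < 2 * d, |g.eval (node d j)| ≤ M) : |g.eval 0| ≤ 256 ^ d * M := by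
  classical
  obtain ⟨D, hD⟩ : ∃ D, D = 2 * d := ⟨_, rfl⟩
  have hD1 : 1 ≤ D := by omega
  have hd0 : (0 : ℝ) < d := by exact_mod_cast hd
  have hDr : (D : ℝ) = 2 * d := by rw [hD]; push_cast; ring
  have hM0 : 0 ≤ M := (abs_nonneg _).trans (hM 0 (by omega))
  have hinj : Set.InjOn (node d) (range D : Finset ℕ) := by
    intro a _ b _ hab
    unfold node at hab
    have h8 : (8 * (d : ℝ)) ≠ 0 := by positivity
    rw [div_left_inj' h8] at hab
    have : (a : ℝ) = b := by linarith
    exact_mod_cast this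
  have h1 : g = Lagrange.interpolate (range D) (node d) (fun i => g.eval (node d i)) := by
    apply Lagrange.eq_interpolate hinj
    rw [Finset.card_range, hD]
    exact (Polynomial.degree_le_natDegree).trans_lt (by exact_mod_cast hg)
  have h2 : g.eval 0 = ∑ i ∈ range D, g.eval (node d i) *
      (Lagrange.basis (range D) (node d) i).eval 0 := by
    conv_lhs => rw [h1]
    rw [Lagrange.interpolate_apply, Polynomial.eval_finset_sum]
    refine Finset.sum_congr rfl (fun i _ => ?_)
    rw [Polynomial.eval_mul, Polynomial.eval_C]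
  have h3 : ∀ i ∈ range D, |(Lagrange.basis (range D) (node d) i).eval 0| ≤
      D * ((2 * D).choose D : ℝ) * ((D - 1).choose i : ℝ) := by
    intro i hi
    rw [Finset.mem_range] at hi
    have h4 : |(Lagrange.basis (range D) (node d) i).eval 0| =
        (∏ j ∈ (range D).erase i, ((D : ℝ) + 1 + j)) / ∏ j ∈ (range D).erase i, |(i : ℝ) - j| := by
      unfold Lagrange.basis
      rw [Polynomial.eval_prod, Finset.abs_prod, ← Finset.prod_div_distrib]
      refine Finset.prod_congr rfl (fun j hj => ?_)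
      rw [Finset.mem_erase] at hj
      unfold Lagrange.basisDivisor
      rw [Polynomial.eval_mul, Polynomial.eval_C, Polynomial.eval_sub, Polynomial.eval_X, Polynomial.eval_C,
        abs_mul, abs_inv]
      have h5 : node d i - node d j = ((i : ℝ) - j) / (8 * d) := by
        unfold node
        ring
      have h6 : (0 : ℝ) - node d j = -((D + 1 + j) / (8 * d)) := by
        unfold node
        rw [hDr]
        ring
      have h7 : (i : ℝ) - j ≠ 0 := by
        intro h
        apply hj.1
        have : (i : ℝ) = j := by linarith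
        exact_mod_cast this.symm
      rw [h5, h6, abs_neg, abs_div, abs_div, abs_of_pos (by positivity : (0 : ℝ) < 8 * d),
        abs_of_pos (by positivity : (0 : ℝ) < (D : ℝ) + 1 + j)]
      have h9 : |(i : ℝ) - j| ≠ 0 := abs_ne_zero.mpr h7
      field_simp
    rw [h4, prod_dist D i hi]
    have h10 : (0 : ℝ) < (i.factorial : ℝ) * ((D - 1 - i).factorial : ℝ) := by positivity
    rw [div_le_iff₀ h10]
    refine (prod_num D i).trans (le_of_eq ?_)
    rw [asc_eq D hD1]
    have h11 := Nat.choose_mul_factorial_mul_factorial (show i ≤ D - 1 by omega)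
    rw [← h11]
    push_cast
    ring
  have h12 : |g.eval 0| ≤ ∑ i ∈ range D, M * (D * ((2 * D).choose D : ℝ) * ((D - 1).choose i : ℝ)) := by
    rw [h2]
    refine (Finset.abs_sum_le_sum_abs _ _).trans ?_
    refine Finset.sum_le_sum (fun i hi => ?_)
    rw [abs_mul]
    exact mul_le_mul (hM i (by rw [← hD]; exact Finset.mem_range.mp hi)) (h3 i hi) (abs_nonneg _) hM0
  refine h12.trans ?_
  rw [← Finset.mul_sum, ← Finset.mul_sum, mul_comm]
  apply mul_le_mul_of_nonneg_right _ hM0
  have h13 : ∑ i ∈ range D, ((D - 1).choose i : ℝ) = 2 ^ (D - 1) := by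
    have := Nat.sum_range_choose (D - 1)
    rw [Nat.sub_add_cancel hD1] at this
    exact_mod_cast this
  rw [h13]
  have h14 : D * (2 * D).choose D * 2 ^ (D - 1) ≤ 256 ^ d := by
    have a1 : D ≤ 2 ^ D := (Nat.lt_two_pow_self).le
    have a2 : (2 * D).choose D ≤ 2 ^ (2 * D) := Nat.choose_le_two_pow _ _
    have a3 : 2 ^ (D - 1) ≤ 2 ^ D := Nat.pow_le_pow_right (by norm_num) (by omega)
    calc D * (2 * D).choose D * 2 ^ (D - 1) ≤ 2 ^ D * 2 ^ (2 * D) * 2 ^ D :=
          Nat.mul_le_mul (Nat.mul_le_mul a1 a2) a3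
      _ = 2 ^ (8 * d) := by rw [← pow_add, ← pow_add, hD]; congr 1; ring
      _ = 256 ^ d := by rw [pow_mul]; norm_num
  exact_mod_cast h14

end MP052029.Zr
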