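import Pool.Agent.Lib.MP_052029_lc.Z.ZL12
import Pool.Agent.Lib.MP_052029_lc.Z.ZInt

/-!
# Module ZCoef: the first level of a polynomial with small first moments

PROOF. `H Z = ∑ W ⊆ Z, c W`, `c ∅ = 0`. `H Z ^ 2 = ∑ W, W' ⊆ S, c W c W' 1[W ∪ W' ⊆ Z]` for `Z ⊆ S`, so by `ex_sum`, `ex_ind`:
`ex q S (H^2) = ∑ W, W' ⊆ S, c W c W' q^|W ∪ W'| = q * g(q)`, `g = ∑ c W c W' X^(|W ∪ W'| - 1)` (only `1 <= |W|, |W'| <= d` occur), a polynomial
of degree `<= 2d - 1`; `g(0)` = sum over `|W ∪ W'| = 1` = `∑ i ∈ S, c {i}^2`. For a node `q` (in `[1/4, 1/2]`): `g(q) = ex q S (H^2)/q <= 4 * 16^d M^2`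
(`l1l2`), `g(q) >= 0`. `extrap`: `g(0) <= 256^d * 4 * 16^d M^2`.
-/

set_option autoImplicit false

namespace MP052029.Zr

open Finset

variable {ι : Type*} [DecidableEq ι]

theorem node_mem {d j : ℕ} (hd : 1 ≤ d) (hj : j < 2 * d) :
    1 / 4 ≤ node d j ∧ node d j ≤ 1 / 2 := by
  have h1 : (1 : ℝ) ≤ d := by exact_mod_cast hd
  have h2 : (j : ℝ) + 1 ≤ 2 * d := by exact_mod_cast hj
  have h3 : (0 : ℝ) ≤ j := Nat.cast_nonneg j
  unfold node
  constructor
  · rw [div_le_div_iff₀ (by norm_num) (by linarith)]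
    linarith
  · rw [div_le_div_iff₀ (by linarith) (by norm_num)]
    linarith

open Polynomial in
/-- the polynomial of the second moment divided by `q` -/
private noncomputable def ZCoef_g (S : Finset ι) (c : Finset ι → ℝ) : ℝ[X] :=
  ∑ W ∈ S.powerset, ∑ W' ∈ S.powerset, Polynomial.C (c W * c W') * X ^ ((W ∪ W').card - 1)

open Polynomial in
private theorem ZCoef_deg {d : ℕ} (hd : 1 ≤ d) (S : Finset ι) (c : Finset ι → ℝ)
    (hc : ∀ W ⊆ S, d < W.card → c W = 0) : (ZCoef_g S c).natDegree < 2 * d := by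
  have h1 : (ZCoef_g S c).natDegree ≤ 2 * d - 1 := by
    unfold ZCoef_g
    apply Polynomial.natDegree_sum_le_of_forall_le
    intro W hW
    apply Polynomial.natDegree_sum_le_of_forall_le
    intro W' hW'
    rw [Finset.mem_powerset] at hW hW'
    by_cases h : d < W.card
    · rw [hc W hW h, zero_mul, Polynomial.C_0, zero_mul, Polynomial.natDegree_zero]
      exact Nat.zero_le _
    · by_cases h' : d < W'.card
      · rw [hc W' hW' h', mul_zero, Polynomial.C_0, zero_mul, Polynomial.natDegree_zero]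
        exact Nat.zero_le _
      · refine (Polynomial.natDegree_C_mul_X_pow_le _ _).trans ?_
        have := Finset.card_union_le W W'
        omega
  omega

private theorem ZCoef_eval (S : Finset ι) (c : Finset ι → ℝ) (hc0 : c ∅ = 0) (q : ℝ) :
    q * (ZCoef_g S c).eval q = ex q S (fun Z => (∑ W ∈ Z.powerset, c W) ^ 2) := by
  have h1 : ex q S (fun Z => (∑ W ∈ Z.powerset, c W) ^ 2) =
      ex q S (fun Z => ∑ W ∈ S.powerset, ∑ W' ∈ S.powerset,
        (c W * c W') * (if W ∪ W' ⊆ Z then 1 else 0)) := by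
    apply ex_congr
    intro Z hZ
    have h2 : ∑ W ∈ Z.powerset, c W = ∑ W ∈ S.powerset, if W ⊆ Z then c W else 0 := by
      rw [← Finset.sum_filter]
      apply Finset.sum_congr _ (fun _ _ => rfl)
      ext W
      rw [Finset.mem_filter, Finset.mem_powerset, Finset.mem_powerset]
      exact ⟨fun h => ⟨h.trans hZ, h⟩, fun h => h.2⟩
    rw [h2, sq, Finset.sum_mul_sum]
    apply Finset.sum_congr rfl
    intro W _
    apply Finset.sum_congr rfl
    intro W' _
    by_cases ha : W ⊆ Z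
    · by_cases hb : W' ⊆ Z
      · rw [if_pos ha, if_pos hb, if_pos (Finset.union_subset ha hb), mul_one]
      · rw [if_neg hb, if_neg (fun h => hb (Finset.subset_union_right.trans h)), mul_zero, mul_zero]
    · rw [if_neg ha, if_neg (fun h => ha (Finset.subset_union_left.trans h)), mul_zero, zero_mul]
  rw [h1, ex_sum]
  unfold ZCoef_g
  rw [Polynomial.eval_finsetSum, Finset.mul_sum]
  apply Finset.sum_congr rfl
  intro W hW
  rw [ex_sum, Polynomial.eval_finsetSum, Finset.mul_sum]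
  apply Finset.sum_congr rfl
  intro W' hW'
  rw [Finset.mem_powerset] at hW hW'
  rw [ex_mul, ex_ind q (Finset.union_subset hW hW'), Polynomial.eval_mul, Polynomial.eval_C,
    Polynomial.eval_pow, Polynomial.eval_X]
  rcases Nat.eq_zero_or_pos (W ∪ W').card with h | h
  · have h3 : W = ∅ := by
      rw [Finset.card_eq_zero] at h
      exact (Finset.union_eq_empty.1 h).1
    rw [h3, hc0, zero_mul, zero_mul, zero_mul, mul_zero]
  · obtain ⟨m, hm⟩ : ∃ m, (W ∪ W').card = m + 1 := ⟨_, (Nat.succ_pred_eq_of_pos h).symm⟩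
    rw [hm, Nat.add_sub_cancel, pow_succ]
    ring

private theorem ZCoef_zero (S : Finset ι) (c : Finset ι → ℝ) (hc0 : c ∅ = 0) :
    (ZCoef_g S c).eval 0 = ∑ i ∈ S, c {i} ^ 2 := by
  have h1 : ∀ W ∈ S.powerset, ∑ W' ∈ S.powerset, (c W * c W') * (0 : ℝ) ^ ((W ∪ W').card - 1) =
      if W.card = 1 then c W ^ 2 else 0 := by
    intro W hW
    split_ifs with h
    · rw [Finset.sum_eq_single W]
      · rw [Finset.union_self, h]
        simp [sq]
      · intro W' _ hne
        by_cases h0 : W' = ∅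
        · rw [h0, hc0, mul_zero, zero_mul]
        · have h2 : 2 ≤ (W ∪ W').card := by
            by_contra h3
            have h4 : (W ∪ W').card ≤ 1 := by omega
            have h5 : W = W ∪ W' :=
              Finset.eq_of_subset_of_card_le Finset.subset_union_left (by omega)
            have h6 : W' ⊆ W := by
              rw [h5]; exact Finset.subset_union_right
            have h7 : 1 ≤ W'.card := Finset.card_pos.2 (Finset.nonempty_iff_ne_empty.2 h0)
            exact hne (Finset.eq_of_subset_of_card_le h6 (by omega))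
          rw [zero_pow (by omega), mul_zero]
      · intro h2
        exact absurd hW h2
    · apply Finset.sum_eq_zero
      intro W' _
      by_cases h0 : W = ∅
      · rw [h0, hc0, zero_mul, zero_mul]
      · have h2 : 2 ≤ (W ∪ W').card := by
          have h3 : 1 ≤ W.card := Finset.card_pos.2 (Finset.nonempty_iff_ne_empty.2 h0)
          have h4 : W.card ≤ (W ∪ W').card := Finset.card_le_card Finset.subset_union_left
          omega
        rw [zero_pow (by omega), mul_zero]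
  unfold ZCoef_g
  rw [Polynomial.eval_finsetSum]
  have h2 : ∀ W ∈ S.powerset, Polynomial.eval 0 (∑ W' ∈ S.powerset,
      Polynomial.C (c W * c W') * Polynomial.X ^ ((W ∪ W').card - 1)) =
      if W.card = 1 then c W ^ 2 else 0 := by
    intro W hW
    rw [← h1 W hW, Polynomial.eval_finsetSum]
    apply Finset.sum_congr rfl
    intro W' _
    rw [Polynomial.eval_mul, Polynomial.eval_C, Polynomial.eval_pow, Polynomial.eval_X]
  rw [Finset.sum_congr rfl h2, ← Finset.sum_filter, ← Finset.powersetCard_eq_filter,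
    Finset.powersetCard_one, Finset.sum_map]
  rfl

theorem coef {d : ℕ} (hd : 1 ≤ d) (S : Finset ι) (c : Finset ι → ℝ) (hc0 : c ∅ = 0)
    (hc : ∀ W ⊆ S, d < W.card → c W = 0) {M : ℝ}
    (hM : ∀ j < 2 * d, ex (node d j) S (fun Z => |∑ W ∈ Z.powerset, c W|) ≤ M) :
    ∑ i ∈ S, c {i} ^ 2 ≤ 4 * 4096 ^ d * M ^ 2 := by
  have h1 : |(ZCoef_g S c).eval 0| ≤ 256 ^ d * (4 * 16 ^ d * M ^ 2) := by
    apply extrap hd _ (ZCoef_deg hd S c hc)
    intro j hj
    obtain ⟨hq1, hq2⟩ := node_mem hd hj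
    have hq0 : 0 ≤ node d j := by linarith
    have hqp : 0 < node d j := by linarith
    have hq3 : node d j ≤ 1 := by linarith
    have h2 := l1l2 hq1 hq2 S d c hc
    have h3 : 0 ≤ ex (node d j) S (fun Z => |∑ W ∈ Z.powerset, c W|) :=
      ex_nonneg hq0 hq3 (fun Z _ => abs_nonneg _)
    have h4 : 0 ≤ ex (node d j) S (fun Z => (∑ W ∈ Z.powerset, c W) ^ 2) :=
      ex_nonneg hq0 hq3 (fun Z _ => sq_nonneg _)
    have h5 : (ex (node d j) S (fun Z => |∑ W ∈ Z.powerset, c W|)) ^ 2 ≤ M ^ 2 :=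
      pow_le_pow_left₀ h3 (hM j hj) 2
    have h6 : ex (node d j) S (fun Z => (∑ W ∈ Z.powerset, c W) ^ 2) ≤ 16 ^ d * M ^ 2 :=
      h2.trans (mul_le_mul_of_nonneg_left h5 (by positivity))
    rw [← ZCoef_eval S c hc0] at h4 h6
    have h7 : 0 ≤ (ZCoef_g S c).eval (node d j) := by
      by_contra hneg
      push Not at hneg
      nlinarith [mul_neg_of_pos_of_neg hqp hneg]
    rw [abs_of_nonneg h7]
    nlinarith [mul_le_mul_of_nonneg_right hq1 h7]
  rw [ZCoef_zero S c hc0] at h1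
  refine (le_abs_self _).trans (h1.trans (le_of_eq ?_))
  have h8 : (4096 : ℝ) ^ d = 256 ^ d * 16 ^ d := by
    rw [← mul_pow]; norm_num
  rw [h8]
  ring

/-- first moment form -/
theorem coef_sum {d : ℕ} (hd : 1 ≤ d) (S : Finset ι) (c : Finset ι → ℝ) (hc0 : c ∅ = 0)
    (hc : ∀ W ⊆ S, d < W.card → c W = 0) {M : ℝ} (hM0 : 0 ≤ M)
    (hM : ∀ j < 2 * d, ex (node d j) S (fun Z => |∑ W ∈ Z.powerset, c W|) ≤ M) :
    ∑ i ∈ S, |c {i}| ≤ √S.card * (2 * 64 ^ d * M) := by
  -- Cauchy-Schwarz from `coef`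
  have h1 := coef hd S c hc0 hc hM
  have h2 : (∑ i ∈ S, |c {i}|) ^ 2 ≤ S.card * ∑ i ∈ S, |c {i}| ^ 2 := sq_sum_le_card_mul_sum_sq
  have h3 : ∑ i ∈ S, |c {i}| ^ 2 = ∑ i ∈ S, c {i} ^ 2 :=
    Finset.sum_congr rfl (fun i _ => sq_abs _)
  rw [h3] at h2
  have h4 : (∑ i ∈ S, |c {i}|) ^ 2 ≤ (√S.card * (2 * 64 ^ d * M)) ^ 2 := by
    refine h2.trans ?_
    rw [mul_pow, Real.sq_sqrt (Nat.cast_nonneg _)]
    apply mul_le_mul_of_nonneg_left _ (Nat.cast_nonneg _)
    refine h1.trans (le_of_eq ?_)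
    have h5 : (4096 : ℝ) ^ d = (64 ^ d) ^ 2 := by
      rw [← pow_mul, mul_comm d 2, pow_mul]; norm_num
    rw [h5]
    ring
  exact (le_abs_self _).trans (abs_le_of_sq_le_sq h4 (by positivity))

end MP052029.Zr
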