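import Pool.Agent.Lib.MP_052029_lc.Defs

/-!
# Rectangle tests against cheap protocols: definitions (module ZDefs)

`mob F W`: Moebius coefficient, `F Z = ∑ W ⊆ Z, mob F W`.
`pr S f Z`: the average of `f x y` over all pairs of subsets of `S` with `x ∩ y = Z`.
`ex q S f`: the average of `f Z`, `Z` a random subset of `S` of density `q`.
`node d j`, `j < 2 d`: the `2 d` nodes in `[1/4, 1/2]`.
-/

set_option autoImplicit false

namespace MP052029.Zr

open Finset

section

variable {ι : Type*} [DecidableEq ι]

/-- Moebius coefficient -/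
def mob (F : Finset ι → ℝ) (W : Finset ι) : ℝ :=
  ∑ Z ∈ W.powerset, (-1 : ℝ) ^ (W.card - Z.card) * F Z

/-- average over the pairs of subsets of `S` with intersection `Z` -/
noncomputable def pr (S : Finset ι) (f : Finset ι → Finset ι → ℝ) (Z : Finset ι) : ℝ :=
  (∑ x ∈ S.powerset, ∑ y ∈ S.powerset, if x ∩ y = Z then f x y else 0) /
    3 ^ (S.card - Z.card)

/-- average over random subsets of `S` of density `q` -/
def ex (q : ℝ) (S : Finset ι) (f : Finset ι → ℝ) : ℝ :=
  ∑ Z ∈ S.powerset, q ^ Z.card * (1 - q) ^ (S.card - Z.card) * f Z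

end

/-- the nodes -/
noncomputable def node (d j : ℕ) : ℝ := (2 * d + 1 + j) / (8 * d)

end MP052029.Zr
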