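import Pool.Agent.Lib.MP_052029_lc.Z.ZBasic

/-!
# Module ZE1: entropy bounds the Hellinger influences on the cube of density 2/3

PROOF. `two_pt`: with `m = (2/3) a + (1/3) b`: `a log (a/m) >= (√a - √m)^2 + (a - m)` (from `log t <= t - 1` at `t = √(m/a)`), the same for `b`; weighted sum:
`negMulLog m - (2/3) negMulLog a - (1/3) negMulLog b >= (2/3)(√a-√m)^2 + (1/3)(√b-√m)^2 >= (2/9)(√a-√b)^2`.
`conv_pt`: Cauchy-Schwarz (the norm `√(2/3 p^2 + 1/3 q^2)` of `(√p, √q)`, triangle inequality).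
`budgetq`: induction on `S` (for all `f`). Step `insert e S`, `e ∉ S`, `f0 x = f x`, `f1 x = f (insert e x)`, `F0 = ex (2/3) S f0`, `F1 = ex (2/3) S f1`:
`ex (2/3) (insert e S) f = (1/3) F0 + (2/3) F1` (`ex_insert`). The term `i = e` is `(√F1 - √F0)^2`. For `i ∈ S`: `(insert e S).erase i = insert e (S.erase i)`,
`ex_insert` and `conv_pt` bound the term by `(2/3)` (term of `f1`) + `(1/3)` (term of `f0`). Then induction hypothesis and `two_pt`. See `budget` in Cube.lean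
for the same proof at density 1/2.
-/

set_option autoImplicit false

namespace MP052029.Zr

open Finset

private theorem ze1_log {a α : ℝ} (ha : 0 ≤ a) (hα : 0 < α) :
    2 * a - 2 * (√a * √α) ≤ a * Real.log a - a * Real.log α := by
  rcases eq_or_lt_of_le ha with h | h
  · simp [← h]
  · have hsa : 0 < √a := Real.sqrt_pos.mpr h
    have hsα : 0 < √α := Real.sqrt_pos.mpr hα
    have hl := Real.log_le_sub_one_of_pos (div_pos hsα hsa)
    rw [Real.log_div hsα.ne' hsa.ne', Real.log_sqrt hα.le, Real.log_sqrt ha] at hl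
    have haa : a = √a * √a := (Real.mul_self_sqrt ha).symm
    have h2 : 2 * a * (Real.log α / 2 - Real.log a / 2) ≤ 2 * a * (√α / √a - 1) :=
      mul_le_mul_of_nonneg_left hl (by linarith)
    have h3 : 2 * a * (√α / √a - 1) = 2 * (√a * √α) - 2 * a := by
      have : a * (√α / √a) = √a * √α := by
        nth_rewrite 1 [haa]
        field_simp
      nlinarith [this]
    nlinarith [h2, h3]

theorem two_pt {a b : ℝ} (ha : 0 ≤ a) (hb : 0 ≤ b) :
    (2 / 9) * (√a - √b) ^ 2 + (2 / 3) * Real.negMulLog a + (1 / 3) * Real.negMulLog b ≤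
      Real.negMulLog ((2 / 3) * a + (1 / 3) * b) := by
  rcases eq_or_lt_of_le (add_nonneg ha hb) with h | h
  · have ha0 : a = 0 := by linarith
    have hb0 : b = 0 := by linarith
    simp [ha0, hb0]
  · obtain ⟨m, hm⟩ : ∃ m, m = (2 / 3) * a + (1 / 3) * b := ⟨_, rfl⟩
    have hmp : 0 < m := by
      rw [hm]
      rcases eq_or_lt_of_le ha with h0 | h0
      · rw [← h0] at h ⊢
        linarith
      · linarith
    have h1 := ze1_log ha hmp
    have h2 := ze1_log hb hmp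
    have hsa := Real.mul_self_sqrt ha
    have hsb := Real.mul_self_sqrt hb
    have hsm := Real.mul_self_sqrt hmp.le
    rw [← hm]
    unfold Real.negMulLog
    obtain ⟨A, hA⟩ : ∃ A, A = √a := ⟨_, rfl⟩
    obtain ⟨B, hB⟩ : ∃ B, B = √b := ⟨_, rfl⟩
    obtain ⟨M, hM⟩ : ∃ M, M = √m := ⟨_, rfl⟩
    rw [← hA] at h1 hsa ⊢
    rw [← hB] at h2 hsb ⊢
    rw [← hM] at h1 h2 hsm
    have key : -m * Real.log m = -((2 / 3) * (a * Real.log m)) - (1 / 3) * (b * Real.log m) := by
      rw [hm]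
      ring
    rw [key]
    have hsq : (2 / 9) * (A - B) ^ 2 ≤ (2 / 3) * (2 * a - 2 * (A * M)) + (1 / 3) * (2 * b - 2 * (B * M)) := by
      have e1 : (2 / 3) * (2 * a - 2 * (A * M)) + (1 / 3) * (2 * b - 2 * (B * M)) - (2 / 9) * (A - B) ^ 2 =
          (M - ((2 / 3) * A + (1 / 3) * B)) ^ 2 + (2 * ((2 / 3) * a + (1 / 3) * b) - M * M -
            ((2 / 3) * (A * A) + (1 / 3) * (B * B))) := by ring
      have e2 : 2 * ((2 / 3) * a + (1 / 3) * b) - M * M - ((2 / 3) * (A * A) + (1 / 3) * (B * B)) = 0 := by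
        rw [hsa, hsb, hsm, hm]
        ring
      have e3 := sq_nonneg (M - ((2 / 3) * A + (1 / 3) * B))
      linarith
    linarith

theorem conv_pt {p q p' q' : ℝ} (hp : 0 ≤ p) (hq : 0 ≤ q) (hp' : 0 ≤ p') (hq' : 0 ≤ q') :
    (√((2 / 3) * p + (1 / 3) * q) - √((2 / 3) * p' + (1 / 3) * q')) ^ 2 ≤
      (2 / 3) * (√p - √p') ^ 2 + (1 / 3) * (√q - √q') ^ 2 := by
  have h1 := Real.mul_self_sqrt hp
  have h2 := Real.mul_self_sqrt hq
  have h3 := Real.mul_self_sqrt hp'
  have h4 := Real.mul_self_sqrt hq'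
  have h5 := Real.mul_self_sqrt (show 0 ≤ (2 / 3) * p + (1 / 3) * q by linarith)
  have h6 := Real.mul_self_sqrt (show 0 ≤ (2 / 3) * p' + (1 / 3) * q' by linarith)
  have hc : (2 / 3) * (√p * √p') + (1 / 3) * (√q * √q') ≤
      √((2 / 3) * p + (1 / 3) * q) * √((2 / 3) * p' + (1 / 3) * q') := by
    rw [← Real.sqrt_mul (show (0 : ℝ) ≤ (2 / 3) * p + (1 / 3) * q by linarith)]
    apply Real.le_sqrt_of_sq_le
    obtain ⟨A, hA⟩ : ∃ A, A = √p := ⟨_, rfl⟩
    obtain ⟨B, hB⟩ : ∃ B, B = √q := ⟨_, rfl⟩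
    obtain ⟨A', hA'⟩ : ∃ A, A = √p' := ⟨_, rfl⟩
    obtain ⟨B', hB'⟩ : ∃ B, B = √q' := ⟨_, rfl⟩
    rw [← hA] at h1 ⊢
    rw [← hB] at h2 ⊢
    rw [← hA'] at h3 ⊢
    rw [← hB'] at h4 ⊢
    rw [← h1, ← h2, ← h3, ← h4]
    have e1 : ((2 / 3) * (A * A) + (1 / 3) * (B * B)) * ((2 / 3) * (A' * A') + (1 / 3) * (B' * B')) -
        ((2 / 3) * (A * A') + (1 / 3) * (B * B')) ^ 2 = (2 / 9) * (A * B' - B * A') ^ 2 := by ring
    have e2 := sq_nonneg (A * B' - B * A')
    linarith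
  obtain ⟨X, hX⟩ : ∃ X, X = √((2 / 3) * p + (1 / 3) * q) := ⟨_, rfl⟩
  obtain ⟨X', hX'⟩ : ∃ X, X = √((2 / 3) * p' + (1 / 3) * q') := ⟨_, rfl⟩
  rw [← hX] at h5 hc ⊢
  rw [← hX'] at h6 hc ⊢
  have e1 : (X - X') ^ 2 = X * X + X' * X' - 2 * (X * X') := by ring
  have e2 : (2 / 3) * (√p - √p') ^ 2 + (1 / 3) * (√q - √q') ^ 2 =
      (2 / 3) * (√p * √p) + (2 / 3) * (√p' * √p') + (1 / 3) * (√q * √q) + (1 / 3) * (√q' * √q') -
        2 * ((2 / 3) * (√p * √p') + (1 / 3) * (√q * √q')) := by ring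
  rw [e1, e2, h1, h2, h3, h4, h5, h6]
  linarith

variable {ι : Type*} [DecidableEq ι]

theorem budgetq (S : Finset ι) (f : Finset ι → ℝ) (h0 : ∀ x, 0 ≤ f x) (h1 : ∀ x, f x ≤ 1) :
    (2 / 9) * ∑ i ∈ S, (√(ex (2 / 3) (S.erase i) (fun x => f (insert i x))) -
        √(ex (2 / 3) (S.erase i) f)) ^ 2 ≤
      Real.negMulLog (ex (2 / 3) S f) := by
  induction S using Finset.induction_on generalizing f with
  | empty =>
    rw [sum_empty, mul_zero, ex_empty]
    exact Real.negMulLog_nonneg (h0 _) (h1 _)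
  | insert e S he ih =>
    have i0 := ih f h0 h1
    have i1 := ih (fun x => f (insert e x)) (fun x => h0 _) (fun x => h1 _)
    have hn : ∀ (T : Finset ι) (g : Finset ι → ℝ), (∀ x, 0 ≤ g x) → 0 ≤ ex (2 / 3) T g :=
      fun T g hg => ex_nonneg (by norm_num) (by norm_num) (fun Z _ => hg Z)
    have ht := two_pt (hn S (fun x => f (insert e x)) (fun x => h0 _)) (hn S f h0)
    rw [sum_insert he, erase_insert he, ex_insert he]
    have hs : ∑ i ∈ S, (√(ex (2 / 3) ((insert e S).erase i) (fun x => f (insert i x))) -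
        √(ex (2 / 3) ((insert e S).erase i) f)) ^ 2 ≤
        (2 / 3) * ∑ i ∈ S, (√(ex (2 / 3) (S.erase i) (fun x => f (insert e (insert i x)))) -
          √(ex (2 / 3) (S.erase i) (fun x => f (insert e x)))) ^ 2 +
        (1 / 3) * ∑ i ∈ S, (√(ex (2 / 3) (S.erase i) (fun x => f (insert i x))) -
          √(ex (2 / 3) (S.erase i) f)) ^ 2 := by
      rw [mul_sum, mul_sum, ← sum_add_distrib]
      refine sum_le_sum fun i hi => ?_
      have hne : e ≠ i := fun h => he (h ▸ hi)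
      have he' : e ∉ S.erase i := fun h => he (mem_of_mem_erase h)
      rw [erase_insert_of_ne hne, ex_insert he', ex_insert he']
      have e1 : (fun Z => f (insert i (insert e Z))) = (fun Z => f (insert e (insert i Z))) := by
        funext Z
        exact congrArg f (insert_comm i e Z)
      rw [e1]
      have h2 := conv_pt (hn (S.erase i) (fun Z => f (insert e (insert i Z))) (fun x => h0 _))
        (hn (S.erase i) (fun Z => f (insert i Z)) (fun x => h0 _))
        (hn (S.erase i) (fun Z => f (insert e Z)) (fun x => h0 _))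
        (hn (S.erase i) f h0)
      have e2 : ∀ u v : ℝ, (1 - 2 / 3) * u + 2 / 3 * v = 2 / 3 * v + 1 / 3 * u := fun u v => by ring
      rw [e2, e2]
      exact h2
    have e2 : ∀ u v : ℝ, (1 - 2 / 3) * u + 2 / 3 * v = 2 / 3 * v + 1 / 3 * u := fun u v => by ring
    rw [e2]
    linarith

end MP052029.Zr
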