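import Pool.Agent.Lib.MP_052029_lc.Z.ZBasic

/-!
# Module ZE2: disjoint pairs through a random partition

PROOF. `pr_part`: induction on `S` (for all `a`, `b`). `S = ∅`: `ex_empty`, `pr` by `simp [pr]`. Step `insert e S`: left side by `pr_insert_not` is
`(pr S (a b) + pr S (a1 b) + pr S (a b1))/3` with `a1 x = a (insert e x)`, `b1 y = b (insert e y)`. Right side by `ex_insert` (density 1/2, variable `T`):
`e ∉ T`: `(insert e S) \ T = insert e (S \ T)`, `ex (2/3) (insert e (S \ T)) b = (1/3) ex b + (2/3) ex b1`;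
`e ∈ T`, `T = insert e T'`: `(insert e S) \ (insert e T') = S \ T'`, `ex (2/3) (insert e T') a = (1/3) ex a + (2/3) ex a1`.
Together `1/2 (1/3 ab + 2/3 ab1) + 1/2 (1/3 ab + 2/3 a1 b)`.
`pr_part_single`: `{i} = insert i ∅`, `S = insert i (S.erase i)`, `pr_insert_mem`, `pr_part`.
`half_mem`: `ex_insert` for `S = insert i (S.erase i)`: the part with `i ∉ T` is zero.
-/

set_option autoImplicit false

namespace MP052029.Zr

open Finset

variable {ι : Type*} [DecidableEq ι]

private theorem ze2_comb (S : Finset ι) (A B C : Finset ι → ℝ) (u v : ℝ) :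
    ex (1 / 2) S (fun T => A T * (u * B T + v * C T)) =
      u * ex (1 / 2) S (fun T => A T * B T) + v * ex (1 / 2) S (fun T => A T * C T) := by
  rw [← ex_mul, ← ex_mul, ← ex_add]
  refine ex_congr (fun T _ => ?_)
  ring

theorem pr_part (S : Finset ι) (a b : Finset ι → ℝ) :
    pr S (fun x y => a x * b y) ∅ =
      ex (1 / 2) S (fun T => ex (2 / 3) T a * ex (2 / 3) (S \ T) b) := by
  induction S using Finset.induction_on generalizing a b with
  | empty => simp [pr, ex]
  | insert e S he ih =>
    rw [pr_insert_not he (empty_subset S), ex_insert he]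
    have i1 := ih a b
    have i2 := ih (fun x => a (insert e x)) b
    have i3 := ih a (fun y => b (insert e y))
    rw [i1, i2, i3]
    have e1 : ex (1 / 2) S (fun T => ex (2 / 3) T a * ex (2 / 3) (insert e S \ T) b) =
        (1 - 2 / 3) * ex (1 / 2) S (fun T => ex (2 / 3) T a * ex (2 / 3) (S \ T) b) +
        2 / 3 * ex (1 / 2) S (fun T => ex (2 / 3) T a * ex (2 / 3) (S \ T) (fun y => b (insert e y))) := by
      rw [← ze2_comb]
      refine ex_congr (fun T hT => ?_)
      have h1 : e ∉ T := fun h => he (hT h)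
      have h2 : e ∉ S \ T := fun h => he (mem_sdiff.1 h).1
      rw [insert_sdiff_of_notMem _ h1, ex_insert h2]
    have e2 : ex (1 / 2) S (fun T => ex (2 / 3) (insert e T) a * ex (2 / 3) (insert e S \ insert e T) b) =
        (1 - 2 / 3) * ex (1 / 2) S (fun T => ex (2 / 3) T a * ex (2 / 3) (S \ T) b) +
        2 / 3 * ex (1 / 2) S (fun T => ex (2 / 3) T (fun x => a (insert e x)) * ex (2 / 3) (S \ T) b) := by
      have e3 : ∀ (f g : Finset ι → ℝ), ex (1 / 2) S (fun T => f T * g T) =
          ex (1 / 2) S (fun T => g T * f T) := fun f g => ex_congr (fun T _ => mul_comm _ _)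
      rw [e3 (fun T => ex (2 / 3) T a) (fun T => ex (2 / 3) (S \ T) b),
        e3 (fun T => ex (2 / 3) T (fun x => a (insert e x))) (fun T => ex (2 / 3) (S \ T) b), ← ze2_comb]
      refine ex_congr (fun T hT => ?_)
      have h1 : e ∉ T := fun h => he (hT h)
      have h3 : insert e S \ insert e T = S \ T := by
        ext x
        simp only [mem_sdiff, mem_insert, not_or]
        constructor
        · rintro ⟨h4 | h4, h5, h6⟩
          · exact absurd h4 h5
          · exact ⟨h4, h6⟩
        · rintro ⟨h4, h5⟩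
          exact ⟨Or.inr h4, fun h => he (h ▸ h4), h5⟩
      rw [h3, ex_insert h1, mul_comm]
    rw [e1, e2]
    ring

theorem pr_part_single {S : Finset ι} {i : ι} (hi : i ∈ S) (a b : Finset ι → ℝ) :
    pr S (fun x y => a x * b y) {i} =
      ex (1 / 2) (S.erase i) (fun T => ex (2 / 3) T (fun x => a (insert i x)) *
        ex (2 / 3) (S.erase i \ T) (fun y => b (insert i y))) := by
  have h := pr_insert_mem (notMem_erase i S) (empty_subset (S.erase i)) (fun x y => a x * b y)
  rw [insert_erase hi] at h
  have h1 : insert i (∅ : Finset ι) = {i} := by simp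
  rw [h1] at h
  rw [h]
  exact pr_part (S.erase i) (fun x => a (insert i x)) (fun y => b (insert i y))

/-- three contexts: `G ∅` seen from the coordinate `i` -/
theorem pr_part_erase {S : Finset ι} {i : ι} (hi : i ∈ S) (a b : Finset ι → ℝ) :
    pr S (fun x y => a x * b y) ∅ =
      ex (1 / 2) (S.erase i) (fun T =>
        (ex (2 / 3) T (fun x => a (insert i x)) * ex (2 / 3) (S.erase i \ T) b +
          ex (2 / 3) T a * ex (2 / 3) (S.erase i \ T) (fun y => b (insert i y)) +
          ex (2 / 3) T a * ex (2 / 3) (S.erase i \ T) b) / 3) := by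
  have h := pr_insert_not (notMem_erase i S) (empty_subset (S.erase i)) (fun x y => a x * b y)
  rw [insert_erase hi] at h
  have i1 := pr_part (S.erase i) a b
  have i2 := pr_part (S.erase i) (fun x => a (insert i x)) b
  have i3 := pr_part (S.erase i) a (fun y => b (insert i y))
  rw [h, i1, i2, i3]
  have e1 : ∀ A B C : Finset ι → ℝ, ex (1 / 2) (S.erase i) (fun T => (A T + B T + C T) / 3) =
      (ex (1 / 2) (S.erase i) C + ex (1 / 2) (S.erase i) A + ex (1 / 2) (S.erase i) B) / 3 := by
    intro A B C
    have e2 : (ex (1 / 2) (S.erase i) C + ex (1 / 2) (S.erase i) A + ex (1 / 2) (S.erase i) B) / 3 =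
      1 / 3 * (ex (1 / 2) (S.erase i) C + ex (1 / 2) (S.erase i) A + ex (1 / 2) (S.erase i) B) := by ring
    rw [e2, ← ex_add, ← ex_add, ← ex_mul]
    refine ex_congr (fun T _ => ?_)
    ring
  rw [e1 (fun T => ex (2 / 3) T (fun x => a (insert i x)) * ex (2 / 3) (S.erase i \ T) b)
    (fun T => ex (2 / 3) T a * ex (2 / 3) (S.erase i \ T) (fun y => b (insert i y)))
    (fun T => ex (2 / 3) T a * ex (2 / 3) (S.erase i \ T) b)]

private theorem ze2_notMem {S T : Finset ι} {i : ι} (h : T ⊆ S.erase i) : i ∉ T :=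
  fun h1 => notMem_erase i S (h h1)

theorem half_mem {S : Finset ι} {i : ι} (hi : i ∈ S) (h : Finset ι → ℝ) :
    ex (1 / 2) (S.erase i) h =
      2 * ex (1 / 2) S (fun T => if i ∈ T then h (T.erase i) else 0) := by
  have e := ex_insert (notMem_erase i S) (1 / 2) (fun T => if i ∈ T then h (T.erase i) else 0)
  rw [insert_erase hi] at e
  rw [e]
  have e1 : ex (1 / 2) (S.erase i) (fun T => if i ∈ T then h (T.erase i) else 0) = 0 := by
    refine Eq.trans (ex_congr (g := fun _ => 0) (fun T hT => if_neg (ze2_notMem hT))) ?_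
    exact ex_const (1 / 2) 0 (S.erase i)
  have e2 : ex (1 / 2) (S.erase i) (fun Z => if i ∈ insert i Z then h ((insert i Z).erase i) else 0) =
      ex (1 / 2) (S.erase i) h := by
    refine ex_congr (fun T hT => ?_)
    rw [if_pos (mem_insert_self i T), erase_insert (ze2_notMem hT)]
  rw [e1, e2]
  ring

theorem half_not_mem {S : Finset ι} {i : ι} (hi : i ∈ S) (h : Finset ι → ℝ) :
    ex (1 / 2) (S.erase i) h = 2 * ex (1 / 2) S (fun T => if i ∈ T then 0 else h T) := by
  have e := ex_insert (notMem_erase i S) (1 / 2) (fun T => if i ∈ T then 0 else h T)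
  rw [insert_erase hi] at e
  rw [e]
  have e1 : ex (1 / 2) (S.erase i) (fun T => if i ∈ T then 0 else h T) = ex (1 / 2) (S.erase i) h :=
    ex_congr (fun T hT => if_neg (ze2_notMem hT))
  have e2 : ex (1 / 2) (S.erase i) (fun Z => if i ∈ insert i Z then 0 else h (insert i Z)) = 0 := by
    refine Eq.trans (ex_congr (g := fun _ => 0) (fun T hT => if_pos (mem_insert_self i T))) ?_
    exact ex_const (1 / 2) 0 (S.erase i)
  rw [e1, e2]
  ring

end MP052029.Zr
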