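import Pool.Agent.Lib.MP_052029_lc.Z.ZE1
import Pool.Agent.Lib.MP_052029_lc.Z.ZE2

/-!
# Module ZE3: corruption with the square root of the entropy

PROOF. `pt`: with `d = a1 - a0`, `e = b1 - b0` the left side is `-(2/3)(d b0 + a0 e) - d e`; distinguish the signs of `d`, `e`
(if `d < 0` then `|d| <= a0`, so `-d e <= a0 |e|` ... ; if `e < 0` then `|e| <= b0`; both negative: `-d e <= 0`).
`amgm`: `|a1 - a0| = |√a1 - √a0| (√a1 + √a0)`, `(√a1 + √a0)^2 <= 2 (a1 + a0)`.
`corr`: for `i ∈ S`, `T ⊆ S.erase i`, `U = S.erase i \ T` let `a1 = ex (2/3) T (a (insert i .))`, `a0 = ex (2/3) T a`, `b1`, `b0` the same for `U`, `b`.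
`pr_part_single`, `pr_part_erase`, `pt`: `(G ∅ - G {i})^+ <= ex (1/2) (S.erase i) (|a1 - a0| b0 + a0 |b1 - b0|)`
`<= lam ex ((√a1-√a0)^2 b0 + a0 (√b1-√b0)^2) + 1/(2 lam) ex ((a1+a0) b0 + a0 (b1+b0))`. With `al T = ex (2/3) T a`, `be T = ex (2/3) (S \ T) b`:
`half_mem` (first summands) and `half_not_mem` (second summands): for `i ∈ T`: `S.erase i \ T.erase i = S \ T`, `a1 + a0 <= 3 al T` (`ex_insert`);
for `i ∉ T`: `S \ T = insert i (S.erase i \ T)`, `b1 + b0 <= 3 be T`.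
Sum over `i ∈ S`, `budgetq` for `T` and for `S \ T`:
`<= lam * 2 * (9/2) * ex (1/2) S (be negMulLog(al) + al negMulLog(be)) + 1/(2 lam) * 2 * 3 * ex (1/2) S (|S| al be)`, and `be negMulLog(al) + al negMulLog(be) = negMulLog (al be)`
(`Real.negMulLog_mul`), Jensen (`Real.concaveOn_negMulLog`, module lemma `ex_jensen`).
-/

set_option autoImplicit false

namespace MP052029.Zr

open Finset

theorem pt {a0 a1 b0 b1 : ℝ} (ha0 : 0 ≤ a0) (ha1 : 0 ≤ a1) (hb0 : 0 ≤ b0) (hb1 : 0 ≤ b1) :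
    (a1 * b0 + a0 * b1 + a0 * b0) / 3 - a1 * b1 ≤ |a1 - a0| * b0 + a0 * |b1 - b0| := by
  rcases le_total a0 a1 with h1 | h1
  · rcases le_total b0 b1 with h2 | h2
    · rw [abs_of_nonneg (by linarith), abs_of_nonneg (by linarith)]
      nlinarith [mul_nonneg (sub_nonneg.2 h1) (sub_nonneg.2 h2), mul_nonneg (sub_nonneg.2 h1) hb0,
        mul_nonneg (sub_nonneg.2 h2) ha0]
    · rw [abs_of_nonneg (by linarith), abs_of_nonpos (by linarith)]
      nlinarith [mul_nonneg (sub_nonneg.2 h1) (sub_nonneg.2 h2), mul_nonneg (sub_nonneg.2 h1) hb0,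
        mul_nonneg (sub_nonneg.2 h2) ha0, mul_nonneg (sub_nonneg.2 h1) hb1]
  · rcases le_total b0 b1 with h2 | h2
    · rw [abs_of_nonpos (by linarith), abs_of_nonneg (by linarith)]
      nlinarith [mul_nonneg (sub_nonneg.2 h1) (sub_nonneg.2 h2), mul_nonneg (sub_nonneg.2 h1) hb0,
        mul_nonneg (sub_nonneg.2 h2) ha0, mul_nonneg (sub_nonneg.2 h2) ha1]
    · rw [abs_of_nonpos (by linarith), abs_of_nonpos (by linarith)]
      nlinarith [mul_nonneg (sub_nonneg.2 h1) (sub_nonneg.2 h2), mul_nonneg (sub_nonneg.2 h1) hb0,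
        mul_nonneg (sub_nonneg.2 h2) ha0]

theorem amgm {a0 a1 lam : ℝ} (ha0 : 0 ≤ a0) (ha1 : 0 ≤ a1) (hl : 0 < lam) :
    |a1 - a0| ≤ lam * (√a1 - √a0) ^ 2 + (a1 + a0) / (2 * lam) := by
  have h0 := Real.mul_self_sqrt ha0
  have h1 := Real.mul_self_sqrt ha1
  obtain ⟨A, hA⟩ : ∃ A, A = √a0 := ⟨_, rfl⟩
  obtain ⟨B, hB⟩ : ∃ B, B = √a1 := ⟨_, rfl⟩
  have hA0 : 0 ≤ A := by rw [hA]; exact Real.sqrt_nonneg _
  have hB0 : 0 ≤ B := by rw [hB]; exact Real.sqrt_nonneg _
  rw [← hA] at h0 ⊢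
  rw [← hB] at h1 ⊢
  have e1 : a1 - a0 = (B - A) * (B + A) := by rw [← h0, ← h1]; ring
  rw [e1, abs_mul, abs_of_nonneg (by linarith : 0 ≤ B + A)]
  have h2 : (B + A) ^ 2 ≤ 2 * (a1 + a0) := by
    rw [← h0, ← h1]
    nlinarith [sq_nonneg (B - A)]
  have h3 : |B - A| * (B + A) ≤ lam * (B - A) ^ 2 + (B + A) ^ 2 / (4 * lam) := by
    have h4 : (B - A) ^ 2 = |B - A| ^ 2 := (sq_abs _).symm
    rw [h4]
    have h5 : lam * |B - A| ^ 2 + (B + A) ^ 2 / (4 * lam) - |B - A| * (B + A) =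
        (2 * lam * |B - A| - (B + A)) ^ 2 / (4 * lam) := by
      field_simp
      ring
    have h6 : 0 ≤ (2 * lam * |B - A| - (B + A)) ^ 2 / (4 * lam) := by positivity
    linarith
  have h4 : (B + A) ^ 2 / (4 * lam) ≤ (a1 + a0) / (2 * lam) := by
    have e2 : (a1 + a0) / (2 * lam) = (2 * (a1 + a0)) / (4 * lam) := by
      field_simp
      ring
    rw [e2]
    exact div_le_div_of_nonneg_right h2 (by positivity)
  linarith

variable {ι : Type*} [DecidableEq ι]

theorem ex_jensen (S : Finset ι) (f : Finset ι → ℝ) (h0 : ∀ T, 0 ≤ f T) :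
    ex (1 / 2) S (fun T => Real.negMulLog (f T)) ≤ Real.negMulLog (ex (1 / 2) S f) := by
  have h1 := Real.concaveOn_negMulLog.le_map_sum (t := S.powerset)
    (w := fun Z => (1 / 2 : ℝ) ^ Z.card * (1 - 1 / 2) ^ (S.card - Z.card)) (p := f)
    (fun Z _ => by positivity) (by
      have := ex_const (1 / 2) 1 S
      unfold ex at this
      simpa using this) (fun Z _ => h0 Z)
  simpa [ex, smul_eq_mul] using h1

private noncomputable def dl (T : Finset ι) (a : Finset ι → ℝ) (i : ι) : ℝ :=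
  (√(ex (2 / 3) (T.erase i) (fun x => a (insert i x))) - √(ex (2 / 3) (T.erase i) a)) ^ 2

private theorem ze3_nn (T : Finset ι) (g : Finset ι → ℝ) (hg : ∀ x, 0 ≤ g x) : 0 ≤ ex (2 / 3) T g :=
  ex_nonneg (by norm_num) (by norm_num) (fun Z _ => hg Z)

private theorem ze3_le_one (T : Finset ι) (g : Finset ι → ℝ) (hg : ∀ x, g x ≤ 1) :
    ex (2 / 3) T g ≤ 1 := by
  rw [← ex_const (2 / 3) 1 T]
  exact ex_mono (by norm_num) (by norm_num) (fun Z _ => hg Z)

private theorem ze3_three {T : Finset ι} {i : ι} (hi : i ∈ T) (a : Finset ι → ℝ) (ha : ∀ x, 0 ≤ a x) :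
    ex (2 / 3) (T.erase i) (fun x => a (insert i x)) + ex (2 / 3) (T.erase i) a ≤
      3 * ex (2 / 3) T a := by
  have e := ex_insert (notMem_erase i T) (2 / 3) a
  rw [insert_erase hi] at e
  rw [e]
  have h1 := ze3_nn (T.erase i) (fun x => a (insert i x)) (fun x => ha _)
  linarith

/-- one coordinate -/
private theorem ze3_coord {T : Finset ι} {i : ι} (hi : i ∈ T) (a : Finset ι → ℝ) (ha : ∀ x, 0 ≤ a x)
    {lam : ℝ} (hl : 0 < lam) :
    |ex (2 / 3) (T.erase i) (fun x => a (insert i x)) - ex (2 / 3) (T.erase i) a| ≤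
      lam * dl T a i + 3 / (2 * lam) * ex (2 / 3) T a := by
  have h1 := amgm (ze3_nn (T.erase i) a ha) (ze3_nn (T.erase i) (fun x => a (insert i x)) (fun x => ha _)) hl
  have h2 : (ex (2 / 3) (T.erase i) (fun x => a (insert i x)) + ex (2 / 3) (T.erase i) a) / (2 * lam) ≤
      3 / (2 * lam) * ex (2 / 3) T a := by
    rw [div_mul_eq_mul_div]
    exact div_le_div_of_nonneg_right (ze3_three hi a ha) (by positivity)
  unfold dl
  linarith

/-- the sum over the coordinates -/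
private theorem ze3_sum (T : Finset ι) (a : Finset ι → ℝ) (ha : ∀ x, 0 ≤ a x) (ha1 : ∀ x, a x ≤ 1)
    {lam : ℝ} (hl : 0 < lam) :
    ∑ i ∈ T, |ex (2 / 3) (T.erase i) (fun x => a (insert i x)) - ex (2 / 3) (T.erase i) a| ≤
      9 / 2 * lam * Real.negMulLog (ex (2 / 3) T a) + 3 / (2 * lam) * T.card * ex (2 / 3) T a := by
  have h1 : ∑ i ∈ T, |ex (2 / 3) (T.erase i) (fun x => a (insert i x)) - ex (2 / 3) (T.erase i) a| ≤
      ∑ i ∈ T, (lam * dl T a i + 3 / (2 * lam) * ex (2 / 3) T a) :=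
    sum_le_sum (fun i hi => ze3_coord hi a ha hl)
  rw [sum_add_distrib, ← mul_sum, sum_const, nsmul_eq_mul] at h1
  have h2 := budgetq T a ha ha1
  have h3 : ∑ i ∈ T, dl T a i ≤ 9 / 2 * Real.negMulLog (ex (2 / 3) T a) := by
    unfold dl
    linarith
  have h4 := mul_le_mul_of_nonneg_left h3 hl.le
  have e1 : (T.card : ℝ) * (3 / (2 * lam) * ex (2 / 3) T a) = 3 / (2 * lam) * T.card * ex (2 / 3) T a := by
    ring
  linarith

private theorem ze3_erase {S T : Finset ι} {i : ι} (hT : i ∈ T) : S.erase i \ T.erase i = S \ T := by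
  ext x
  simp only [mem_sdiff, mem_erase, not_and]
  constructor
  · rintro ⟨⟨h1, h2⟩, h3⟩
    exact ⟨h2, h3 h1⟩
  · rintro ⟨h1, h2⟩
    have h3 : x ≠ i := fun h => h2 (h ▸ hT)
    exact ⟨⟨h3, h1⟩, fun _ => h2⟩

private theorem ze3_erase2 {S T : Finset ι} {i : ι} : S.erase i \ T = (S \ T).erase i := by
  ext x
  simp only [mem_sdiff, mem_erase]
  tauto

/-- the negative part of one difference -/
private theorem ze3_one {S : Finset ι} {i : ι} (hi : i ∈ S) (a b : Finset ι → ℝ) (ha0 : ∀ x, 0 ≤ a x)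
    (hb0 : ∀ x, 0 ≤ b x) :
    max 0 (pr S (fun x y => a x * b y) ∅ - pr S (fun x y => a x * b y) {i}) ≤
      2 * ex (1 / 2) S (fun T =>
        (if i ∈ T then |ex (2 / 3) (T.erase i) (fun x => a (insert i x)) - ex (2 / 3) (T.erase i) a| *
          ex (2 / 3) (S \ T) b else 0) +
        (if i ∈ T then 0 else ex (2 / 3) T a *
          |ex (2 / 3) ((S \ T).erase i) (fun y => b (insert i y)) - ex (2 / 3) ((S \ T).erase i) b|)) := by
  obtain ⟨F, hF⟩ : ∃ F : Finset ι → ℝ, F = fun T =>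
    |ex (2 / 3) T (fun x => a (insert i x)) - ex (2 / 3) T a| * ex (2 / 3) (S.erase i \ T) b := ⟨_, rfl⟩
  obtain ⟨G, hG⟩ : ∃ G : Finset ι → ℝ, G = fun T =>
    ex (2 / 3) T a * |ex (2 / 3) (S.erase i \ T) (fun y => b (insert i y)) -
      ex (2 / 3) (S.erase i \ T) b| := ⟨_, rfl⟩
  have h1 : pr S (fun x y => a x * b y) ∅ - pr S (fun x y => a x * b y) {i} ≤
      ex (1 / 2) (S.erase i) (fun T => F T + G T) := by
    rw [pr_part_erase hi, pr_part_single hi, sub_le_iff_le_add, ← ex_add]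
    refine ex_mono (by norm_num) (by norm_num) (fun T _ => ?_)
    have h2 := pt (ze3_nn T a ha0) (ze3_nn T (fun x => a (insert i x)) (fun x => ha0 _))
      (ze3_nn (S.erase i \ T) b hb0) (ze3_nn (S.erase i \ T) (fun y => b (insert i y)) (fun x => hb0 _))
    rw [hF, hG]
    simp only
    linarith
  have h0 : 0 ≤ ex (1 / 2) (S.erase i) (fun T => F T + G T) := by
    refine ex_nonneg (by norm_num) (by norm_num) (fun T _ => ?_)
    rw [hF, hG]
    exact add_nonneg (mul_nonneg (abs_nonneg _) (ze3_nn _ b hb0)) (mul_nonneg (ze3_nn _ a ha0) (abs_nonneg _))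
  refine (max_le h0 h1).trans (le_of_eq ?_)
  rw [ex_add, half_mem hi F, half_not_mem hi G, ex_add]
  have e1 : ex (1 / 2) S (fun T => if i ∈ T then F (T.erase i) else 0) = ex (1 / 2) S (fun T =>
      if i ∈ T then |ex (2 / 3) (T.erase i) (fun x => a (insert i x)) - ex (2 / 3) (T.erase i) a| *
          ex (2 / 3) (S \ T) b else 0) := by
    refine ex_congr (fun T _ => ?_)
    by_cases h : i ∈ T
    · rw [if_pos h, if_pos h, hF]
      simp only
      rw [ze3_erase h]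
    · rw [if_neg h, if_neg h]
  have e2 : ex (1 / 2) S (fun T => if i ∈ T then 0 else G T) = ex (1 / 2) S (fun T =>
      if i ∈ T then 0 else ex (2 / 3) T a *
          |ex (2 / 3) ((S \ T).erase i) (fun y => b (insert i y)) - ex (2 / 3) ((S \ T).erase i) b|) := by
    refine ex_congr (fun T _ => ?_)
    by_cases h : i ∈ T
    · rw [if_pos h, if_pos h]
    · rw [if_neg h, if_neg h, hG]
      simp only
      rw [ze3_erase2]
  rw [e1, e2]
  ring

theorem corr (S : Finset ι) (a b : Finset ι → ℝ) (ha0 : ∀ x, 0 ≤ a x) (ha1 : ∀ x, a x ≤ 1)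
    (hb0 : ∀ x, 0 ≤ b x) (hb1 : ∀ x, b x ≤ 1) {lam : ℝ} (hl : 0 < lam) :
    ∑ i ∈ S, max 0 (pr S (fun x y => a x * b y) ∅ - pr S (fun x y => a x * b y) {i}) ≤
      9 * lam * Real.negMulLog (pr S (fun x y => a x * b y) ∅) +
        3 * S.card / lam * pr S (fun x y => a x * b y) ∅ := by
  have h1 := sum_le_sum (fun i (hi : i ∈ S) => ze3_one hi a b ha0 hb0)
  refine h1.trans ?_
  rw [← mul_sum, ← ex_sum, pr_part]
  have hj := ex_jensen S (fun T => ex (2 / 3) T a * ex (2 / 3) (S \ T) b)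
    (fun T => mul_nonneg (ze3_nn _ a ha0) (ze3_nn _ b hb0))
  have h2 : ex (1 / 2) S (fun T => ∑ i ∈ S, (
        (if i ∈ T then |ex (2 / 3) (T.erase i) (fun x => a (insert i x)) - ex (2 / 3) (T.erase i) a| *
          ex (2 / 3) (S \ T) b else 0) +
        (if i ∈ T then 0 else ex (2 / 3) T a *
          |ex (2 / 3) ((S \ T).erase i) (fun y => b (insert i y)) - ex (2 / 3) ((S \ T).erase i) b|))) ≤
      ex (1 / 2) S (fun T => 9 / 2 * lam * Real.negMulLog (ex (2 / 3) T a * ex (2 / 3) (S \ T) b) +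
        3 / (2 * lam) * S.card * (ex (2 / 3) T a * ex (2 / 3) (S \ T) b)) := by
    refine ex_mono (by norm_num) (by norm_num) (fun T hT => ?_)
    rw [sum_add_distrib]
    have e1 : ∑ i ∈ S, (if i ∈ T then |ex (2 / 3) (T.erase i) (fun x => a (insert i x)) -
        ex (2 / 3) (T.erase i) a| * ex (2 / 3) (S \ T) b else 0) =
        (∑ i ∈ T, |ex (2 / 3) (T.erase i) (fun x => a (insert i x)) -
          ex (2 / 3) (T.erase i) a|) * ex (2 / 3) (S \ T) b := by
      rw [sum_ite_mem, inter_eq_right.2 hT, sum_mul]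
    have e2 : ∑ i ∈ S, (if i ∈ T then 0 else ex (2 / 3) T a *
        |ex (2 / 3) ((S \ T).erase i) (fun y => b (insert i y)) - ex (2 / 3) ((S \ T).erase i) b|) =
        ex (2 / 3) T a * ∑ i ∈ S \ T, |ex (2 / 3) ((S \ T).erase i) (fun y => b (insert i y)) -
          ex (2 / 3) ((S \ T).erase i) b| := by
      rw [mul_sum, ← sum_sdiff hT]
      have e3 : ∑ i ∈ T, (if i ∈ T then 0 else ex (2 / 3) T a *
          |ex (2 / 3) ((S \ T).erase i) (fun y => b (insert i y)) - ex (2 / 3) ((S \ T).erase i) b|) = 0 :=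
        sum_eq_zero (fun i hi => if_pos hi)
      rw [e3, add_zero]
      exact sum_congr rfl (fun i hi => if_neg (mem_sdiff.1 hi).2)
    rw [e1, e2, Real.negMulLog_mul]
    have h3 := ze3_sum T a ha0 ha1 hl
    have h4 := ze3_sum (S \ T) b hb0 hb1 hl
    have hA := ze3_nn T a ha0
    have hB := ze3_nn (S \ T) b hb0
    have h5 := mul_le_mul_of_nonneg_right h3 hB
    have h6 := mul_le_mul_of_nonneg_left h4 hA
    have h7 : ((S \ T).card : ℝ) = S.card - T.card := by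
      rw [card_sdiff_of_subset hT, Nat.cast_sub (card_le_card hT)]
    rw [h7] at h6
    have e4 : 9 / 2 * lam * (ex (2 / 3) (S \ T) b * Real.negMulLog (ex (2 / 3) T a) +
        ex (2 / 3) T a * Real.negMulLog (ex (2 / 3) (S \ T) b)) +
        3 / (2 * lam) * S.card * (ex (2 / 3) T a * ex (2 / 3) (S \ T) b) =
        (9 / 2 * lam * Real.negMulLog (ex (2 / 3) T a) + 3 / (2 * lam) * T.card * ex (2 / 3) T a) *
          ex (2 / 3) (S \ T) b +
        ex (2 / 3) T a * (9 / 2 * lam * Real.negMulLog (ex (2 / 3) (S \ T) b) +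
          3 / (2 * lam) * (S.card - T.card) * ex (2 / 3) (S \ T) b) := by ring
    rw [e4]
    exact add_le_add h5 h6
  have h3 := mul_le_mul_of_nonneg_left h2 (by norm_num : (0 : ℝ) ≤ 2)
  refine h3.trans ?_
  rw [ex_add, ex_mul, ex_mul]
  have h4 := mul_le_mul_of_nonneg_left hj (by positivity : 0 ≤ 9 * lam)
  have e5 : 2 * (9 / 2 * lam * ex (1 / 2) S (fun Z => Real.negMulLog (ex (2 / 3) Z a * ex (2 / 3) (S \ Z) b)) +
      3 / (2 * lam) * S.card * ex (1 / 2) S (fun Z => ex (2 / 3) Z a * ex (2 / 3) (S \ Z) b)) =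
      9 * lam * ex (1 / 2) S (fun Z => Real.negMulLog (ex (2 / 3) Z a * ex (2 / 3) (S \ Z) b)) +
      3 * S.card / lam * ex (1 / 2) S (fun Z => ex (2 / 3) Z a * ex (2 / 3) (S \ Z) b) := by
    field_simp
  rw [e5]
  linarith

end MP052029.Zr
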