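import Pool.Agent.Lib.MP_052029_lc.Z.ZBasic
import Pool.Agent.Lib.MP_052029_lc.ZeroInfo

/-!
# Module ZPa: averages over pairs of vectors and over pairs of sets

`ind x` is the indicator function of the set `x`. `oneAvg i f` is the average of `f x y` over all pairs whose only common element is `i`, `noneAvg f`
the average over all disjoint pairs.

PROOF. `pr_oneAvg`, `pr_noneAvg`: the bijection `x ↦ ind x` between `Finset (Fin n)` and `Fin n → Bool` (`Fintype.sum_equiv` or `Finset.sum_bij'`,
inverse `v ↦ univ.filter (v · = true)`); `univ.powerset = univ`; `x ∩ y = {i}` iff for all `j`: `(ind x j = true ∧ ind y j = true) ↔ j = i`.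
`disj_ind`: `Disj (ind x) (ind y) ↔ x ∩ y = ∅`.
-/

set_option autoImplicit false

namespace MP052029.Zr

open Finset

/-- indicator function -/
def ind {n : ℕ} (x : Finset (Fin n)) : Fin n → Bool := fun i => decide (i ∈ x)

/-- average over all pairs whose only common element is `i` -/
noncomputable def oneAvg {n : ℕ} (i : Fin n) (f : (Fin n → Bool) → (Fin n → Bool) → ℝ) : ℝ :=
  (∑ x, ∑ y, if (∀ j, (x j = true ∧ y j = true) ↔ j = i) then f x y else 0) / 3 ^ (n - 1)

open Classical in
/-- average over all disjoint pairs -/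
noncomputable def noneAvg {n : ℕ} (f : (Fin n → Bool) → (Fin n → Bool) → ℝ) : ℝ :=
  (∑ x, ∑ y, if Disj x y then f x y else 0) / 3 ^ n

/-- Sets and their indicator functions. -/
private def indEquiv (n : ℕ) : Finset (Fin n) ≃ (Fin n → Bool) where
  toFun := ind
  invFun v := univ.filter fun i => v i = true
  left_inv x := by
    ext i
    simp [ind]
  right_inv v := by
    funext i
    simp only [ind, mem_filter, mem_univ, true_and]
    cases v i <;> simp

private theorem sum_ind {n : ℕ} (g : (Fin n → Bool) → ℝ) :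
    ∑ x ∈ (univ : Finset (Fin n)).powerset, g (ind x) = ∑ v, g v := by
  rw [powerset_univ]
  exact Fintype.sum_equiv (indEquiv n) _ _ fun x => rfl

private theorem inter_single {n : ℕ} (i : Fin n) (x y : Finset (Fin n)) :
    x ∩ y = {i} ↔ ∀ j, (ind x j = true ∧ ind y j = true) ↔ j = i := by
  rw [Finset.ext_iff]
  refine forall_congr' fun j => ?_
  simp only [ind, mem_inter, mem_singleton, decide_eq_true_eq]

theorem disj_ind {n : ℕ} (x y : Finset (Fin n)) : Disj (ind x) (ind y) ↔ x ∩ y = ∅ := by
  rw [Finset.eq_empty_iff_forall_notMem]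
  simp only [Disj, ind, mem_inter, decide_eq_true_eq, not_exists]

theorem pr_oneAvg {n : ℕ} (i : Fin n) (f : (Fin n → Bool) → (Fin n → Bool) → ℝ) :
    pr univ (fun x y => f (ind x) (ind y)) {i} = oneAvg i f := by
  unfold pr oneAvg
  rw [card_univ, Fintype.card_fin, card_singleton]
  congr 1
  rw [← sum_ind fun x => ∑ y, if (∀ j, (x j = true ∧ y j = true) ↔ j = i) then f x y else 0]
  refine sum_congr rfl fun x _ => ?_
  rw [← sum_ind fun y => if (∀ j, (ind x j = true ∧ y j = true) ↔ j = i) then f (ind x) y else 0]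
  refine sum_congr rfl fun y _ => ?_
  by_cases h : x ∩ y = {i}
  · rw [if_pos h, if_pos ((inter_single i x y).1 h)]
  · rw [if_neg h, if_neg fun h' => h ((inter_single i x y).2 h')]

theorem pr_noneAvg {n : ℕ} (f : (Fin n → Bool) → (Fin n → Bool) → ℝ) :
    pr univ (fun x y => f (ind x) (ind y)) ∅ = noneAvg f := by
  classical
  unfold pr noneAvg
  rw [card_univ, Fintype.card_fin, card_empty, Nat.sub_zero]
  congr 1
  have h1 : (∑ x : Fin n → Bool, ∑ y, if Disj x y then f x y else 0) =
      ∑ x ∈ (univ : Finset (Fin n)).powerset, ∑ y ∈ (univ : Finset (Fin n)).powerset,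
        if Disj (ind x) (ind y) then f (ind x) (ind y) else 0 := by
    rw [← sum_ind fun x => ∑ y, if Disj x y then f x y else 0]
    refine sum_congr rfl fun x _ => ?_
    rw [← sum_ind fun y => if Disj (ind x) y then f (ind x) y else 0]
  refine Eq.trans ?_ (h1.symm.trans ?_)
  · refine sum_congr rfl fun x _ => sum_congr rfl fun y _ => ?_
    by_cases h : x ∩ y = ∅
    · rw [if_pos h, if_pos ((disj_ind x y).2 h)]
    · rw [if_neg h, if_neg fun h' => h ((disj_ind x y).1 h')]
  · refine sum_congr rfl fun x _ => sum_congr rfl fun y _ => ?_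
    by_cases h : Disj x y
    · simp [h]
    · simp [h]

theorem oneAvg_mono {n : ℕ} {i : Fin n} {f g : (Fin n → Bool) → (Fin n → Bool) → ℝ}
    (h : ∀ x y, (∀ j, (x j = true ∧ y j = true) ↔ j = i) → f x y ≤ g x y) :
    oneAvg i f ≤ oneAvg i g := by
  unfold oneAvg
  refine div_le_div_of_nonneg_right ?_ (by positivity)
  refine sum_le_sum fun x _ => sum_le_sum fun y _ => ?_
  by_cases hc : ∀ j, (x j = true ∧ y j = true) ↔ j = i
  · rw [if_pos hc, if_pos hc]
    exact h x y hc
  · rw [if_neg hc, if_neg hc]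

theorem oneAvg_sum {n : ℕ} (i : Fin n) {κ : Type*} (T : Finset κ)
    (f : κ → (Fin n → Bool) → (Fin n → Bool) → ℝ) :
    oneAvg i (fun x y => ∑ k ∈ T, f k x y) = ∑ k ∈ T, oneAvg i (f k) := by
  rw [← pr_oneAvg, pr_sum]
  refine sum_congr rfl fun k _ => ?_
  rw [← pr_oneAvg]

theorem oneAvg_const {n : ℕ} (i : Fin n) (c : ℝ) : oneAvg i (fun _ _ => c) = c := by
  rw [← pr_oneAvg]
  exact pr_const (subset_univ _) c

theorem noneAvg_nonneg {n : ℕ} {f : (Fin n → Bool) → (Fin n → Bool) → ℝ}
    (h : ∀ x y, 0 ≤ f x y) : 0 ≤ noneAvg f := by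
  unfold noneAvg
  refine div_nonneg ?_ (by positivity)
  refine sum_nonneg fun x _ => sum_nonneg fun y _ => ?_
  split_ifs
  · exact h x y
  · exact le_rfl

end MP052029.Zr
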