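import Pool.Agent.Lib.MP_052029_lc.Z.ZE3
import Pool.Agent.Lib.MP_052029_lc.Z.ZPa

/-!
# Module ZE4: families of rectangles, vectors

PROOF. `ent`: Jensen for `Real.negMulLog` with the weights `1/|F|`: `∑ negMulLog (p j) <= |F| negMulLog (1/|F|) = log |F|`.
`fam`: `corr` for `S = univ`, sum over `j ∈ F`, `ent`. `famv`: `fam` through `pr_oneAvg`, `pr_noneAvg` (a function `a` of vectors gives `fun x => a (ind x)`).
-/

set_option autoImplicit false

namespace MP052029.Zr

open Finset

theorem ent {κ : Type*} (F : Finset κ) (p : κ → ℝ) (h0 : ∀ j ∈ F, 0 ≤ p j)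
    (h1 : ∑ j ∈ F, p j = 1) : ∑ j ∈ F, Real.negMulLog (p j) ≤ Real.log F.card := by
  have hF : F.Nonempty := by
    rw [Finset.nonempty_iff_ne_empty]
    rintro rfl
    rw [Finset.sum_empty] at h1
    exact zero_ne_one h1
  have hc : (0 : ℝ) < F.card := by exact_mod_cast Finset.card_pos.2 hF
  have hj := Real.concaveOn_negMulLog.le_map_sum (t := F) (w := fun _ => (F.card : ℝ)⁻¹) (p := p)
    (fun _ _ => (inv_pos.2 hc).le) (by
      rw [Finset.sum_const, nsmul_eq_mul]
      exact mul_inv_cancel₀ hc.ne') (fun j hj => h0 j hj)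
  simp only [smul_eq_mul] at hj
  rw [← Finset.mul_sum, ← Finset.mul_sum, h1, mul_one] at hj
  have h2 : Real.negMulLog (F.card : ℝ)⁻¹ = (F.card : ℝ)⁻¹ * Real.log F.card := by
    unfold Real.negMulLog
    rw [Real.log_inv]
    ring
  rw [h2] at hj
  exact le_of_mul_le_mul_left hj (inv_pos.2 hc)

theorem famv {n : ℕ} {κ : Type*} (F : Finset κ) (a b : κ → (Fin n → Bool) → ℝ)
    (ha0 : ∀ j x, 0 ≤ a j x) (ha1 : ∀ j x, a j x ≤ 1) (hb0 : ∀ j x, 0 ≤ b j x)
    (hb1 : ∀ j x, b j x ≤ 1) (h1 : ∑ j ∈ F, noneAvg (fun x y => a j x * b j y) = 1)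
    {lam : ℝ} (hl : 0 < lam) :
    ∑ i, ∑ j ∈ F, max 0 (noneAvg (fun x y => a j x * b j y) -
        oneAvg i (fun x y => a j x * b j y)) ≤
      9 * lam * Real.log F.card + 3 * n / lam := by
  rw [Finset.sum_comm]
  have hj : ∀ j ∈ F, ∑ i, max 0 (noneAvg (fun x y => a j x * b j y) -
      oneAvg i (fun x y => a j x * b j y)) ≤
      9 * lam * Real.negMulLog (noneAvg (fun x y => a j x * b j y)) +
        3 * n / lam * noneAvg (fun x y => a j x * b j y) := by
    intro j _
    have h2 := corr (univ : Finset (Fin n)) (fun x => a j (ind x)) (fun y => b j (ind y))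
      (fun x => ha0 j _) (fun x => ha1 j _) (fun y => hb0 j _) (fun y => hb1 j _) hl
    have h3 : pr univ (fun x y => a j (ind x) * b j (ind y)) ∅ =
        noneAvg (fun x y => a j x * b j y) := pr_noneAvg (fun x y => a j x * b j y)
    have h4 : ∀ i, pr univ (fun x y => a j (ind x) * b j (ind y)) {i} =
        oneAvg i (fun x y => a j x * b j y) := fun i => pr_oneAvg i (fun x y => a j x * b j y)
    simp only [h3, h4] at h2
    rw [card_univ, Fintype.card_fin] at h2
    exact h2
  refine (Finset.sum_le_sum hj).trans ?_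
  rw [Finset.sum_add_distrib, ← Finset.mul_sum, ← Finset.mul_sum, h1, mul_one]
  have h5 := ent F (fun j => noneAvg (fun x y => a j x * b j y))
    (fun j _ => noneAvg_nonneg fun x y => mul_nonneg (ha0 j x) (hb0 j y)) h1
  have h6 : 9 * lam * ∑ j ∈ F, Real.negMulLog (noneAvg (fun x y => a j x * b j y)) ≤
      9 * lam * Real.log F.card := mul_le_mul_of_nonneg_left h5 (by positivity)
  linarith

end MP052029.Zr
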