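import Pool.Agent.Lib.MP_052029_lc.Z.ZRect
import Pool.Agent.Lib.MP_052029_lc.Z.ZPa

/-!
# Module ZProto: protocols

PROOF. `load_one`: accepted with probability 1, so for all coins there is a rectangle that is hit (it is useful), and only one by `Unambiguous`
(see `ZeroInfo.lean`, `Bridge.lean` for similar lemmas, `load_eq`, `avg_load`).
`proto`: for fixed coins `r, q`: `load x y r q = ∑ j, (if P.Useful j ∧ (x,r) ∈ P.A j then 1 else 0) * (if (y,q) ∈ P.B j then 1 else 0)` (`load_eq`), so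
`α x r * β y q * load` is a sum of `m` products with factors in `[-1,1]`; `rect` with `F Z = pr univ (load (ind x) (ind y) r q) Z`. At `Z = ∅`: `load = 1` on
disjoint pairs (accepted with probability 1, so for all coins; `Unambiguous`), so `pr (..) ∅ = pr (α β) ∅`, absolute value at most 1. Average over the coins:
`P.avg (ex q Z0 F) <= K` because `P.avg (load x y) <= K` for all `x, y` and `pr`, `ex`, `av` are averages (linear, constants preserved).
`proto_one`: the same with one rectangle and `load` replaced by 1, `F = 1`, fixed coins, no average.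
-/

set_option autoImplicit false

namespace MP052029.Zr

open Finset

variable {n : ℕ} {P : Protocol n}

theorem load_one (hc : P.Computes) (hu : P.Unambiguous) {x y : Fin n → Bool} (h : Disj x y)
    (r : P.R) (q : P.Q) : P.load x y r q = 1 :=
  Protocol.load_disj hc hu h r q

private theorem ZProto_av_sum {n : ℕ} (s : ℕ) {κ : Type*} (T : Finset κ)
    (f : κ → Finset (Fin n) → ℝ) :
    av s (fun Z => ∑ k ∈ T, f k Z) = ∑ k ∈ T, av s (f k) := by
  unfold av
  rw [Finset.sum_comm, Finset.sum_div]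

private theorem ZProto_ex {s d j : ℕ} (hsn : s ≤ n) (hd : 1 ≤ d) (hj : j < 2 * d)
    (F : Finset (Fin n) → ℝ) {K : ℝ} (hF : ∀ Z, F Z ≤ K) :
    av s (fun Z0 => ex (node d j) Z0 F) ≤ K := by
  have hnode := node_mem hd hj
  have h1 : ∀ Z0 : Finset (Fin n), Z0.card = s → ex (node d j) Z0 F ≤ K := by
    intro Z0 _
    have h2 : ex (node d j) Z0 F ≤ ex (node d j) Z0 (fun _ => K) :=
      ex_mono (by linarith [hnode.1]) (by linarith [hnode.2]) fun Z _ => hF Z
    rw [ex_const] at h2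
    exact h2
  have h3 := av_mono (n := n) (s := s) h1
  rw [av_const hsn] at h3
  exact h3

private theorem ZProto_sum_load {K : ℝ}
    (hK : ∀ x y : Fin n → Bool, P.avg (fun r q => (P.load x y r q : ℝ)) ≤ K)
    {s d j : ℕ} (hsn : s ≤ n) (hd : 1 ≤ d) (hj : j < 2 * d) :
    ∑ ω : P.R × P.Q, av s (fun Z0 => ex (node d j) Z0
      (fun Z => pr univ (fun x y => (P.load (ind x) (ind y) ω.1 ω.2 : ℝ)) Z)) ≤
      K * Fintype.card (P.R × P.Q) := by
  rw [← ZProto_av_sum]
  have h1 : (fun Z0 : Finset (Fin n) => ∑ ω : P.R × P.Q, ex (node d j) Z0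
      (fun Z => pr univ (fun x y => (P.load (ind x) (ind y) ω.1 ω.2 : ℝ)) Z)) =
      fun Z0 => ex (node d j) Z0 (fun Z => pr univ
        (fun x y => ∑ ω : P.R × P.Q, (P.load (ind x) (ind y) ω.1 ω.2 : ℝ)) Z) := by
    funext Z0
    rw [← ex_sum]
    refine ex_congr fun Z _ => ?_
    rw [pr_sum]
  rw [h1]
  refine ZProto_ex hsn hd hj _ fun Z => ?_
  have h2 : ∀ x y : Finset (Fin n),
      ∑ ω : P.R × P.Q, (P.load (ind x) (ind y) ω.1 ω.2 : ℝ) ≤ K * Fintype.card (P.R × P.Q) := by
    intro x y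
    rw [P.sum_eq_avg (fun r q => (P.load (ind x) (ind y) r q : ℝ))]
    exact mul_le_mul_of_nonneg_right (hK _ _) (Nat.cast_nonneg _)
  have h3 := pr_mono (S := (univ : Finset (Fin n))) (Z := Z)
    (f := fun x y => ∑ ω : P.R × P.Q, (P.load (ind x) (ind y) ω.1 ω.2 : ℝ))
    (g := fun _ _ => K * Fintype.card (P.R × P.Q)) fun x _ y _ _ => h2 x y
  rw [pr_const (subset_univ Z)] at h3
  exact h3

open Classical in
private theorem ZProto_fix (hc : P.Computes) (hu : P.Unambiguous)
    {s d : ℕ} (hs : 1 ≤ s) (hsn : s ≤ n) (hd : 1 ≤ d) (h10 : 10 * (s : ℝ) ≤ √n)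
    (α : (Fin n → Bool) → P.R → ℝ) (β : (Fin n → Bool) → P.Q → ℝ)
    (hα : ∀ x r, |α x r| ≤ 1) (hβ : ∀ y q, |β y q| ≤ 1) (r : P.R) (q : P.Q) :
    (∑ i, |oneAvg i (fun x y => α x r * β y q * P.load x y r q) -
        noneAvg (fun x y => α x r * β y q * P.load x y r q)|) / n ≤
      2 * 64 ^ d / √s * (∑ j ∈ range (2 * d), av s (fun Z0 => ex (node d j) Z0
        (fun Z => pr univ (fun x y => (P.load (ind x) (ind y) r q : ℝ)) Z)) + 1 +
          2 * P.m * (5 * s / √n) ^ (d + 1)) := by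
  set A : Fin P.m → Finset (Fin n) → ℝ := fun j x => α (ind x) r * P.fA (r, q) j (ind x) with hA
  set B : Fin P.m → Finset (Fin n) → ℝ := fun j y => β (ind y) q * P.gB (r, q) j (ind y) with hB
  have hAB : ∀ x y, ∑ j, A j x * B j y =
      α (ind x) r * β (ind y) q * (P.load (ind x) (ind y) r q : ℝ) := by
    intro x y
    have h1 := P.Nn_eq_load (ind x) (ind y) (r, q)
    unfold Nn at h1
    simp only at h1
    rw [← h1, Finset.mul_sum]
    refine Finset.sum_congr rfl fun j _ => ?_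
    simp only [hA, hB]
    ring
  have hA1 : ∀ j x, |A j x| ≤ 1 := by
    intro j x
    simp only [hA]
    rw [abs_mul]
    have h1 : |P.fA (r, q) j (ind x)| ≤ 1 := by
      unfold Protocol.fA
      split_ifs <;> simp
    exact mul_le_one₀ (hα _ _) (abs_nonneg _) h1
  have hB1 : ∀ j y, |B j y| ≤ 1 := by
    intro j y
    simp only [hB]
    rw [abs_mul]
    have h1 : |P.gB (r, q) j (ind y)| ≤ 1 := by
      unfold Protocol.gB
      split_ifs <;> simp
    exact mul_le_one₀ (hβ _ _) (abs_nonneg _) h1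
  obtain ⟨f, hf⟩ : ∃ f : (Fin n → Bool) → (Fin n → Bool) → ℝ,
      f = fun x y => α x r * β y q * (P.load x y r q : ℝ) := ⟨_, rfl⟩
  have hfun : (fun x y => ∑ j, A j x * B j y) = fun x y : Finset (Fin n) => f (ind x) (ind y) := by
    funext x y
    rw [hf]
    exact hAB x y
  have hab : ∀ x y : Fin n → Bool, |α x r * β y q| ≤ 1 := by
    intro x y
    rw [abs_mul]
    exact mul_le_one₀ (hα _ _) (abs_nonneg _) (hβ _ _)
  have key := rect (n := n) hs hsn hd h10 A B hA1 hB1
    (fun Z => pr univ (fun x y => (P.load (ind x) (ind y) r q : ℝ)) Z) ?_ ?_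
  · rw [hfun, pr_noneAvg] at key
    simp only [pr_oneAvg] at key
    rw [hf] at key
    exact key
  · intro Z
    refine (abs_pr_le _).trans (pr_mono fun x _ y _ _ => ?_)
    rw [hAB, abs_mul, Nat.abs_cast]
    calc |α (ind x) r * β (ind y) q| * (P.load (ind x) (ind y) r q : ℝ) ≤
        1 * (P.load (ind x) (ind y) r q : ℝ) :=
          mul_le_mul_of_nonneg_right (hab _ _) (Nat.cast_nonneg _)
      _ = _ := one_mul _
  · refine (abs_pr_le _).trans ?_
    have h3 := pr_mono (S := (univ : Finset (Fin n))) (Z := ∅)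
      (f := fun x y => |∑ j, A j x * B j y|) (g := fun _ _ => (1 : ℝ)) fun x _ y _ hxy => by
        rw [hAB, load_one hc hu ((disj_ind x y).2 hxy), Nat.cast_one, mul_one]
        exact hab _ _
    rw [pr_const (empty_subset _)] at h3
    exact h3

theorem proto (hc : P.Computes) (hu : P.Unambiguous) {K : ℝ}
    (hK : ∀ x y : Fin n → Bool, P.avg (fun r q => (P.load x y r q : ℝ)) ≤ K)
    {s d : ℕ} (hs : 1 ≤ s) (hsn : s ≤ n) (hd : 1 ≤ d) (h10 : 10 * (s : ℝ) ≤ √n)
    (α : (Fin n → Bool) → P.R → ℝ) (β : (Fin n → Bool) → P.Q → ℝ)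
    (hα : ∀ x r, |α x r| ≤ 1) (hβ : ∀ y q, |β y q| ≤ 1) :
    P.avg (fun r q => (∑ i, |oneAvg i (fun x y => α x r * β y q * P.load x y r q) -
        noneAvg (fun x y => α x r * β y q)|) / n) ≤
      2 * 64 ^ d / √s * (2 * d * K + 1 + 2 * P.m * (5 * s / √n) ^ (d + 1)) := by
  have hcard : (0 : ℝ) < Fintype.card (P.R × P.Q) := by
    have := P.card_pos
    rw [Fintype.card_prod]
    push_cast
    exact this
  have hnone : ∀ (r : P.R) (q : P.Q), noneAvg (fun x y : Fin n → Bool => α x r * β y q) =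
      noneAvg (fun x y : Fin n → Bool => α x r * β y q * (P.load x y r q : ℝ)) := by
    intro r q
    unfold noneAvg
    congr 1
    refine Finset.sum_congr rfl fun x _ => Finset.sum_congr rfl fun y _ => ?_
    by_cases h : Disj x y
    · simp only [if_pos h, load_one hc hu h, Nat.cast_one, mul_one]
    · rw [if_neg h, if_neg h]
  have hC : 0 ≤ 2 * 64 ^ d / √(s : ℝ) := by positivity
  have h1 : P.avg (fun r q => (∑ i, |oneAvg i (fun x y => α x r * β y q * P.load x y r q) -
        noneAvg (fun x y => α x r * β y q)|) / n) * Fintype.card (P.R × P.Q) ≤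
      2 * 64 ^ d / √s * (2 * d * K + 1 + 2 * P.m * (5 * s / √n) ^ (d + 1)) *
        Fintype.card (P.R × P.Q) := by
    rw [← P.sum_eq_avg]
    have h2 : ∀ ω : P.R × P.Q,
        (∑ i, |oneAvg i (fun x y => α x ω.1 * β y ω.2 * P.load x y ω.1 ω.2) -
          noneAvg (fun x y => α x ω.1 * β y ω.2)|) / n ≤
        2 * 64 ^ d / √s * (∑ j ∈ range (2 * d), av s (fun Z0 => ex (node d j) Z0
          (fun Z => pr univ (fun x y => (P.load (ind x) (ind y) ω.1 ω.2 : ℝ)) Z)) + 1 +
            2 * P.m * (5 * s / √n) ^ (d + 1)) := by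
      intro ω
      rw [hnone]
      exact ZProto_fix hc hu hs hsn hd h10 α β hα hβ ω.1 ω.2
    refine (Finset.sum_le_sum fun ω _ => h2 ω).trans ?_
    rw [← Finset.mul_sum]
    have h5 : 2 * 64 ^ d / √(s : ℝ) * (2 * d * K + 1 + 2 * P.m * (5 * s / √n) ^ (d + 1)) *
        Fintype.card (P.R × P.Q) = 2 * 64 ^ d / √(s : ℝ) *
          ((2 * (d : ℝ) * K + 1 + 2 * P.m * (5 * s / √n) ^ (d + 1)) *
            Fintype.card (P.R × P.Q)) := mul_assoc _ _ _
    rw [h5]
    refine mul_le_mul_of_nonneg_left ?_ hC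
    rw [Finset.sum_add_distrib, Finset.sum_add_distrib, Finset.sum_const, Finset.sum_const,
      Finset.card_univ, nsmul_eq_mul, nsmul_eq_mul, Finset.sum_comm]
    have h3 : ∑ j ∈ range (2 * d), ∑ ω : P.R × P.Q, av s (fun Z0 => ex (node d j) Z0
        (fun Z => pr univ (fun x y => (P.load (ind x) (ind y) ω.1 ω.2 : ℝ)) Z)) ≤
        ∑ _j ∈ range (2 * d), K * Fintype.card (P.R × P.Q) :=
      Finset.sum_le_sum fun j hj => ZProto_sum_load hK hsn hd (Finset.mem_range.1 hj)
    rw [Finset.sum_const, Finset.card_range, nsmul_eq_mul] at h3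
    push_cast at h3
    have h4 : (2 * (d : ℝ) * K + 1 + 2 * P.m * (5 * s / √n) ^ (d + 1)) *
        Fintype.card (P.R × P.Q) = 2 * d * (K * Fintype.card (P.R × P.Q)) +
          Fintype.card (P.R × P.Q) * 1 +
          Fintype.card (P.R × P.Q) * (2 * P.m * (5 * s / √n) ^ (d + 1)) := by ring
    rw [h4]
    linarith
  exact le_of_mul_le_mul_right h1 hcard

theorem proto_one {n s d : ℕ} (hs : 1 ≤ s) (hsn : s ≤ n) (hd : 1 ≤ d) (h10 : 10 * (s : ℝ) ≤ √n)
    (α β : (Fin n → Bool) → ℝ) (hα : ∀ x, |α x| ≤ 1) (hβ : ∀ y, |β y| ≤ 1) :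
    (∑ i, |oneAvg i (fun x y => α x * β y) - noneAvg (fun x y => α x * β y)|) / n ≤
      2 * 64 ^ d / √s * (2 * d + 1 + 2 * (5 * s / √n) ^ (d + 1)) := by
  set A : Fin 1 → Finset (Fin n) → ℝ := fun _ x => α (ind x) with hA
  set B : Fin 1 → Finset (Fin n) → ℝ := fun _ y => β (ind y) with hB
  obtain ⟨f, hf⟩ : ∃ f : (Fin n → Bool) → (Fin n → Bool) → ℝ, f = fun x y => α x * β y :=
    ⟨_, rfl⟩
  have hfun : (fun x y => ∑ j, A j x * B j y) = fun x y : Finset (Fin n) => f (ind x) (ind y) := by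
    funext x y
    rw [Fin.sum_univ_one, hf]
  have hab : ∀ x y : Fin n → Bool, |α x * β y| ≤ 1 := by
    intro x y
    rw [abs_mul]
    exact mul_le_one₀ (hα _) (abs_nonneg _) (hβ _)
  have hle : ∀ Z, |pr univ (fun x y => ∑ j, A j x * B j y) Z| ≤ 1 := by
    intro Z
    refine (abs_pr_le _).trans ?_
    have h3 := pr_mono (S := (univ : Finset (Fin n))) (Z := Z)
      (f := fun x y => |∑ j, A j x * B j y|) (g := fun _ _ => (1 : ℝ)) fun x _ y _ _ => by
        rw [Fin.sum_univ_one]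
        exact hab _ _
    rw [pr_const (subset_univ Z)] at h3
    exact h3
  have key := rect (n := n) hs hsn hd h10 A B (fun j x => hα _) (fun j y => hβ _)
    (fun _ => 1) hle (hle ∅)
  rw [hfun, pr_noneAvg] at key
  simp only [pr_oneAvg] at key
  rw [hf] at key
  refine key.trans ?_
  have hC : 0 ≤ 2 * 64 ^ d / √(s : ℝ) := by positivity
  refine mul_le_mul_of_nonneg_left ?_ hC
  have h3 : ∑ j ∈ range (2 * d), av s (fun Z0 : Finset (Fin n) => ex (node d j) Z0 (fun _ => 1)) ≤
      ∑ _j ∈ range (2 * d), (1 : ℝ) :=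
    Finset.sum_le_sum fun j hj => ZProto_ex hsn hd (Finset.mem_range.1 hj) _ fun _ => le_rfl
  rw [Finset.sum_const, Finset.card_range, nsmul_eq_mul] at h3
  push_cast at h3 ⊢
  linarith

end MP052029.Zr
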