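import Pool.Agent.Lib.MP_052029_lc.Z.ZE4
import Pool.Agent.Lib.MP_052029_lc.Z.ZProto

/-!
# Module ZE5: protocols and rectangle partitions, fixed coins

`IsRect leaf`: all fibres of `leaf` are combinatorial rectangles (as for the leaves of a deterministic communication protocol).

PROOF. `fib`: if `∃ y0, leaf x y0 = t` and `∃ x0, leaf x0 y = t` then `leaf x y = leaf x y0 = t` by `IsRect`. `load_sum`: `load_eq` / `Set.ncard` of a filter.
`famp`: `famv` for the family `F = univ : Finset (Fin k × Fin P.m)`, `F.card = k * P.m`; `∑ noneAvg (..) = noneAvg (∑ ..) = noneAvg load = noneAvg 1 = 1` by `fib`, `load_sum`,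
`load_one`. `famq`: the same with `F = univ : Finset (Fin k)`.
-/

set_option autoImplicit false

namespace MP052029.Zr

open Finset

/-- all fibres are rectangles -/
def IsRect {n k : ℕ} (leaf : (Fin n → Bool) → (Fin n → Bool) → Fin k) : Prop :=
  ∀ x y x' y', leaf x y = leaf x' y' → leaf x y' = leaf x y

open Classical in
/-- the rows that meet the fibre of `t` -/
noncomputable def fA {n k : ℕ} (leaf : (Fin n → Bool) → (Fin n → Bool) → Fin k) (t : Fin k)
    (x : Fin n → Bool) : ℝ := if ∃ y, leaf x y = t then 1 else 0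

open Classical in
/-- the columns that meet the fibre of `t` -/
noncomputable def fB {n k : ℕ} (leaf : (Fin n → Bool) → (Fin n → Bool) → Fin k) (t : Fin k)
    (y : Fin n → Bool) : ℝ := if ∃ x, leaf x y = t then 1 else 0

theorem fib {n k : ℕ} {leaf : (Fin n → Bool) → (Fin n → Bool) → Fin k} (hl : IsRect leaf)
    (t : Fin k) (x y : Fin n → Bool) :
    (if leaf x y = t then (1 : ℝ) else 0) = fA leaf t x * fB leaf t y := by
  unfold fA fB
  by_cases h : leaf x y = t
  · rw [if_pos h, if_pos ⟨y, h⟩, if_pos ⟨x, h⟩, one_mul]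
  · rw [if_neg h]
    by_cases h1 : ∃ y, leaf x y = t
    · by_cases h2 : ∃ x, leaf x y = t
      · exfalso
        obtain ⟨y0, h1⟩ := h1
        obtain ⟨x0, h2⟩ := h2
        exact h ((hl x y0 x0 y (h1.trans h2.symm)).trans h1)
      · rw [if_neg h2, mul_zero]
    · rw [if_neg h1, zero_mul]

variable {n : ℕ}

open Classical in
/-- Alice's side of the useful rectangle `j` -/
noncomputable def uA (P : Protocol n) (r : P.R) (j : Fin P.m) (x : Fin n → Bool) : ℝ :=
  if P.Useful j ∧ (x, r) ∈ P.A j then 1 else 0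

open Classical in
/-- Bob's side of the rectangle `j` -/
noncomputable def uB (P : Protocol n) (q : P.Q) (j : Fin P.m) (y : Fin n → Bool) : ℝ :=
  if (y, q) ∈ P.B j then 1 else 0

variable {P : Protocol n}

theorem load_sum (x y : Fin n → Bool) (r : P.R) (q : P.Q) :
    (P.load x y r q : ℝ) = ∑ j, uA P r j x * uB P q j y := by
  have h1 := P.Nn_eq_load x y (r, q)
  unfold Nn at h1
  rw [← h1]
  refine Finset.sum_congr rfl fun j _ => ?_
  rfl

private theorem noneAvg_sum' {κ : Type*} (T : Finset κ)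
    (f : κ → (Fin n → Bool) → (Fin n → Bool) → ℝ) :
    noneAvg (fun x y => ∑ k ∈ T, f k x y) = ∑ k ∈ T, noneAvg (f k) := by
  rw [← pr_noneAvg, pr_sum]
  refine sum_congr rfl fun k _ => ?_
  rw [← pr_noneAvg]

private theorem noneAvg_one' {f : (Fin n → Bool) → (Fin n → Bool) → ℝ}
    (h : ∀ x y, Disj x y → f x y = 1) : noneAvg f = 1 := by
  rw [← pr_noneAvg]
  have : pr univ (fun x y : Finset (Fin n) => f (ind x) (ind y)) ∅ =
      pr univ (fun _ _ => 1) ∅ := pr_congr fun x _ y _ hxy => h _ _ ((disj_ind x y).2 hxy)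
  rw [this, pr_const (empty_subset _)]

private theorem fib_sum {k : ℕ} {leaf : (Fin n → Bool) → (Fin n → Bool) → Fin k}
    (hl : IsRect leaf) (x y : Fin n → Bool) : ∑ t, fA leaf t x * fB leaf t y = 1 := by
  have : ∀ t ∈ (univ : Finset (Fin k)), fA leaf t x * fB leaf t y =
      if leaf x y = t then (1 : ℝ) else 0 := fun t _ => (fib hl t x y).symm
  rw [sum_congr rfl this]
  simp

private theorem fA_mem {k : ℕ} (leaf : (Fin n → Bool) → (Fin n → Bool) → Fin k) (t : Fin k)
    (x : Fin n → Bool) : 0 ≤ fA leaf t x ∧ fA leaf t x ≤ 1 := by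
  unfold fA
  split_ifs <;> simp

private theorem fB_mem {k : ℕ} (leaf : (Fin n → Bool) → (Fin n → Bool) → Fin k) (t : Fin k)
    (x : Fin n → Bool) : 0 ≤ fB leaf t x ∧ fB leaf t x ≤ 1 := by
  unfold fB
  split_ifs <;> simp

private theorem uA_mem (r : P.R) (j : Fin P.m) (x : Fin n → Bool) :
    0 ≤ uA P r j x ∧ uA P r j x ≤ 1 := by
  unfold uA
  split_ifs <;> simp

private theorem uB_mem (q : P.Q) (j : Fin P.m) (x : Fin n → Bool) :
    0 ≤ uB P q j x ∧ uB P q j x ≤ 1 := by
  unfold uB
  split_ifs <;> simp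

theorem famp (hc : P.Computes) (hu : P.Unambiguous) {k : ℕ}
    {leaf : (Fin n → Bool) → (Fin n → Bool) → Fin k} (hl : IsRect leaf) (r : P.R) (q : P.Q)
    {lam : ℝ} (hlam : 0 < lam) :
    ∑ i, ∑ t, ∑ j, max 0 (noneAvg (fun x y => (fA leaf t x * uA P r j x) *
        (fB leaf t y * uB P q j y)) - oneAvg i (fun x y => (fA leaf t x * uA P r j x) *
        (fB leaf t y * uB P q j y))) ≤
      9 * lam * Real.log (P.m * k) + 3 * n / lam := by
  have key := famv (n := n) (univ : Finset (Fin k × Fin P.m))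
    (fun p x => fA leaf p.1 x * uA P r p.2 x) (fun p y => fB leaf p.1 y * uB P q p.2 y)
    (fun p x => mul_nonneg (fA_mem leaf p.1 x).1 (uA_mem r p.2 x).1)
    (fun p x => mul_le_one₀ (fA_mem leaf p.1 x).2 (uA_mem r p.2 x).1 (uA_mem r p.2 x).2)
    (fun p x => mul_nonneg (fB_mem leaf p.1 x).1 (uB_mem q p.2 x).1)
    (fun p x => mul_le_one₀ (fB_mem leaf p.1 x).2 (uB_mem q p.2 x).1 (uB_mem q p.2 x).2)
    ?_ hlam
  · rw [card_univ, Fintype.card_prod, Fintype.card_fin, Fintype.card_fin, Nat.cast_mul,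
      mul_comm (k : ℝ)] at key
    refine le_trans (le_of_eq ?_) key
    refine sum_congr rfl fun i _ => ?_
    rw [Fintype.sum_prod_type]
  · rw [← noneAvg_sum']
    refine noneAvg_one' fun x y hxy => ?_
    rw [Fintype.sum_prod_type]
    have h1 : ∀ t ∈ (univ : Finset (Fin k)), ∑ j, fA leaf t x * uA P r j x *
        (fB leaf t y * uB P q j y) = fA leaf t x * fB leaf t y := by
      intro t _
      have h2 : ∀ j ∈ (univ : Finset (Fin P.m)), fA leaf t x * uA P r j x *
          (fB leaf t y * uB P q j y) =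
          (fA leaf t x * fB leaf t y) * (uA P r j x * uB P q j y) := fun j _ => by ring
      rw [sum_congr rfl h2, ← mul_sum, ← load_sum, load_one hc hu hxy]
      simp
    rw [sum_congr rfl h1, fib_sum hl]

theorem famq {k : ℕ} {leaf : (Fin n → Bool) → (Fin n → Bool) → Fin k} (hl : IsRect leaf)
    {lam : ℝ} (hlam : 0 < lam) :
    ∑ i, ∑ t, max 0 (noneAvg (fun x y => fA leaf t x * fB leaf t y) -
        oneAvg i (fun x y => fA leaf t x * fB leaf t y)) ≤
      9 * lam * Real.log k + 3 * n / lam := by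
  have key := famv (n := n) (univ : Finset (Fin k))
    (fun t x => fA leaf t x) (fun t y => fB leaf t y)
    (fun t x => (fA_mem leaf t x).1) (fun t x => (fA_mem leaf t x).2)
    (fun t x => (fB_mem leaf t x).1) (fun t x => (fB_mem leaf t x).2) ?_ hlam
  · rw [card_univ, Fintype.card_fin] at key
    exact key
  · rw [← noneAvg_sum']
    exact noneAvg_one' fun x y _ => fib_sum hl x y

end MP052029.Zr
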