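import Pool.Agent.Lib.MP_052029_lc.Z.ZE5

/-!
# Module ZE7: acceptance decided by the common element and a short conversation

PROOF. Fix coins. `Rej_i` = the set of `t` such that some (hence every) pair with only common element `i` and `leaf = t` is rejected. Proportion of rejected pairs
`oneAvg i 1[rejected] = ∑ t ∈ Rej_i, oneAvg i 1_t <= ∑ t ∈ Rej_i, noneAvg 1_t + ∑ t, max 0 (oneAvg i 1_t - noneAvg 1_t)`. The last sum is
`∑ t, max 0 (noneAvg 1_t - oneAvg i 1_t)` (both have total 1: `max 0 z - max 0 (-z) = z`), `famq`. For `t ∈ Rej_i`: `noneAvg 1_t = ∑ j, noneAvg (a_jt b_jt)`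
(`load_one`) and `oneAvg i (a_jt b_jt) = 0` (rejected: not hit), `famp`. The average over the coins and `i` of the left side is at least `1/2` (`accept <= 1/2` for
pairs with a common element; `accept` is the average of the indicator). So `n/2 <= 2 (9 lam log(m k) + 3 n / lam)` (`log k <= log (m k)`, `1 <= P.m`), `lam = 24`.
-/

set_option autoImplicit false

namespace MP052029.Zr

open Finset

variable {n : ℕ} {P : Protocol n}

/-- For fixed coins, acceptance of a pair with exactly one common element depends only on this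
element and on `leaf`. -/
def DecidedBy (P : Protocol n) {k : ℕ}
    (leaf : P.R → P.Q → (Fin n → Bool) → (Fin n → Bool) → Fin k) : Prop :=
  ∀ (r : P.R) (q : P.Q) (i : Fin n) (x y x' y' : Fin n → Bool),
    (∀ j, (x j = true ∧ y j = true) ↔ j = i) → (∀ j, (x' j = true ∧ y' j = true) ↔ j = i) →
    leaf r q x y = leaf r q x' y' →
    ((∃ t, P.Hit x y r q t) ↔ ∃ t, P.Hit x' y' r q t)

private lemma z7_card (P : Protocol n) : (0 : ℝ) < Fintype.card P.R * Fintype.card P.Q := by
  have h1 : (0 : ℝ) < Fintype.card P.R := by exact_mod_cast Fintype.card_pos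
  have h2 : (0 : ℝ) < Fintype.card P.Q := by exact_mod_cast Fintype.card_pos
  positivity

private lemma z7_avg_mono {F G : P.R → P.Q → ℝ} (h : ∀ r q, F r q ≤ G r q) :
    P.avg F ≤ P.avg G := by
  have hc := z7_card P
  unfold Protocol.avg
  exact div_le_div_of_nonneg_right (sum_le_sum fun r _ => sum_le_sum fun q _ => h r q) hc.le

private lemma z7_avg_const (c : ℝ) : P.avg (fun _ _ => c) = c := by
  have hc := z7_card P
  unfold Protocol.avg
  simp only [sum_const, card_univ, nsmul_eq_mul]
  have h1 : (0 : ℝ) < Fintype.card P.R := by exact_mod_cast Fintype.card_pos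
  have h2 : (0 : ℝ) < Fintype.card P.Q := by exact_mod_cast Fintype.card_pos
  field_simp

private lemma z7_avg_add (F G : P.R → P.Q → ℝ) :
    P.avg (fun r q => F r q + G r q) = P.avg F + P.avg G := by
  unfold Protocol.avg
  simp only [sum_add_distrib, add_div]

private lemma z7_avg_sum {κ : Type*} (T : Finset κ) (F : κ → P.R → P.Q → ℝ) :
    P.avg (fun r q => ∑ t ∈ T, F t r q) = ∑ t ∈ T, P.avg (F t) := by
  unfold Protocol.avg
  rw [← sum_div]
  congr 1
  calc ∑ r : P.R, ∑ q : P.Q, ∑ t ∈ T, F t r q = ∑ r : P.R, ∑ t ∈ T, ∑ q : P.Q, F t r q :=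
        sum_congr rfl fun r _ => sum_comm
    _ = ∑ t ∈ T, ∑ r : P.R, ∑ q : P.Q, F t r q := sum_comm

private lemma z7_avg_div (F : P.R → P.Q → ℝ) (c : ℝ) :
    P.avg (fun r q => F r q / c) = P.avg F / c := by
  unfold Protocol.avg
  simp only [← sum_div]
  rw [div_div, div_div, mul_comm c]

private lemma z7_one_avg (i : Fin n) (F : (Fin n → Bool) → (Fin n → Bool) → P.R → P.Q → ℝ) :
    P.avg (fun r q => oneAvg i (fun x y => F x y r q)) =
      oneAvg i (fun x y => P.avg (fun r q => F x y r q)) := by
  have e : ∀ f : (Fin n → Bool) → (Fin n → Bool) → ℝ, oneAvg i f =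
      ∑ x, ∑ y, (if (∀ j, (x j = true ∧ y j = true) ↔ j = i) then f x y else 0) /
        3 ^ (n - 1) := by
    intro f
    unfold oneAvg
    rw [sum_div]
    exact sum_congr rfl fun x _ => sum_div _ _ _
  rw [e]
  have e2 : (fun (r : P.R) (q : P.Q) => oneAvg i (fun x y => F x y r q)) = fun r q =>
      ∑ x, ∑ y, (if (∀ j, (x j = true ∧ y j = true) ↔ j = i) then F x y r q else 0) /
        3 ^ (n - 1) := by
    funext r q
    exact e _
  rw [e2, z7_avg_sum]
  refine sum_congr rfl fun x _ => ?_
  rw [z7_avg_sum]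
  refine sum_congr rfl fun y _ => ?_
  by_cases h : (∀ j, (x j = true ∧ y j = true) ↔ j = i)
  · simp only [if_pos h]
    exact z7_avg_div _ _
  · simp only [if_neg h, zero_div]
    exact z7_avg_const 0

private theorem z7_none_sum {κ : Type*} (T : Finset κ)
    (f : κ → (Fin n → Bool) → (Fin n → Bool) → ℝ) :
    noneAvg (fun x y => ∑ k ∈ T, f k x y) = ∑ k ∈ T, noneAvg (f k) := by
  rw [← pr_noneAvg, pr_sum]
  refine sum_congr rfl fun k _ => ?_
  rw [← pr_noneAvg]

private theorem z7_none_congr {f g : (Fin n → Bool) → (Fin n → Bool) → ℝ}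
    (h : ∀ x y, Disj x y → f x y = g x y) : noneAvg f = noneAvg g := by
  unfold noneAvg
  congr 1
  refine sum_congr rfl fun x _ => sum_congr rfl fun y _ => ?_
  by_cases hd : Disj x y
  · rw [if_pos hd, if_pos hd, h x y hd]
  · rw [if_neg hd, if_neg hd]

open Classical in
/-- indicator of rejection -/
private noncomputable def rejI (P : Protocol n) (r : P.R) (q : P.Q) (x y : Fin n → Bool) : ℝ :=
  if ∃ t, P.Hit x y r q t then 0 else 1

private theorem z7_fix (hc : P.Computes) (hu : P.Unambiguous) {k : ℕ}
    {leaf : P.R → P.Q → (Fin n → Bool) → (Fin n → Bool) → Fin k}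
    (hl : ∀ r q, IsRect (leaf r q)) (hD : DecidedBy P leaf) {lam : ℝ} (hlam : 0 < lam)
    (r : P.R) (q : P.Q) :
    ∑ i, oneAvg i (rejI P r q) ≤
      (9 * lam * Real.log (P.m * k) + 3 * n / lam) + (9 * lam * Real.log k + 3 * n / lam) := by
  classical
  obtain ⟨lf, hlf⟩ : ∃ lf, lf = leaf r q := ⟨_, rfl⟩
  have hr : IsRect lf := by rw [hlf]; exact hl r q
  obtain ⟨D, hDd⟩ : ∃ D : Fin n → Fin k → Fin P.m → ℝ, ∀ i t j, D i t j =
      max 0 (noneAvg (fun x y => (fA lf t x * uA P r j x) * (fB lf t y * uB P q j y)) -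
        oneAvg i (fun x y => (fA lf t x * uA P r j x) * (fB lf t y * uB P q j y))) :=
    ⟨_, fun _ _ _ => rfl⟩
  obtain ⟨E, hE⟩ : ∃ E : Fin n → Fin k → ℝ, ∀ i t, E i t =
      max 0 (noneAvg (fun x y => fA lf t x * fB lf t y) -
        oneAvg i (fun x y => fA lf t x * fB lf t y)) := ⟨_, fun _ _ => rfl⟩
  obtain ⟨No, hNo⟩ : ∃ No : Fin k → ℝ, ∀ t, No t =
      noneAvg (fun x y => fA lf t x * fB lf t y) := ⟨_, fun _ => rfl⟩
  obtain ⟨On, hOn⟩ : ∃ On : Fin n → Fin k → ℝ, ∀ i t, On i t =
      oneAvg i (fun x y => fA lf t x * fB lf t y) := ⟨_, fun _ _ => rfl⟩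
  have hfs : ∀ x y : Fin n → Bool, ∑ t, fA lf t x * fB lf t y = 1 := by
    intro x y
    have : ∀ t ∈ (univ : Finset (Fin k)), fA lf t x * fB lf t y =
        if lf x y = t then (1 : ℝ) else 0 := fun t _ => (fib hr t x y).symm
    rw [sum_congr rfl this]
    simp
  have hOn1 : ∀ i, ∑ t, On i t = 1 := by
    intro i
    simp only [hOn]
    rw [← oneAvg_sum]
    have : (fun x y : Fin n → Bool => ∑ t, fA lf t x * fB lf t y) = fun _ _ => 1 := by
      funext x y
      exact hfs x y
    rw [this, oneAvg_const]
  have hNo1 : ∑ t, No t = 1 := by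
    simp only [hNo]
    rw [← z7_none_sum]
    have : (fun x y : Fin n → Bool => ∑ t, fA lf t x * fB lf t y) = fun _ _ => 1 := by
      funext x y
      exact hfs x y
    rw [this, ← pr_noneAvg]
    exact pr_const (empty_subset _) _
  obtain ⟨Rj, hRj⟩ : ∃ Rj : Fin n → Fin k → Prop, ∀ i t, Rj i t ↔ ∃ x y : Fin n → Bool,
      (∀ j, (x j = true ∧ y j = true) ↔ j = i) ∧ lf x y = t ∧
      ¬ ∃ t, P.Hit x y r q t := ⟨_, fun _ _ => Iff.rfl⟩
  have hone : ∀ i, oneAvg i (rejI P r q) ≤ ∑ t, ∑ j, D i t j + ∑ t, E i t := by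
    intro i
    have s1 : oneAvg i (rejI P r q) ≤ oneAvg i (fun x y => ∑ t,
        (if Rj i t then fA lf t x * fB lf t y else 0)) := by
      refine oneAvg_mono fun x y hxy => ?_
      have hnn : ∀ t, 0 ≤ (if Rj i t then fA lf t x * fB lf t y else 0) := by
        intro t
        rw [← fib hr]
        split_ifs <;> norm_num
      refine le_trans ?_ (single_le_sum (f := fun t =>
        (if Rj i t then fA lf t x * fB lf t y else 0)) (fun t _ => hnn t) (mem_univ (lf x y)))
      unfold rejI
      by_cases hh : ∃ t, P.Hit x y r q t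
      · rw [if_pos hh]
        exact hnn _
      · have hR : Rj i (lf x y) := (hRj i (lf x y)).2 ⟨x, y, hxy, rfl, hh⟩
        rw [if_neg hh]
        simp only [if_pos hR]
        rw [← fib hr, if_pos rfl]
    rw [oneAvg_sum] at s1
    have s2 : ∀ t, oneAvg i (fun x y => (if Rj i t then fA lf t x * fB lf t y else 0)) ≤
        ∑ j, D i t j + (E i t + (On i t - No t)) := by
      intro t
      have hEE : On i t - No t ≤ E i t + (On i t - No t) := by
        rw [hE]
        have := le_max_left 0 (noneAvg (fun x y => fA lf t x * fB lf t y) -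
          oneAvg i (fun x y => fA lf t x * fB lf t y))
        linarith
      have hE0 : 0 ≤ E i t + (On i t - No t) := by
        rw [hE, hOn, hNo]
        have := le_max_right 0 (noneAvg (fun x y => fA lf t x * fB lf t y) -
          oneAvg i (fun x y => fA lf t x * fB lf t y))
        linarith
      have hD0 : ∀ j, 0 ≤ D i t j := fun j => by rw [hDd]; exact le_max_left _ _
      by_cases hR : Rj i t
      · simp only [if_pos hR]
        rw [← hOn]
        obtain ⟨x0, y0, h0, ht0, hnh⟩ := (hRj i t).1 hR
        have hNoS : No t = ∑ j, noneAvg (fun x y => (fA lf t x * uA P r j x) *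
            (fB lf t y * uB P q j y)) := by
          rw [← z7_none_sum, hNo]
          refine z7_none_congr fun x y hxy => ?_
          have h2 : ∀ j ∈ (univ : Finset (Fin P.m)), fA lf t x * uA P r j x *
              (fB lf t y * uB P q j y) =
              (fA lf t x * fB lf t y) * (uA P r j x * uB P q j y) := fun j _ => by ring
          rw [sum_congr rfl h2, ← mul_sum, ← load_sum, load_one hc hu hxy]
          simp
        have hz : ∀ j, oneAvg i (fun x y => (fA lf t x * uA P r j x) *
            (fB lf t y * uB P q j y)) ≤ 0 := by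
          intro j
          have z2 : oneAvg i (fun x y => (fA lf t x * uA P r j x) *
            (fB lf t y * uB P q j y)) ≤ oneAvg i (fun _ _ => (0 : ℝ)) := by
            refine oneAvg_mono fun x y hxy => ?_
            have e : fA lf t x * uA P r j x * (fB lf t y * uB P q j y) =
              (fA lf t x * fB lf t y) * (uA P r j x * uB P q j y) := by ring
            rw [e, ← fib hr]
            by_cases hxt : lf x y = t
            · have hnh' : ¬ ∃ t, P.Hit x y r q t := by
                intro hh
                apply hnh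
                refine (hD r q i x y x0 y0 hxy h0 ?_).1 hh
                rw [← hlf]
                exact hxt.trans ht0.symm
              have hu0 : uA P r j x * uB P q j y = 0 := by
                unfold uA uB
                by_cases h1 : P.Useful j ∧ (x, r) ∈ P.A j
                · by_cases h2 : (y, q) ∈ P.B j
                  · exact absurd ⟨j, h1.2, h2⟩ hnh'
                  · rw [if_neg h2, mul_zero]
                · rw [if_neg h1, zero_mul]
              rw [hu0, mul_zero]
            · rw [if_neg hxt, zero_mul]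
          rwa [oneAvg_const] at z2
        have hNoD : No t ≤ ∑ j, D i t j := by
          rw [hNoS]
          refine sum_le_sum fun j _ => ?_
          rw [hDd]
          refine le_trans ?_ (le_max_right _ _)
          have := hz j
          linarith
        linarith
      · simp only [if_neg hR]
        rw [oneAvg_const]
        exact add_nonneg (sum_nonneg fun j _ => hD0 j) hE0
    have s3 : ∑ t, (∑ j, D i t j + (E i t + (On i t - No t))) =
        ∑ t, ∑ j, D i t j + ∑ t, E i t := by
      rw [sum_add_distrib, sum_add_distrib, sum_sub_distrib, hOn1, hNo1]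
      ring
    exact s1.trans ((sum_le_sum fun t _ => s2 t).trans s3.le)
  have hf1 := famp hc hu hr r q hlam
  have hf2 := famq (n := n) hr hlam
  simp only [← hDd] at hf1
  simp only [← hE] at hf2
  calc ∑ i, oneAvg i (rejI P r q) ≤ ∑ i, (∑ t, ∑ j, D i t j + ∑ t, E i t) :=
        sum_le_sum fun i _ => hone i
    _ = ∑ i, ∑ t, ∑ j, D i t j + ∑ i, ∑ t, E i t := sum_add_distrib
    _ ≤ _ := add_le_add hf1 hf2

private theorem z7_half (hc : P.Computes) (i : Fin n) :
    1 / 2 ≤ P.avg (fun r q => oneAvg i (rejI P r q)) := by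
  classical
  have e := z7_one_avg (P := P) i (fun x y r q => rejI P r q x y)
  rw [e]
  have w : oneAvg i (fun _ _ => (1 / 2 : ℝ)) ≤
      oneAvg i (fun x y => P.avg (fun r q => rejI P r q x y)) := by
    refine oneAvg_mono fun x y hxy => ?_
    have hnd : ¬ Disj x y := fun h => h ⟨i, ((hxy i).2 rfl)⟩
    have h3 := (hc x y).2 hnd
    have h4 : P.avg (fun r q => rejI P r q x y) + P.accept x y = 1 := by
      unfold Protocol.accept
      rw [← z7_avg_add]
      have : (fun (r : P.R) (q : P.Q) => rejI P r q x y +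
          (if ∃ t, P.Hit x y r q t then (1 : ℝ) else 0)) = fun _ _ => 1 := by
        funext r q
        unfold rejI
        split_ifs <;> simp
      rw [this]
      exact z7_avg_const 1
    linarith
  rwa [oneAvg_const] at w

theorem dec (hn : 1 ≤ n) (hc : P.Computes) (hu : P.Unambiguous) {k : ℕ}
    (leaf : P.R → P.Q → (Fin n → Bool) → (Fin n → Bool) → Fin k)
    (hl : ∀ r q, IsRect (leaf r q)) (hD : DecidedBy P leaf) :
    (n : ℝ) ≤ 1728 * Real.log (P.m * k) := by
  classical
  have hn0 : (0 : ℝ) < n := by exact_mod_cast hn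
  have hfix := z7_fix hc hu hl hD (lam := 24) (by norm_num)
  have h1 : ∀ i, 1 / 2 ≤ P.avg (fun r q => oneAvg i (rejI P r q)) := fun i => z7_half hc i
  have h2 : (n : ℝ) / 2 ≤ P.avg (fun r q => ∑ i, oneAvg i (rejI P r q)) := by
    rw [z7_avg_sum]
    calc (n : ℝ) / 2 = ∑ _i : Fin n, (1 / 2 : ℝ) := by
          rw [sum_const, card_univ, Fintype.card_fin, nsmul_eq_mul]
          ring
      _ ≤ _ := sum_le_sum fun i _ => h1 i
  have h3 := z7_avg_mono (P := P) (F := fun r q => ∑ i, oneAvg i (rejI P r q))
    (G := fun _ _ => (9 * 24 * Real.log (P.m * k) + 3 * n / 24) +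
      (9 * 24 * Real.log k + 3 * n / 24)) hfix
  rw [z7_avg_const] at h3
  have ho : Disj (fun _ : Fin n => false) (fun _ => false) := by
    rintro ⟨i, h, _⟩
    exact Bool.false_ne_true h
  obtain ⟨r⟩ := P.nonemptyR
  obtain ⟨q⟩ := P.nonemptyQ
  obtain ⟨j, _⟩ := Protocol.exists_hit hc ho r q
  have hm : (1 : ℝ) ≤ P.m := by
    have : 1 ≤ P.m := lt_of_le_of_lt (Nat.zero_le _) j.2
    exact_mod_cast this
  have hk : (1 : ℝ) ≤ k := by
    have : 1 ≤ k := lt_of_le_of_lt (Nat.zero_le _) (leaf r q (fun _ => false) (fun _ => false)).2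
    exact_mod_cast this
  have h4 : Real.log k ≤ Real.log (P.m * k) := by
    apply Real.log_le_log (by linarith)
    nlinarith
  linarith

end MP052029.Zr
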