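import Pool.Agent.Lib.MP_052029_lc.Z.ZBon

/-!
# Module ZL12

PROOF of `l1l2`: `(E f^2)^2 <= E|f| E|f|^3`, `(E |f|^3)^2 <= E f^2 E f^4` (Cauchy-Schwarz), so `(E f^2)^4 <= (E|f|)^2 E f^2 16^d (E f^2)^2`.
-/

set_option autoImplicit false

namespace MP052029.Zr

open Finset

variable {ι : Type*} [DecidableEq ι]

theorem l1l2 {q : ℝ} (h0 : 1 / 4 ≤ q) (h1 : q ≤ 1 / 2) (S : Finset ι) (d : ℕ) (c : Finset ι → ℝ)
    (hc : ∀ W ⊆ S, d < W.card → c W = 0) :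
    ex q S (fun Z => (∑ W ∈ Z.powerset, c W) ^ 2) ≤
      16 ^ d * (ex q S (fun Z => |∑ W ∈ Z.powerset, c W|)) ^ 2 := by
  have hq0 : 0 ≤ q := by linarith
  have hq1 : q ≤ 1 := by linarith
  have hq2 : 0 ≤ 1 - q := by linarith
  obtain ⟨f, hf⟩ : ∃ f : Finset ι → ℝ, f = fun Z => ∑ W ∈ Z.powerset, c W := ⟨_, rfl⟩
  have h4 : ex q S (fun Z => f Z ^ 4) ≤ 16 ^ d * (ex q S (fun Z => f Z ^ 2)) ^ 2 := by
    rw [hf]
    exact bon h0 h1 S d c hc
  have hgoal : ex q S (fun Z => f Z ^ 2) ≤ 16 ^ d * (ex q S (fun Z => |f Z|)) ^ 2 := by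
    have c1 : (ex q S (fun Z => f Z ^ 2)) ^ 2 ≤ ex q S (fun Z => |f Z|) * ex q S (fun Z => |f Z| ^ 3) := by
      unfold ex
      apply Finset.sum_sq_le_sum_mul_sum_of_sq_eq_mul
      · intro Z _
        positivity
      · intro Z _
        positivity
      · intro Z _
        have : f Z ^ 2 = |f Z| ^ 2 := (sq_abs _).symm
        beta_reduce
        rw [this]
        ring
    have c2 : (ex q S (fun Z => |f Z| ^ 3)) ^ 2 ≤ ex q S (fun Z => f Z ^ 2) * ex q S (fun Z => f Z ^ 4) := by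
      unfold ex
      apply Finset.sum_sq_le_sum_mul_sum_of_sq_eq_mul
      · intro Z _
        positivity
      · intro Z _
        positivity
      · intro Z _
        have h5 : f Z ^ 2 = |f Z| ^ 2 := (sq_abs _).symm
        have h6 : f Z ^ 4 = |f Z| ^ 4 := by
          rw [show f Z ^ 4 = (f Z ^ 2) ^ 2 by ring, h5]
          ring
        beta_reduce
        rw [h5, h6]
        ring
    obtain ⟨m1, hm1⟩ : ∃ m, m = ex q S (fun Z => |f Z|) := ⟨_, rfl⟩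
    obtain ⟨m2, hm2⟩ : ∃ m, m = ex q S (fun Z => f Z ^ 2) := ⟨_, rfl⟩
    obtain ⟨m3, hm3⟩ : ∃ m, m = ex q S (fun Z => |f Z| ^ 3) := ⟨_, rfl⟩
    obtain ⟨m4, hm4⟩ : ∃ m, m = ex q S (fun Z => f Z ^ 4) := ⟨_, rfl⟩
    rw [← hm1, ← hm2, ← hm3] at c1
    rw [← hm2, ← hm3, ← hm4] at c2
    rw [← hm2, ← hm4] at h4
    rw [← hm1, ← hm2]
    have p1 : 0 ≤ m1 := by rw [hm1]; exact ex_nonneg hq0 hq1 (fun Z _ => abs_nonneg _)
    have p2 : 0 ≤ m2 := by rw [hm2]; exact ex_nonneg hq0 hq1 (fun Z _ => sq_nonneg _)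
    have p3 : 0 ≤ m3 := by rw [hm3]; exact ex_nonneg hq0 hq1 (fun Z _ => by positivity)
    rcases p2.eq_or_lt with h7 | h7
    · rw [← h7]
      positivity
    · have h8 : m2 ^ 4 ≤ 16 ^ d * m1 ^ 2 * m2 ^ 3 := by
        calc m2 ^ 4 = (m2 ^ 2) ^ 2 := by ring
          _ ≤ (m1 * m3) ^ 2 := pow_le_pow_left₀ (sq_nonneg _) c1 2
          _ = m1 ^ 2 * m3 ^ 2 := by ring
          _ ≤ m1 ^ 2 * (m2 * m4) := mul_le_mul_of_nonneg_left c2 (sq_nonneg _)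
          _ ≤ m1 ^ 2 * (m2 * (16 ^ d * m2 ^ 2)) := by
              apply mul_le_mul_of_nonneg_left _ (sq_nonneg _)
              exact mul_le_mul_of_nonneg_left h4 p2
          _ = 16 ^ d * m1 ^ 2 * m2 ^ 3 := by ring
      have h9 : 0 < m2 ^ 3 := by positivity
      have h10 : m2 * m2 ^ 3 ≤ (16 ^ d * m1 ^ 2) * m2 ^ 3 := by
        calc m2 * m2 ^ 3 = m2 ^ 4 := by ring
          _ ≤ _ := h8
      exact le_of_mul_le_mul_right h10 h9
  rw [hf] at hgoal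
  exact hgoal

end MP052029.Zr
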