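import Pool.Agent.Lib.MP_052029_lc.Z.ZBasic

/-!
# Module ZLevel: the weight of the Moebius coefficients of a rectangle

PROOF. Induction on `S` (for all `a`, `b`). `S = ∅`: equality. Step `insert e S`, `e ∉ S`: write `a0 = a`, `a1 x = a (insert e x)`,
`a' = (2 a0 + a1)/3`, `da = a1 - a0`, the same for `b`; `V(f,g)(W) = mob (pr S (f x * g y)) W` for `W ⊆ S`, bilinear. By `pr_insert_not`,
`pr_insert_mem`, `mob_insert`, `mob_congr`:
 coefficient at `W`: `(V(a0,b0) + V(a1,b0) + V(a0,b1))/3 = V(a',b') - V(da,db)/9`;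
 coefficient at `insert e W`: `V(a1,b1) -` (the first one) `= (2/3) V(a',db) + (2/3) V(da,b') + (5/9) V(da,db)`.
`ex (1/3) (insert e S) (a^2) = A + (2/9) P`, `A = ex (1/3) S (a'^2)`, `P = ex (1/3) S (da^2)` (`ex_insert`; `(2 u^2 + v^2)/3 = ((2u+v)/3)^2 + (2/9)(v-u)^2`);
for `b`: `B + (2/9) Q`. With `<F,G> = ∑ W ⊆ S, 25^-|W| F W * G W` the induction hypothesis gives `<V(a',b'),V(a',b')> <= A B`, `<V(da,db),..> <= P Q`,
`<V(a',db),..> <= A Q`, `<V(da,b'),..> <= P B`, and `<V(a',b'),V(da,db)>^2 <= A B P Q <= ((A Q + P B)/2)^2` (Cauchy-Schwarz), so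
 first sum `<= A B + (1/9)(A Q + P B) + (1/81) P Q`,
 second sum (weight `1/25` more) `<= (1/25) 3 ((4/9) A Q + (4/9) P B + (25/81) P Q)` by `(x+y+z)^2 <= 3(x^2+y^2+z^2)`,
 total `<= A B + (2/9)(A Q + P B) + (4/81) P Q = (A + (2/9)P)(B + (2/9)Q)`  (1/9 + 4/75 <= 2/9, 1/81 + 1/27 = 4/81).
-/

set_option autoImplicit false

namespace MP052029.Zr

open Finset

variable {ι : Type*} [DecidableEq ι]

private theorem zl_pr_add (S Z : Finset ι) (f g : Finset ι → Finset ι → ℝ) :
    pr S (fun x y => f x y + g x y) Z = pr S f Z + pr S g Z := by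
  unfold pr
  rw [← add_div, ← Finset.sum_add_distrib]
  congr 1
  refine Finset.sum_congr rfl fun x _ => ?_
  rw [← Finset.sum_add_distrib]
  refine Finset.sum_congr rfl fun y _ => ?_
  split_ifs <;> simp

private theorem zl_comb (S W : Finset ι) (c d : ℝ) (f g : Finset ι → Finset ι → ℝ) :
    mob (pr S (fun x y => c * f x y + d * g x y)) W =
      c * mob (pr S f) W + d * mob (pr S g) W := by
  rw [← mob_mul, ← mob_mul, ← mob_add]
  refine mob_congr fun Z _ => ?_
  rw [← pr_mul, ← pr_mul, ← zl_pr_add]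

private theorem zl_left (S W : Finset ι) (c d : ℝ) (u u' v : Finset ι → ℝ) :
    mob (pr S (fun x y => (c * u x + d * u' x) * v y)) W =
      c * mob (pr S (fun x y => u x * v y)) W + d * mob (pr S (fun x y => u' x * v y)) W := by
  rw [← zl_comb]
  refine mob_congr fun Z _ => ?_
  refine pr_congr fun x _ y _ _ => ?_
  ring

private theorem zl_right (S W : Finset ι) (c d : ℝ) (u v v' : Finset ι → ℝ) :
    mob (pr S (fun x y => u x * (c * v y + d * v' y))) W =
      c * mob (pr S (fun x y => u x * v y)) W + d * mob (pr S (fun x y => u x * v' y)) W := by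
  rw [← zl_comb]
  refine mob_congr fun Z _ => ?_
  refine pr_congr fun x _ y _ _ => ?_
  ring

private theorem zl_ex {e : ι} {S : Finset ι} (he : e ∉ S) (a : Finset ι → ℝ) :
    ex (1 / 3) (insert e S) (fun x => a x ^ 2) =
      ex (1 / 3) S (fun x => ((2 / 3) * a x + (1 / 3) * a (insert e x)) ^ 2) +
        (2 / 9) * ex (1 / 3) S (fun x => ((-1) * a x + 1 * a (insert e x)) ^ 2) := by
  rw [ex_insert he, ← ex_mul, ← ex_mul, ← ex_mul, ← ex_add, ← ex_add]
  refine ex_congr fun Z _ => ?_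
  ring

private theorem zl_cs (T : Finset (Finset ι)) (F G : Finset ι → ℝ) :
    (∑ W ∈ T, (1 / 25 : ℝ) ^ W.card * (F W * G W)) ^ 2 ≤
      (∑ W ∈ T, (1 / 25 : ℝ) ^ W.card * F W ^ 2) * (∑ W ∈ T, (1 / 25 : ℝ) ^ W.card * G W ^ 2) := by
  have h := Finset.sum_mul_sq_le_sq_mul_sq T (fun W => (1 / 5 : ℝ) ^ W.card * F W)
    (fun W => (1 / 5 : ℝ) ^ W.card * G W)
  have e1 : ∀ k : ℕ, (1 / 25 : ℝ) ^ k = (1 / 5 : ℝ) ^ k * (1 / 5 : ℝ) ^ k := by
    intro k
    rw [← mul_pow]
    norm_num
  have h1 : ∑ W ∈ T, (1 / 25 : ℝ) ^ W.card * (F W * G W) =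
      ∑ W ∈ T, ((1 / 5 : ℝ) ^ W.card * F W) * ((1 / 5 : ℝ) ^ W.card * G W) :=
    Finset.sum_congr rfl fun W _ => by rw [e1]; ring
  have h2 : ∀ H : Finset ι → ℝ, ∑ W ∈ T, (1 / 25 : ℝ) ^ W.card * H W ^ 2 =
      ∑ W ∈ T, ((1 / 5 : ℝ) ^ W.card * H W) ^ 2 := fun H =>
    Finset.sum_congr rfl fun W _ => by rw [e1]; ring
  rw [h1, h2, h2]
  exact h

theorem level (S : Finset ι) (a b : Finset ι → ℝ) :
    ∑ W ∈ S.powerset, (1 / 25 : ℝ) ^ W.card * mob (pr S (fun x y => a x * b y)) W ^ 2 ≤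
      ex (1 / 3) S (fun x => a x ^ 2) * ex (1 / 3) S (fun y => b y ^ 2) := by
  induction S using Finset.induction_on generalizing a b with
  | empty =>
    simp only [Finset.powerset_empty, Finset.sum_singleton, Finset.card_empty, pow_zero, one_mul,
      ex_empty, mob_empty, pr]
    simp
    apply le_of_eq
    ring
  | insert e S he ih =>
    rw [Finset.sum_powerset_insert he]
    set a1 : Finset ι → ℝ := fun x => a (insert e x) with ha1
    set b1 : Finset ι → ℝ := fun x => b (insert e x) with hb1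
    set a' : Finset ι → ℝ := fun x => (2 / 3) * a x + (1 / 3) * a1 x with ha'
    set b' : Finset ι → ℝ := fun x => (2 / 3) * b x + (1 / 3) * b1 x with hb'
    set da : Finset ι → ℝ := fun x => (-1) * a x + 1 * a1 x with hda
    set db : Finset ι → ℝ := fun x => (-1) * b x + 1 * b1 x with hdb
    set V : (Finset ι → ℝ) → (Finset ι → ℝ) → Finset ι → ℝ := fun u v W =>
      mob (pr S (fun x y => u x * v y)) W with hV
    have exA : ex (1 / 3) (insert e S) (fun x => a x ^ 2) =
      ex (1 / 3) S (fun x => a' x ^ 2) + (2 / 9) * ex (1 / 3) S (fun x => da x ^ 2) := zl_ex he a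
    have exB : ex (1 / 3) (insert e S) (fun x => b x ^ 2) =
      ex (1 / 3) S (fun x => b' x ^ 2) + (2 / 9) * ex (1 / 3) S (fun x => db x ^ 2) := zl_ex he b
    rw [exA, exB]
    have hA := ex_nonneg (q := 1 / 3) (by norm_num) (by norm_num) (S := S)
      (f := fun x => a' x ^ 2) (fun Z _ => sq_nonneg _)
    have hP := ex_nonneg (q := 1 / 3) (by norm_num) (by norm_num) (S := S)
      (f := fun x => da x ^ 2) (fun Z _ => sq_nonneg _)
    have hB := ex_nonneg (q := 1 / 3) (by norm_num) (by norm_num) (S := S)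
      (f := fun x => b' x ^ 2) (fun Z _ => sq_nonneg _)
    have hQ := ex_nonneg (q := 1 / 3) (by norm_num) (by norm_num) (S := S)
      (f := fun x => db x ^ 2) (fun Z _ => sq_nonneg _)
    have i1 := ih a' b'
    have i2 := ih da db
    have i3 := ih a' db
    have i4 := ih da b'
    set A := ex (1 / 3) S (fun x => a' x ^ 2) with hAdef
    set P := ex (1 / 3) S (fun x => da x ^ 2) with hPdef
    set B := ex (1 / 3) S (fun x => b' x ^ 2) with hBdef
    set Q := ex (1 / 3) S (fun x => db x ^ 2) with hQdef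
    -- the four bilinear expressions
    have vX : ∀ W, V a' b' W = (4 * V a b W + 2 * V a1 b W + 2 * V a b1 W + V a1 b1 W) / 9 := by
      intro W
      simp only [hV, ha', hb']
      rw [zl_left, zl_right, zl_right]
      ring
    have vY : ∀ W, V da db W = V a1 b1 W - V a1 b W - V a b1 W + V a b W := by
      intro W
      simp only [hV, hda, hdb]
      rw [zl_left, zl_right, zl_right]
      ring
    have vU : ∀ W, V a' db W = (2 * (V a b1 W - V a b W) + (V a1 b1 W - V a1 b W)) / 3 := by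
      intro W
      simp only [hV, ha', hdb]
      rw [zl_left, zl_right, zl_right]
      ring
    have vT : ∀ W, V da b' W = (2 * (V a1 b W - V a b W) + (V a1 b1 W - V a b1 W)) / 3 := by
      intro W
      simp only [hV, hda, hb']
      rw [zl_left, zl_right, zl_right]
      ring
    have c0 : ∀ W ⊆ S, mob (pr (insert e S) (fun x y => a x * b y)) W =
        V a' b' W - V da db W / 9 := by
      intro W hW
      have h1 : mob (pr (insert e S) (fun x y => a x * b y)) W =
          (V a b W + V a1 b W + V a b1 W) / 3 := by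
        have h2 : mob (pr (insert e S) (fun x y => a x * b y)) W =
            mob (fun Z => (1 / 3) * (pr S (fun x y => a x * b y) Z +
              (pr S (fun x y => a1 x * b y) Z + pr S (fun x y => a x * b1 y) Z))) W := by
          refine mob_congr fun Z hZ => ?_
          rw [pr_insert_not he (hZ.trans hW)]
          ring
        rw [h2, mob_mul, mob_add, mob_add]
        simp only [hV]
        ring
      rw [h1, vX, vY]
      ring
    have c1 : ∀ W ⊆ S, mob (pr (insert e S) (fun x y => a x * b y)) (insert e W) =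
        (2 / 3) * V a' db W + (2 / 3) * V da b' W + (5 / 9) * V da db W := by
      intro W hW
      have heW : e ∉ W := fun h => he (hW h)
      rw [mob_insert heW, c0 W hW]
      have h2 : mob (fun Z => pr (insert e S) (fun x y => a x * b y) (insert e Z)) W =
          V a1 b1 W := by
        simp only [hV]
        refine mob_congr fun Z hZ => ?_
        rw [pr_insert_mem he (hZ.trans hW)]
      rw [h2, vX, vY, vU, vT]
      ring
    have s0 : ∑ W ∈ S.powerset, (1 / 25 : ℝ) ^ W.card *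
        mob (pr (insert e S) (fun x y => a x * b y)) W ^ 2 =
        ∑ W ∈ S.powerset, (1 / 25 : ℝ) ^ W.card * V a' b' W ^ 2 -
          (2 / 9) * ∑ W ∈ S.powerset, (1 / 25 : ℝ) ^ W.card * (V a' b' W * V da db W) +
          (1 / 81) * ∑ W ∈ S.powerset, (1 / 25 : ℝ) ^ W.card * V da db W ^ 2 := by
      rw [Finset.mul_sum, Finset.mul_sum, ← Finset.sum_sub_distrib, ← Finset.sum_add_distrib]
      refine Finset.sum_congr rfl fun W hW => ?_
      rw [c0 W (Finset.mem_powerset.1 hW)]
      ring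
    have s1 : ∑ W ∈ S.powerset, (1 / 25 : ℝ) ^ (insert e W).card *
        mob (pr (insert e S) (fun x y => a x * b y)) (insert e W) ^ 2 ≤
        (1 / 25) * (3 * ((4 / 9) * ∑ W ∈ S.powerset, (1 / 25 : ℝ) ^ W.card * V a' db W ^ 2 +
          (4 / 9) * ∑ W ∈ S.powerset, (1 / 25 : ℝ) ^ W.card * V da b' W ^ 2 +
          (25 / 81) * ∑ W ∈ S.powerset, (1 / 25 : ℝ) ^ W.card * V da db W ^ 2)) := by
      rw [Finset.mul_sum, Finset.mul_sum, Finset.mul_sum, ← Finset.sum_add_distrib,
        ← Finset.sum_add_distrib, Finset.mul_sum, Finset.mul_sum]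
      refine Finset.sum_le_sum fun W hW => ?_
      have hW' := Finset.mem_powerset.1 hW
      have heW : e ∉ W := fun h => he (hW' h)
      rw [c1 W hW', Finset.card_insert_of_notMem heW, pow_succ]
      have hw : (0 : ℝ) ≤ (1 / 25 : ℝ) ^ W.card := by positivity
      have key : ((2 / 3) * V a' db W + (2 / 3) * V da b' W + (5 / 9) * V da db W) ^ 2 ≤
          3 * ((4 / 9) * V a' db W ^ 2 + (4 / 9) * V da b' W ^ 2 + (25 / 81) * V da db W ^ 2) := by
        nlinarith [sq_nonneg ((2 / 3) * V a' db W - (2 / 3) * V da b' W),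
          sq_nonneg ((2 / 3) * V a' db W - (5 / 9) * V da db W),
          sq_nonneg ((2 / 3) * V da b' W - (5 / 9) * V da db W)]
      have := mul_le_mul_of_nonneg_left key hw
      nlinarith [this]
    have cs := zl_cs S.powerset (V a' b') (V da db)
    have j1 : ∑ W ∈ S.powerset, (1 / 25 : ℝ) ^ W.card * V a' b' W ^ 2 ≤ A * B := i1
    have j2 : ∑ W ∈ S.powerset, (1 / 25 : ℝ) ^ W.card * V da db W ^ 2 ≤ P * Q := i2
    have j3 : ∑ W ∈ S.powerset, (1 / 25 : ℝ) ^ W.card * V a' db W ^ 2 ≤ A * Q := i3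
    have j4 : ∑ W ∈ S.powerset, (1 / 25 : ℝ) ^ W.card * V da b' W ^ 2 ≤ P * B := i4
    have n1 : 0 ≤ ∑ W ∈ S.powerset, (1 / 25 : ℝ) ^ W.card * V a' b' W ^ 2 :=
      Finset.sum_nonneg fun W _ => by positivity
    have n2 : 0 ≤ ∑ W ∈ S.powerset, (1 / 25 : ℝ) ^ W.card * V da db W ^ 2 :=
      Finset.sum_nonneg fun W _ => by positivity
    set XX := ∑ W ∈ S.powerset, (1 / 25 : ℝ) ^ W.card * V a' b' W ^ 2
    set YY := ∑ W ∈ S.powerset, (1 / 25 : ℝ) ^ W.card * V da db W ^ 2
    set XY := ∑ W ∈ S.powerset, (1 / 25 : ℝ) ^ W.card * (V a' b' W * V da db W)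
    have hXY : -XY ≤ (A * Q + P * B) / 2 := by
      have h1 : XY ^ 2 ≤ ((A * Q + P * B) / 2) ^ 2 := by
        have h2 : XX * YY ≤ (A * B) * (P * Q) :=
          mul_le_mul j1 j2 n2 (mul_nonneg hA hB)
        nlinarith [sq_nonneg (A * Q - P * B)]
      have h3 : 0 ≤ (A * Q + P * B) / 2 := by positivity
      exact (neg_le_abs XY).trans (abs_le_of_sq_le_sq' h1 h3 |> abs_le.2)
    have hAQ : 0 ≤ A * Q := mul_nonneg hA hQ
    have hPB : 0 ≤ P * B := mul_nonneg hP hB
    have hPQ : 0 ≤ P * Q := mul_nonneg hP hQ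
    rw [s0]
    refine (add_le_add_right s1 _).trans ?_
    nlinarith

end MP052029.Zr
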