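import Pool.Agent.Lib.MP_052029_lc.Z.ZLevel

/-!
# Module ZLsum

PROOF of `level_sum`: `pr_sum`, `mob_sum`, triangle inequality: enough for one `j`, with bound `(5 √|S|)^k`. Cauchy-Schwarz over `powersetCard k S`
(`sum_mul_sq_le_sq_mul_sq` or `inner_mul_le_norm_mul_norm`, `sq_sum_le_card_mul_sum_sq`): `(∑ |mob W|)^2 ≤ C(|S|,k) ∑ mob W ^ 2`, `C(|S|,k) ≤ |S|^k`,
`(1/25)^k ∑ (|W| = k) mob W ^ 2 ≤ ∑ W ⊆ S, (1/25)^|W| mob W ^ 2 ≤ 1` (`level`, `ex_mono` and `ex_const` as `(A j x)^2 ≤ 1`).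
-/

set_option autoImplicit false

namespace MP052029.Zr

open Finset

variable {ι : Type*} [DecidableEq ι]

private theorem ZLsum_one (S : Finset ι) (a b : Finset ι → ℝ) (ha : ∀ x, |a x| ≤ 1)
    (hb : ∀ y, |b y| ≤ 1) (k : ℕ) :
    ∑ W ∈ S.powersetCard k, |mob (pr S (fun x y => a x * b y)) W| ≤ (5 * √S.card) ^ k := by
  have hex : ∀ c : Finset ι → ℝ, (∀ x, |c x| ≤ 1) → 0 ≤ ex (1 / 3) S (fun x => c x ^ 2) ∧
      ex (1 / 3) S (fun x => c x ^ 2) ≤ 1 := by
    intro c hc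
    constructor
    · exact ex_nonneg (by norm_num) (by norm_num) (fun Z _ => sq_nonneg _)
    · refine (ex_mono (g := fun _ => (1 : ℝ)) (by norm_num) (by norm_num) (fun Z _ => ?_)).trans
        (le_of_eq (ex_const _ _ _))
      have := (sq_le_one_iff_abs_le_one (c Z)).2 (hc Z)
      exact this
  have hlev := level S a b
  have h1 : ∑ W ∈ S.powerset, (1 / 25 : ℝ) ^ W.card * mob (pr S (fun x y => a x * b y)) W ^ 2 ≤ 1 := by
    refine hlev.trans ?_
    obtain ⟨p1, p2⟩ := hex a ha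
    obtain ⟨q1, q2⟩ := hex b hb
    nlinarith
  set m : Finset ι → ℝ := fun W => mob (pr S (fun x y => a x * b y)) W with hm
  have h2 : ∑ W ∈ S.powersetCard k, (1 / 25 : ℝ) ^ k * m W ^ 2 ≤ 1 := by
    refine le_trans ?_ h1
    have h3 : ∑ W ∈ S.powersetCard k, (1 / 25 : ℝ) ^ k * m W ^ 2 =
        ∑ W ∈ S.powersetCard k, (1 / 25 : ℝ) ^ W.card * m W ^ 2 := by
      refine sum_congr rfl fun W hW => ?_
      rw [(mem_powersetCard.1 hW).2]
    rw [h3]
    refine sum_le_sum_of_subset_of_nonneg (fun W hW => ?_) (fun W _ _ => by positivity)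
    rw [mem_powerset]
    exact (mem_powersetCard.1 hW).1
  rw [← mul_sum] at h2
  have h4 : ∑ W ∈ S.powersetCard k, m W ^ 2 ≤ 25 ^ k := by
    have e : (1 / 25 : ℝ) ^ k * 25 ^ k = 1 := by
      rw [← mul_pow]
      norm_num
    have p : (0 : ℝ) < 25 ^ k := by positivity
    nlinarith
  have hcs := sq_sum_le_card_mul_sum_sq (s := S.powersetCard k) (f := fun W => |m W|)
  have h5 : (((S.powersetCard k).card : ℕ) : ℝ) ≤ (S.card : ℝ) ^ k := by
    rw [card_powersetCard]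
    exact_mod_cast Nat.choose_le_pow _ _
  have h6 : ∑ W ∈ S.powersetCard k, |m W| ^ 2 = ∑ W ∈ S.powersetCard k, m W ^ 2 :=
    sum_congr rfl fun W _ => sq_abs _
  have h7 : (∑ W ∈ S.powersetCard k, |m W|) ^ 2 ≤ ((5 * √S.card) ^ k) ^ 2 := by
    calc (∑ W ∈ S.powersetCard k, |m W|) ^ 2 ≤
          ((S.powersetCard k).card : ℝ) * ∑ W ∈ S.powersetCard k, |m W| ^ 2 := hcs
      _ ≤ (S.card : ℝ) ^ k * 25 ^ k := by
          rw [h6]
          exact mul_le_mul h5 h4 (sum_nonneg fun W _ => sq_nonneg _) (by positivity)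
      _ = ((5 * √S.card) ^ k) ^ 2 := by
          rw [← pow_mul, mul_comm k 2, pow_mul, mul_pow, Real.sq_sqrt (Nat.cast_nonneg _),
            mul_pow]
          norm_num
          ring
  exact (le_abs_self _).trans (abs_le_of_sq_le_sq h7 (by positivity))

/-- sum of the absolute values at one level -/
theorem level_sum (S : Finset ι) {m : ℕ} (A B : Fin m → Finset ι → ℝ)
    (hA : ∀ j x, |A j x| ≤ 1) (hB : ∀ j y, |B j y| ≤ 1) (k : ℕ) :
    ∑ W ∈ S.powersetCard k, |mob (pr S (fun x y => ∑ j, A j x * B j y)) W| ≤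
      m * (5 * √S.card) ^ k := by
  have h1 : ∀ W, mob (pr S (fun x y => ∑ j, A j x * B j y)) W =
      ∑ j, mob (pr S (fun x y => A j x * B j y)) W := by
    intro W
    rw [mob_congr (G := fun Z => ∑ j, pr S (fun x y => A j x * B j y) Z)
      (fun Z _ => pr_sum S Z univ (fun j x y => A j x * B j y)), mob_sum]
  calc ∑ W ∈ S.powersetCard k, |mob (pr S (fun x y => ∑ j, A j x * B j y)) W|
      ≤ ∑ W ∈ S.powersetCard k, ∑ j, |mob (pr S (fun x y => A j x * B j y)) W| := by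
        refine sum_le_sum fun W _ => ?_
        rw [h1]
        exact abs_sum_le_sum_abs _ _
    _ = ∑ j, ∑ W ∈ S.powersetCard k, |mob (pr S (fun x y => A j x * B j y)) W| := sum_comm
    _ ≤ ∑ _j : Fin m, (5 * √S.card) ^ k := sum_le_sum fun j _ =>
        ZLsum_one S (A j) (B j) (hA j) (hB j) k
    _ = m * (5 * √S.card) ^ k := by
        rw [sum_const, card_univ, Fintype.card_fin, nsmul_eq_mul]

end MP052029.Zr
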