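import Pool.Agent.Lib.MP_052029_lc.Z.ZProto

/-!
# Module ZMsg: acceptance decided by the common element and two short messages

PROOF. For coins `r, q`, `a, b < k` let `α_a x r = 1[u x r = a]`, `β_b y q = 1[v y q = b]`. Fix `i`, `r`, `q`. `R` = the set of the pairs `(a,b)` such that
some (hence every) pair `x, y` with common element `i` only and messages `a, b` is rejected. For `(a,b) ∈ R`: `oneAvg i (α_a β_b load) = 0` (rejected: `load = 0`),
so `noneAvg (α_a β_b) <= T1(a,b)` := `|oneAvg i (α β load) - noneAvg (α β)|`, and `oneAvg i (α_a β_b) <= noneAvg (α_a β_b) + T2(a,b)`, `T2` := `|oneAvg i (α β) - noneAvg (α β)|`.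
The proportion of rejected pairs `oneAvg i 1[rejected] = ∑ (a,b) ∈ R, oneAvg i (α_a β_b) <= ∑ a b, (T1 + T2)`. Average over `i` and the coins: at least `1/2` on the left
(`accept <= 1/2` for every pair with a common element), at most `k^2 (E1 + E2)` on the right.
-/

set_option autoImplicit false

namespace MP052029.Zr

open Finset

variable {n : ℕ} {P : Protocol n}

/-- For fixed coins, acceptance of a pair with exactly one common element depends only on this
element and on the values `u x r`, `v y q`, at most `k` on each side. -/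
def Decided (P : Protocol n) (k : ℕ) (u : (Fin n → Bool) → P.R → Fin k)
    (v : (Fin n → Bool) → P.Q → Fin k) : Prop :=
  ∀ (r : P.R) (q : P.Q) (i : Fin n) (x y x' y' : Fin n → Bool),
    (∀ j, (x j = true ∧ y j = true) ↔ j = i) → (∀ j, (x' j = true ∧ y' j = true) ↔ j = i) →
    u x r = u x' r → v y q = v y' q →
    ((∃ t, P.Hit x y r q t) ↔ ∃ t, P.Hit x' y' r q t)

private lemma msg_card (P : Protocol n) : (0 : ℝ) < Fintype.card P.R * Fintype.card P.Q := by
  have h1 : (0 : ℝ) < Fintype.card P.R := by exact_mod_cast Fintype.card_pos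
  have h2 : (0 : ℝ) < Fintype.card P.Q := by exact_mod_cast Fintype.card_pos
  positivity

private lemma msg_avg_mono {F G : P.R → P.Q → ℝ} (h : ∀ r q, F r q ≤ G r q) :
    P.avg F ≤ P.avg G := by
  have hc := msg_card P
  unfold Protocol.avg
  exact div_le_div_of_nonneg_right (sum_le_sum fun r _ => sum_le_sum fun q _ => h r q) hc.le

private lemma msg_avg_const (c : ℝ) : P.avg (fun _ _ => c) = c := by
  have hc := msg_card P
  unfold Protocol.avg
  simp only [sum_const, card_univ, nsmul_eq_mul]
  have h1 : (0 : ℝ) < Fintype.card P.R := by exact_mod_cast Fintype.card_pos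
  have h2 : (0 : ℝ) < Fintype.card P.Q := by exact_mod_cast Fintype.card_pos
  field_simp

private lemma msg_avg_add (F G : P.R → P.Q → ℝ) :
    P.avg (fun r q => F r q + G r q) = P.avg F + P.avg G := by
  unfold Protocol.avg
  simp only [sum_add_distrib, add_div]

private lemma msg_avg_sum {κ : Type*} (T : Finset κ) (F : κ → P.R → P.Q → ℝ) :
    P.avg (fun r q => ∑ t ∈ T, F t r q) = ∑ t ∈ T, P.avg (F t) := by
  unfold Protocol.avg
  rw [← sum_div]
  congr 1
  calc ∑ r : P.R, ∑ q : P.Q, ∑ t ∈ T, F t r q = ∑ r : P.R, ∑ t ∈ T, ∑ q : P.Q, F t r q :=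
        sum_congr rfl fun r _ => sum_comm
    _ = ∑ t ∈ T, ∑ r : P.R, ∑ q : P.Q, F t r q := sum_comm

private lemma msg_avg_div (F : P.R → P.Q → ℝ) (c : ℝ) :
    P.avg (fun r q => F r q / c) = P.avg F / c := by
  unfold Protocol.avg
  simp only [← sum_div]
  rw [div_div, div_div, mul_comm c]

private lemma msg_one_avg (i : Fin n) (F : (Fin n → Bool) → (Fin n → Bool) → P.R → P.Q → ℝ) :
    P.avg (fun r q => oneAvg i (fun x y => F x y r q)) =
      oneAvg i (fun x y => P.avg (fun r q => F x y r q)) := by
  have e : ∀ f : (Fin n → Bool) → (Fin n → Bool) → ℝ, oneAvg i f =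
      ∑ x, ∑ y, (if (∀ j, (x j = true ∧ y j = true) ↔ j = i) then f x y else 0) /
        3 ^ (n - 1) := by
    intro f
    unfold oneAvg
    rw [sum_div]
    exact sum_congr rfl fun x _ => sum_div _ _ _
  rw [e]
  have e2 : (fun (r : P.R) (q : P.Q) => oneAvg i (fun x y => F x y r q)) = fun r q =>
      ∑ x, ∑ y, (if (∀ j, (x j = true ∧ y j = true) ↔ j = i) then F x y r q else 0) /
        3 ^ (n - 1) := by
    funext r q
    exact e _
  rw [e2, msg_avg_sum]
  refine sum_congr rfl fun x _ => ?_
  rw [msg_avg_sum]
  refine sum_congr rfl fun y _ => ?_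
  by_cases h : (∀ j, (x j = true ∧ y j = true) ↔ j = i)
  · simp only [if_pos h]
    exact msg_avg_div _ _
  · simp only [if_neg h, zero_div]
    exact msg_avg_const 0

theorem msg (hn : 1 ≤ n) (hc : P.Computes) {k : ℕ}
    {u : (Fin n → Bool) → P.R → Fin k} {v : (Fin n → Bool) → P.Q → Fin k} (hD : Decided P k u v)
    {E1 E2 : ℝ}
    (h1 : ∀ (α : (Fin n → Bool) → P.R → ℝ) (β : (Fin n → Bool) → P.Q → ℝ),
      (∀ x r, |α x r| ≤ 1) → (∀ y q, |β y q| ≤ 1) →
      P.avg (fun r q => (∑ i, |oneAvg i (fun x y => α x r * β y q * P.load x y r q) -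
        noneAvg (fun x y => α x r * β y q)|) / n) ≤ E1)
    (h2 : ∀ (α β : (Fin n → Bool) → ℝ), (∀ x, |α x| ≤ 1) → (∀ y, |β y| ≤ 1) →
      (∑ i, |oneAvg i (fun x y => α x * β y) - noneAvg (fun x y => α x * β y)|) / n ≤ E2) :
    1 / 2 ≤ (k : ℝ) ^ 2 * (E1 + E2) := by
  classical
  have hn0 : (0 : ℝ) < n := by exact_mod_cast hn
  set al : Fin k → (Fin n → Bool) → P.R → ℝ := fun a x r => if u x r = a then 1 else 0 with hal
  set be : Fin k → (Fin n → Bool) → P.Q → ℝ := fun b y q => if v y q = b then 1 else 0 with hbe
  have hal1 : ∀ a x r, |al a x r| ≤ 1 := by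
    intro a x r
    simp only [hal]
    split_ifs <;> simp
  have hbe1 : ∀ b y q, |be b y q| ≤ 1 := by
    intro b y q
    simp only [hbe]
    split_ifs <;> simp
  have hal0 : ∀ a x r, 0 ≤ al a x r := by
    intro a x r
    simp only [hal]
    split_ifs <;> simp
  have hbe0 : ∀ b y q, 0 ≤ be b y q := by
    intro b y q
    simp only [hbe]
    split_ifs <;> simp
  set T1 : Fin k → Fin k → P.R → P.Q → Fin n → ℝ := fun a b r q i =>
    |oneAvg i (fun x y => al a x r * be b y q * P.load x y r q) -
        noneAvg (fun x y => al a x r * be b y q)| with hT1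
  set T2 : Fin k → Fin k → P.R → P.Q → Fin n → ℝ := fun a b r q i =>
    |oneAvg i (fun x y => al a x r * be b y q) -
        noneAvg (fun x y => al a x r * be b y q)| with hT2
  set rej : (Fin n → Bool) → (Fin n → Bool) → P.R → P.Q → ℝ := fun x y r q =>
    if ∃ t, P.Hit x y r q t then 0 else 1 with hrej
  have hA : ∀ r q i, oneAvg i (fun x y => rej x y r q) ≤
      ∑ a, ∑ b, (T1 a b r q i + T2 a b r q i) := by
    intro r q i
    set Rj : Fin k → Fin k → Prop := fun a b => ∃ x y : Fin n → Bool,
      (∀ j, (x j = true ∧ y j = true) ↔ j = i) ∧ u x r = a ∧ v y q = b ∧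
      ¬ ∃ t, P.Hit x y r q t with hRj
    have s1 : oneAvg i (fun x y => rej x y r q) ≤ oneAvg i (fun x y => ∑ a, ∑ b,
        (if Rj a b then al a x r * be b y q else 0)) := by
      refine oneAvg_mono fun x y hxy => ?_
      have hs : (if Rj (u x r) (v y q) then al (u x r) x r * be (v y q) y q else 0) ≤
          ∑ a, ∑ b, (if Rj a b then al a x r * be b y q else 0) := by
        have hnn : ∀ a b, 0 ≤ (if Rj a b then al a x r * be b y q else 0) := by
          intro a b
          split_ifs
          · exact mul_nonneg (hal0 _ _ _) (hbe0 _ _ _)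
          · exact le_rfl
        refine le_trans ?_ (single_le_sum (f := fun a => ∑ b,
          (if Rj a b then al a x r * be b y q else 0))
          (fun a _ => sum_nonneg fun b _ => hnn a b) (mem_univ (u x r)))
        exact single_le_sum (f := fun b =>
          (if Rj (u x r) b then al (u x r) x r * be b y q else 0))
          (fun b _ => hnn _ b) (mem_univ (v y q))
      refine le_trans ?_ hs
      by_cases hh : ∃ t, P.Hit x y r q t
      · simp only [hrej, if_pos hh]
        split_ifs
        · exact mul_nonneg (hal0 _ _ _) (hbe0 _ _ _)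
        · exact le_rfl
      · have hR : Rj (u x r) (v y q) := ⟨x, y, hxy, rfl, rfl, hh⟩
        simp only [hrej, if_neg hh, if_pos hR, hal, hbe, if_true]
        norm_num
    have s2 : oneAvg i (fun x y => ∑ a, ∑ b,
        (if Rj a b then al a x r * be b y q else 0)) = ∑ a, ∑ b,
        oneAvg i (fun x y => (if Rj a b then al a x r * be b y q else 0)) := by
      rw [oneAvg_sum]
      exact sum_congr rfl fun a _ => oneAvg_sum _ _ _
    rw [s2] at s1
    refine s1.trans (sum_le_sum fun a _ => sum_le_sum fun b _ => ?_)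
    by_cases hR : Rj a b
    · simp only [if_pos hR]
      obtain ⟨x0, y0, h0, hu0, hv0, hnh⟩ := hR
      have z1 : oneAvg i (fun x y => al a x r * be b y q * P.load x y r q) ≤ 0 := by
        have z2 : oneAvg i (fun x y => al a x r * be b y q * P.load x y r q) ≤
            oneAvg i (fun _ _ => (0 : ℝ)) := by
          refine oneAvg_mono fun x y hxy => ?_
          by_cases hu : u x r = a
          · by_cases hv : v y q = b
            · have hl : P.load x y r q = 0 := by
                unfold Protocol.load
                rw [Set.ncard_eq_zero]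
                ext t
                simp only [Set.mem_ofPred_eq, Set.mem_empty_iff_false, iff_false, not_and]
                intro _ ht
                exact hnh ((hD r q i x y x0 y0 hxy h0 (hu.trans hu0.symm)
                  (hv.trans hv0.symm)).1 ⟨t, ht⟩)
              simp [hl]
            · simp [hbe, hv]
          · simp [hal, hu]
        rw [oneAvg_const] at z2
        exact z2
      have z3 : 0 ≤ noneAvg (fun x y => al a x r * be b y q) :=
        noneAvg_nonneg fun x y => mul_nonneg (hal0 _ _ _) (hbe0 _ _ _)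
      have z4 : noneAvg (fun x y => al a x r * be b y q) ≤ T1 a b r q i := by
        simp only [hT1]
        rw [abs_sub_comm]
        refine le_trans ?_ (le_abs_self _)
        linarith
      have z5 : oneAvg i (fun x y => al a x r * be b y q) -
          noneAvg (fun x y => al a x r * be b y q) ≤ T2 a b r q i := le_abs_self _
      linarith
    · simp only [if_neg hR]
      rw [oneAvg_const]
      simp only [hT1, hT2]
      positivity
  have hB : ∀ i, 1 / 2 ≤ P.avg (fun r q => oneAvg i (fun x y => rej x y r q)) := by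
    intro i
    rw [msg_one_avg]
    have w : oneAvg i (fun _ _ => (1 / 2 : ℝ)) ≤
        oneAvg i (fun x y => P.avg (fun r q => rej x y r q)) := by
      refine oneAvg_mono fun x y hxy => ?_
      have hnd : ¬ Disj x y := fun h => h ⟨i, ((hxy i).2 rfl)⟩
      have h3 := (hc x y).2 hnd
      have h4 : P.avg (fun r q => rej x y r q) + P.accept x y = 1 := by
        unfold Protocol.accept
        rw [← msg_avg_add]
        have : (fun (r : P.R) (q : P.Q) => rej x y r q +
            (if ∃ t, P.Hit x y r q t then (1 : ℝ) else 0)) = fun _ _ => 1 := by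
          funext r q
          simp only [hrej]
          split_ifs <;> simp
        rw [this]
        exact msg_avg_const 1
      linarith
    rwa [oneAvg_const] at w
  have hB' : 1 / 2 ≤ P.avg (fun r q => (∑ i, oneAvg i (fun x y => rej x y r q)) / n) := by
    rw [msg_avg_div, msg_avg_sum, le_div_iff₀ hn0]
    calc (1 / 2 : ℝ) * n = ∑ _i : Fin n, (1 / 2 : ℝ) := by
          rw [sum_const, card_univ, Fintype.card_fin, nsmul_eq_mul, mul_comm]
      _ ≤ _ := sum_le_sum fun i _ => hB i
  have hC : P.avg (fun r q => (∑ i, oneAvg i (fun x y => rej x y r q)) / n) ≤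
      P.avg (fun r q => ∑ a, ∑ b, ((∑ i, T1 a b r q i) / n + (∑ i, T2 a b r q i) / n)) := by
    refine msg_avg_mono fun r q => ?_
    have e : ∑ a, ∑ b, ((∑ i, T1 a b r q i) / n + (∑ i, T2 a b r q i) / n) =
        (∑ i, ∑ a, ∑ b, (T1 a b r q i + T2 a b r q i)) / n := by
      simp only [← add_div, ← sum_add_distrib, ← sum_div]
      congr 1
      calc ∑ a, ∑ b, ∑ i, (T1 a b r q i + T2 a b r q i)
          = ∑ a, ∑ i, ∑ b, (T1 a b r q i + T2 a b r q i) :=
            sum_congr rfl fun a _ => sum_comm
        _ = _ := sum_comm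
    rw [e]
    exact div_le_div_of_nonneg_right (sum_le_sum fun i _ => hA r q i) hn0.le
  have hE : P.avg (fun r q => ∑ a, ∑ b, ((∑ i, T1 a b r q i) / n + (∑ i, T2 a b r q i) / n)) ≤
      (k : ℝ) ^ 2 * (E1 + E2) := by
    rw [msg_avg_sum]
    have : ∀ a : Fin k, P.avg (fun r q => ∑ b, ((∑ i, T1 a b r q i) / n +
        (∑ i, T2 a b r q i) / n)) ≤ k * (E1 + E2) := by
      intro a
      rw [msg_avg_sum]
      calc ∑ b : Fin k, P.avg (fun r q => (∑ i, T1 a b r q i) / n + (∑ i, T2 a b r q i) / n)
          ≤ ∑ _b : Fin k, (E1 + E2) := by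
            refine sum_le_sum fun b _ => ?_
            rw [msg_avg_add]
            refine add_le_add ?_ ?_
            · exact h1 (al a) (be b) (hal1 a) (hbe1 b)
            · have := msg_avg_mono (P := P) (F := fun r q => (∑ i, T2 a b r q i) / n)
                (G := fun _ _ => E2) (fun r q => h2 (fun x => al a x r) (fun y => be b y q)
                  (fun x => hal1 a x r) (fun y => hbe1 b y q))
              rwa [msg_avg_const] at this
        _ = k * (E1 + E2) := by
            rw [sum_const, card_univ, Fintype.card_fin, nsmul_eq_mul]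
    calc ∑ a : Fin k, P.avg (fun r q => ∑ b, ((∑ i, T1 a b r q i) / n +
        (∑ i, T2 a b r q i) / n)) ≤ ∑ _a : Fin k, k * (E1 + E2) :=
          sum_le_sum fun a _ => this a
      _ = (k : ℝ) ^ 2 * (E1 + E2) := by
          rw [sum_const, card_univ, Fintype.card_fin, nsmul_eq_mul]
          ring
  exact hB'.trans (hC.trans hE)

end MP052029.Zr
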