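import Pool.Agent.Lib.MP_052029_lc.Z.ZLsum
import Pool.Agent.Lib.MP_052029_lc.Z.ZCoef
import Pool.Agent.Lib.MP_052029_lc.Z.ZCnt

/-!
# Module ZRect: sums of `m` rectangles

PROOF. `G = pr univ (∑ j, A j x * B j y)`, `mu = mob G`. For `Z0` with `s` elements let `tau(Z0) = ∑ W ⊆ Z0, d < |W|, |mu W|`,
`c W = mu W` if `1 <= |W| <= d`, else `0`. For `Z ⊆ Z0`: `G Z = mu ∅ + ∑ W ⊆ Z, c W + (part of size <= tau)` (`sum_mob`), so
`|∑ W ⊆ Z, c W| <= F Z + 1 + tau`. `coef_sum` with `M = ∑ j < 2d, ex (node d j) Z0 F + 1 + tau(Z0)`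
(each node: `ex |..| <= ex F + 1 + tau`): `∑ i ∈ Z0, |mu {i}| <= √s 2 64^d M`. Average over `Z0` (`cnt_single`, `mob_singleton`, `cnt_avg` with
`w = |mu|`, `r = 5 √n`, `level_sum` for `S = univ`; `s r/n = 5 s/√n`): `(s/n) ∑ i |G {i} - G ∅| <= √s 2 64^d (av M)`, divide by `s`.
-/

set_option autoImplicit false

namespace MP052029.Zr

open Finset

private theorem av_sum' {n : ℕ} (s : ℕ) (T : Finset ℕ) (f : ℕ → Finset (Fin n) → ℝ) :
    av s (fun Z => ∑ j ∈ T, f j Z) = ∑ j ∈ T, av s (f j) := by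
  unfold av
  rw [sum_comm, sum_div]

/-- The estimate for one set `Z0`. -/
private theorem one_set {n s d : ℕ} (hd : 1 ≤ d) (G F : Finset (Fin n) → ℝ)
    (hF : ∀ Z, |G Z| ≤ F Z) (h0 : |G ∅| ≤ 1) (Z0 : Finset (Fin n)) (hZ0 : Z0.card = s) :
    ∑ i ∈ Z0, |G {i} - G ∅| ≤ √s * (2 * 64 ^ d *
      (∑ j ∈ range (2 * d), ex (node d j) Z0 F + 1 +
        ∑ W ∈ Z0.powerset.filter (fun W => d < W.card), |mob G W|)) := by
  set tau := ∑ W ∈ Z0.powerset.filter (fun W => d < W.card), |mob G W| with htau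
  have htau0 : 0 ≤ tau := sum_nonneg fun W _ => abs_nonneg _
  have hF0 : ∀ Z, 0 ≤ F Z := fun Z => (abs_nonneg _).trans (hF Z)
  let c : Finset (Fin n) → ℝ := fun W => if W.card = 0 ∨ d < W.card then 0 else mob G W
  have hc0 : c ∅ = 0 := by simp [c]
  have hc : ∀ W ⊆ Z0, d < W.card → c W = 0 := by
    intro W _ hW
    simp only [c]
    rw [if_pos (Or.inr hW)]
  have hcW : ∀ W, c W = mob G W - (if W = ∅ then mob G ∅ else 0) -
      (if d < W.card then mob G W else 0) := by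
    intro W
    by_cases h1 : W = ∅
    · subst h1
      simp [c]
    · have h2 : W.card ≠ 0 := by
        rw [Ne, card_eq_zero]
        exact h1
      by_cases h3 : d < W.card
      · simp [c, h1, h3]
      · simp [c, h1, h3]
  have hsum : ∀ Z, ∑ W ∈ Z.powerset, c W =
      G Z - G ∅ - ∑ W ∈ Z.powerset.filter (fun W => d < W.card), mob G W := by
    intro Z
    rw [sum_congr rfl fun W _ => hcW W, sum_sub_distrib, sum_sub_distrib, sum_mob,
      ← sum_filter, ← sum_filter]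
    congr 2
    rw [sum_filter, sum_ite_eq' Z.powerset ∅ (fun _ => mob G ∅),
      if_pos (empty_mem_powerset Z), mob_empty]
  have hbd : ∀ Z ⊆ Z0, |∑ W ∈ Z.powerset, c W| ≤ F Z + (1 + tau) := by
    intro Z hZ
    rw [hsum]
    have h1 : |∑ W ∈ Z.powerset.filter (fun W => d < W.card), mob G W| ≤ tau := by
      refine (abs_sum_le_sum_abs _ _).trans ?_
      refine sum_le_sum_of_subset_of_nonneg ?_ fun W _ _ => abs_nonneg _
      exact filter_subset_filter _ (powerset_mono.2 hZ)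
    have h2 := hF Z
    have h3 : |G Z - G ∅ - ∑ W ∈ Z.powerset.filter (fun W => d < W.card), mob G W| ≤
        |G Z| + |G ∅| + |∑ W ∈ Z.powerset.filter (fun W => d < W.card), mob G W| := by
      refine (abs_sub _ _).trans ?_
      exact add_le_add (abs_sub _ _) le_rfl
    linarith
  have hnode : ∀ j < 2 * d, 0 ≤ node d j ∧ node d j ≤ 1 := by
    intro j hj
    have := node_mem hd hj
    constructor <;> linarith [this.1, this.2]
  have hM : ∀ j < 2 * d, ex (node d j) Z0 (fun Z => |∑ W ∈ Z.powerset, c W|) ≤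
      ∑ j ∈ range (2 * d), ex (node d j) Z0 F + 1 + tau := by
    intro j hj
    have hn := hnode j hj
    calc ex (node d j) Z0 (fun Z => |∑ W ∈ Z.powerset, c W|)
        ≤ ex (node d j) Z0 (fun Z => F Z + (1 + tau)) := ex_mono hn.1 hn.2 hbd
      _ = ex (node d j) Z0 F + (1 + tau) := by
          rw [ex_add, ex_const]
      _ ≤ ∑ j ∈ range (2 * d), ex (node d j) Z0 F + (1 + tau) := by
          refine add_le_add ?_ le_rfl
          refine single_le_sum (f := fun j => ex (node d j) Z0 F) (fun k hk => ?_)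
            (mem_range.2 hj)
          have hk' := hnode k (mem_range.1 hk)
          exact ex_nonneg hk'.1 hk'.2 fun Z _ => hF0 Z
      _ = _ := by ring
  have hM0 : 0 ≤ ∑ j ∈ range (2 * d), ex (node d j) Z0 F + 1 + tau := by
    have : 0 ≤ ∑ j ∈ range (2 * d), ex (node d j) Z0 F := by
      refine sum_nonneg fun k hk => ?_
      have hk' := hnode k (mem_range.1 hk)
      exact ex_nonneg hk'.1 hk'.2 fun Z _ => hF0 Z
    linarith
  have h := coef_sum hd Z0 c hc0 hc hM0 hM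
  rw [hZ0] at h
  refine le_trans (le_of_eq ?_) h
  refine sum_congr rfl fun i _ => ?_
  have : c {i} = G {i} - G ∅ := by
    simp only [c, card_singleton]
    rw [if_neg (by omega), mob_singleton]
  rw [this]

theorem rect {n s d m : ℕ} (hs : 1 ≤ s) (hsn : s ≤ n) (hd : 1 ≤ d) (h10 : 10 * (s : ℝ) ≤ √n)
    (A B : Fin m → Finset (Fin n) → ℝ) (hA : ∀ j x, |A j x| ≤ 1) (hB : ∀ j y, |B j y| ≤ 1)
    (F : Finset (Fin n) → ℝ)
    (hF : ∀ Z, |pr univ (fun x y => ∑ j, A j x * B j y) Z| ≤ F Z)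
    (h0 : |pr univ (fun x y => ∑ j, A j x * B j y) ∅| ≤ 1) :
    (∑ i, |pr univ (fun x y => ∑ j, A j x * B j y) {i} -
        pr univ (fun x y => ∑ j, A j x * B j y) ∅|) / n ≤
      2 * 64 ^ d / √s * (∑ j ∈ range (2 * d), av s (fun Z0 => ex (node d j) Z0 F) + 1 +
        2 * m * (5 * s / √n) ^ (d + 1)) := by
  set G : Finset (Fin n) → ℝ := fun Z => pr univ (fun x y => ∑ j, A j x * B j y) Z with hG
  have hn : 1 ≤ n := hs.trans hsn
  have hn' : (0 : ℝ) < n := by exact_mod_cast hn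
  have hs' : (0 : ℝ) < s := by exact_mod_cast hs
  have hsq : 0 < √(s : ℝ) := Real.sqrt_pos.2 hs'
  have hsqn : 0 < √(n : ℝ) := Real.sqrt_pos.2 hn'
  have hsq2 : √(s : ℝ) * √(s : ℝ) = s := Real.mul_self_sqrt hs'.le
  have hsqn2 : √(n : ℝ) * √(n : ℝ) = n := Real.mul_self_sqrt hn'.le
  have hr : (s : ℝ) * (5 * √n) / n = 5 * s / √n := by
    rw [div_eq_div_iff hn'.ne' hsqn.ne']
    nlinarith
  have hr2 : (s : ℝ) * (5 * √n) / n ≤ 1 / 2 := by
    rw [hr, div_le_iff₀ hsqn]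
    linarith
  have hlev : ∀ k, ∑ W ∈ (univ : Finset (Fin n)).powersetCard k, |mob G W| ≤
      m * (5 * √n) ^ k := by
    intro k
    have := level_sum (univ : Finset (Fin n)) A B hA hB k
    rwa [card_univ, Fintype.card_fin] at this
  have htau := cnt_avg hn hsn (d := d) (fun W => |mob G W|) (fun W => abs_nonneg _)
    (m := (m : ℝ)) (r := 5 * √n) (Nat.cast_nonneg m) (by positivity) hr2 hlev
  rw [hr] at htau
  have hav := av_mono (s := s) (one_set hd G F hF h0 · · : ∀ Z : Finset (Fin n), Z.card = s →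
    ∑ i ∈ Z, |G {i} - G ∅| ≤ √s * (2 * 64 ^ d *
      (∑ j ∈ range (2 * d), ex (node d j) Z F + 1 +
        ∑ W ∈ Z.powerset.filter (fun W => d < W.card), |mob G W|)))
  rw [cnt_single hn hsn, av_mul, av_mul, av_add, av_add, av_const hsn, av_sum'] at hav
  have hX : 0 ≤ 2 * (64 : ℝ) ^ d := by positivity
  have h1 : (s : ℝ) / n * ∑ i, |G {i} - G ∅| ≤ √s * (2 * 64 ^ d *
      (∑ j ∈ range (2 * d), av s (fun Z0 => ex (node d j) Z0 F) + 1 +
        2 * m * (5 * s / √n) ^ (d + 1))) := by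
    refine hav.trans ?_
    refine mul_le_mul_of_nonneg_left ?_ hsq.le
    refine mul_le_mul_of_nonneg_left ?_ hX
    exact add_le_add le_rfl htau
  set Y := ∑ j ∈ range (2 * d), av s (fun Z0 => ex (node d j) Z0 F) + 1 +
        2 * m * (5 * s / √n) ^ (d + 1) with hY
  have h2 : (∑ i, |G {i} - G ∅|) / n = ((s : ℝ) / n * ∑ i, |G {i} - G ∅|) / s := by
    field_simp
  change (∑ i, |G {i} - G ∅|) / n ≤ _
  rw [h2, div_le_iff₀ hs']
  refine h1.trans (le_of_eq ?_)
  rw [div_mul_eq_mul_div, div_mul_eq_mul_div, eq_div_iff hsq.ne']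
  calc √(s : ℝ) * (2 * 64 ^ d * Y) * √s = (√(s : ℝ) * √s) * (2 * 64 ^ d * Y) := by ring
    _ = 2 * 64 ^ d * Y * s := by rw [hsq2]; ring

end MP052029.Zr
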